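import Mathlib
import Pool.Agent.Run7.h113.LE.KW

/-!
The theorem of Kronecker and Weyl, uniformly in the position of the window.
-/

set_option autoImplicit false

open MeasureTheory Filter Topology
open Run7.h113.LE

namespace Run7.h401.SD

variable {ι : Type} [Fintype ι]

/-- the mean over `[T, T + H]` -/
noncomputable def avT (ω : ι → ℝ) (G : C(UnitAddTorus ι, ℂ)) (T H : ℝ) : ℂ :=
  (1 / (H:ℂ)) * ∫ t in T..(T + H), G (pt fun i => t * ω i)

lemma avT_add (ω : ι → ℝ) (G G' : C(UnitAddTorus ι, ℂ)) (T H : ℝ) : avT ω (G + G') T H = avT ω G T H + avT ω G' T H := by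
  unfold avT
  simp only [ContinuousMap.add_apply]
  rw [intervalIntegral.integral_add ((flow_cont ω G).intervalIntegrable _ _) ((flow_cont ω G').intervalIntegrable _ _)]
  ring

lemma avT_smul (ω : ι → ℝ) (c : ℂ) (G : C(UnitAddTorus ι, ℂ)) (T H : ℝ) : avT ω (c • G) T H = c * avT ω G T H := by
  unfold avT
  simp only [ContinuousMap.smul_apply, smul_eq_mul]
  rw [intervalIntegral.integral_const_mul]
  ring

lemma avT_norm (ω : ι → ℝ) (G : C(UnitAddTorus ι, ℂ)) (T : ℝ) {H : ℝ} (hH : 0 < H) : ‖avT ω G T H‖ ≤ ‖G‖ := by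
  unfold avT
  have h1 : ‖∫ t in T..(T + H), G (pt fun i => t * ω i)‖ ≤ ‖G‖ * |(T + H) - T| :=
    intervalIntegral.norm_integral_le_of_norm_le_const fun t _ => G.norm_coe_le_norm _
  rw [norm_mul, norm_div, norm_one, Complex.norm_real, Real.norm_of_nonneg hH.le]
  rw [add_sub_cancel_left, abs_of_pos hH] at h1
  calc 1 / H * ‖∫ t in T..(T + H), G (pt fun i => t * ω i)‖ ≤ 1 / H * (‖G‖ * H) :=
        mul_le_mul_of_nonneg_left h1 (by positivity)
    _ = ‖G‖ := by field_simp

/-- the means converge uniformly -/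
def UM (ω : ι → ℝ) (G : C(UnitAddTorus ι, ℂ)) : Prop :=
  ∀ ε : ℝ, 0 < ε → ∃ H₀ : ℝ, 0 < H₀ ∧ ∀ H : ℝ, H₀ ≤ H → ∀ T : ℝ, ‖avT ω G T H - ∫ θ, G (pt θ) ∂(cube ι)‖ ≤ ε

/-- the theorem for the characters -/
lemma um_char {ω : ι → ℝ} (hω : ∀ n : ι → ℤ, ∑ i, (n i : ℝ) * ω i = 0 → n = 0) (n : ι → ℤ) :
    UM ω (UnitAddTorus.mFourier n) := by
  intro ε hε
  by_cases hn : n = 0
  · subst hn
    rw [UnitAddTorus.mFourier_zero]
    refine ⟨1, one_pos, fun H hH T => ?_⟩
    have hH0 : (H:ℂ) ≠ 0 := by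
      have : H ≠ 0 := by linarith
      exact_mod_cast this
    unfold avT
    simp only [ContinuousMap.one_apply, integral_const, probReal_univ, one_smul, intervalIntegral.integral_const,
      add_sub_cancel_left, Complex.real_smul, mul_one]
    rw [one_div_mul_cancel hH0, sub_self, norm_zero]
    exact hε.le
  · have h1 : ∫ θ, UnitAddTorus.mFourier n (pt θ) ∂(cube ι) = 0 := by
      simp_rw [mF_pt]
      unfold cube
      rw [integral_fintype_prod_eq_prod (fun i (x : ℝ) => Complex.exp (2 * Real.pi * Complex.I * n i * x))]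
      obtain ⟨i, hi⟩ : ∃ i, n i ≠ 0 := by
        by_contra h
        push Not at h
        exact hn (funext h)
      exact Finset.prod_eq_zero (Finset.mem_univ i) (exp_int_zero hi)
    rw [h1]
    set θ : ℝ := ∑ i, (n i : ℝ) * ω i with hθ
    have hθ0 : θ ≠ 0 := fun h => hn (hω n h)
    set c : ℂ := 2 * Real.pi * Complex.I * θ with hc
    have hc0 : c ≠ 0 := by
      have h1 : (Real.pi : ℂ) ≠ 0 := by exact_mod_cast Real.pi_ne_zero
      have h2 : (θ : ℂ) ≠ 0 := by exact_mod_cast hθ0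
      simp [hc, h1, h2, Complex.I_ne_zero]
    have hcn : 0 < ‖c‖ := norm_pos_iff.2 hc0
    have h2 : ∀ t : ℝ, UnitAddTorus.mFourier n (pt fun i => t * ω i) = Complex.exp (c * t) := by
      intro t
      rw [mF_pt, ← Complex.exp_sum]
      congr 1
      rw [hc, hθ]
      push_cast
      rw [Finset.mul_sum, Finset.sum_mul]
      refine Finset.sum_congr rfl fun i _ => ?_
      ring
    refine ⟨2 / ‖c‖ / ε, by positivity, fun H hH T => ?_⟩
    have hH0 : 0 < H := lt_of_lt_of_le (by positivity) hH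
    rw [sub_zero]
    unfold avT
    simp_rw [h2]
    rw [integral_exp_mul_complex hc0, norm_mul, norm_div, norm_div, norm_one, Complex.norm_real,
      Real.norm_of_nonneg hH0.le]
    have h4 : ∀ t : ℝ, ‖Complex.exp (c * t)‖ = 1 := by
      intro t
      have : c * t = ((2 * Real.pi * θ * t : ℝ) : ℂ) * Complex.I := by
        rw [hc]
        push_cast
        ring
      rw [this, Complex.norm_exp_ofReal_mul_I]
    have h5 : ‖Complex.exp (c * ((T + H : ℝ):ℂ)) - Complex.exp (c * (T:ℂ))‖ ≤ 2 := by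
      refine (norm_sub_le _ _).trans ?_
      rw [h4, h4]
      norm_num
    have h6 : 2 / ‖c‖ ≤ ε * H := by
      rw [div_le_iff₀ hε] at hH
      linarith
    calc 1 / H * (‖Complex.exp (c * ((T + H : ℝ):ℂ)) - Complex.exp (c * (T:ℂ))‖ / ‖c‖) ≤ 1 / H * (2 / ‖c‖) := by
          gcongr
      _ ≤ 1 / H * (ε * H) := by gcongr
      _ = ε := by field_simp

/-- **the theorem of Kronecker and Weyl, uniformly** -/
theorem um {ω : ι → ℝ} (hω : ∀ n : ι → ℤ, ∑ i, (n i : ℝ) * ω i = 0 → n = 0) (G : C(UnitAddTorus ι, ℂ)) : UM ω G := by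
  have hspan : ∀ P ∈ Submodule.span ℂ (Set.range (UnitAddTorus.mFourier (d := ι))), UM ω P := by
    intro P hP
    induction hP using Submodule.span_induction with
    | mem x hx =>
      obtain ⟨n, rfl⟩ := hx
      exact um_char hω n
    | zero =>
      intro ε hε
      refine ⟨1, one_pos, fun H hH T => ?_⟩
      unfold avT
      simp only [ContinuousMap.zero_apply, integral_zero, intervalIntegral.integral_zero, mul_zero, sub_self, norm_zero]
      exact hε.le
    | add x y _ _ hx hy =>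
      intro ε hε
      obtain ⟨H₁, hH₁, h1⟩ := hx (ε / 2) (by positivity)
      obtain ⟨H₂, hH₂, h2⟩ := hy (ε / 2) (by positivity)
      refine ⟨max H₁ H₂, lt_of_lt_of_le hH₁ (le_max_left _ _), fun H hH T => ?_⟩
      simp_rw [avT_add, ContinuousMap.add_apply]
      rw [integral_add (cube_int x) (cube_int y)]
      have a1 := h1 H ((le_max_left _ _).trans hH) T
      have a2 := h2 H ((le_max_right _ _).trans hH) T
      have e1 : avT ω x T H + avT ω y T H - (∫ θ, x (pt θ) ∂(cube ι) + ∫ θ, y (pt θ) ∂(cube ι)) =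
          (avT ω x T H - ∫ θ, x (pt θ) ∂(cube ι)) + (avT ω y T H - ∫ θ, y (pt θ) ∂(cube ι)) := by ring
      rw [e1]
      refine (norm_add_le _ _).trans ?_
      linarith
    | smul a x _ hx =>
      intro ε hε
      obtain ⟨H₁, hH₁, h1⟩ := hx (ε / (‖a‖ + 1)) (by positivity)
      refine ⟨H₁, hH₁, fun H hH T => ?_⟩
      simp_rw [avT_smul, ContinuousMap.smul_apply, smul_eq_mul]
      rw [integral_const_mul, ← mul_sub, norm_mul]
      have a1 := h1 H hH T
      calc ‖a‖ * ‖avT ω x T H - ∫ θ, x (pt θ) ∂(cube ι)‖ ≤ (‖a‖ + 1) * (ε / (‖a‖ + 1)) := by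
            gcongr
            linarith
        _ = ε := by field_simp
  have hcl : G ∈ closure (Submodule.span ℂ (Set.range (UnitAddTorus.mFourier (d := ι))) : Set C(UnitAddTorus ι, ℂ)) := by
    have := UnitAddTorus.span_mFourier_closure_eq_top (d := ι)
    rw [← Submodule.topologicalClosure_coe, this]
    trivial
  rw [Metric.mem_closure_iff] at hcl
  intro ε hε
  obtain ⟨P, hP, hGP⟩ := hcl (ε / 3) (by positivity)
  obtain ⟨H₀, hH₀, h1⟩ := hspan P hP (ε / 3) (by positivity)
  refine ⟨H₀, hH₀, fun H hH T => ?_⟩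
  have a1 := h1 H hH T
  rw [dist_eq_norm] at hGP
  have h2 : ‖avT ω G T H - avT ω P T H‖ ≤ ‖G - P‖ := by
    have : avT ω G T H - avT ω P T H = avT ω (G - P) T H := by
      have h3 := avT_add ω (G - P) P T H
      rw [sub_add_cancel] at h3
      rw [h3]
      ring
    rw [this]
    exact avT_norm ω (G - P) T (hH₀.trans_le hH)
  have h3 : ‖∫ θ, P (pt θ) ∂(cube ι) - ∫ θ, G (pt θ) ∂(cube ι)‖ ≤ ‖G - P‖ := by
    rw [← integral_sub (cube_int P) (cube_int G)]
    have h4 : ∀ᵐ θ ∂(cube ι), ‖P (pt θ) - G (pt θ)‖ ≤ ‖G - P‖ := Eventually.of_forall fun θ => by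
      rw [norm_sub_rev]
      exact (G - P).norm_coe_le_norm _
    refine (norm_integral_le_of_norm_le_const h4).trans (le_of_eq ?_)
    rw [probReal_univ, mul_one]
  have h4 : avT ω G T H - ∫ θ, G (pt θ) ∂(cube ι) = (avT ω G T H - avT ω P T H) +
      (avT ω P T H - ∫ θ, P (pt θ) ∂(cube ι)) + (∫ θ, P (pt θ) ∂(cube ι) - ∫ θ, G (pt θ) ∂(cube ι)) := by ring
  rw [h4]
  refine (norm_add₃_le).trans ?_
  linarith

end Run7.h401.SD
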