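import Mathlib

/-!
Frequencies in sets with boundaries of measure zero.
-/

set_option autoImplicit false

open MeasureTheory Filter Topology
open scoped ENNReal NNReal

namespace Run7.h401.SD

variable {X : Type} [PseudoMetricSpace X] [MeasurableSpace X] [BorelSpace X]

/-- the mean values of bounded continuous functions tend to the integrals, uniformly -/
def Law (L : ℝ → X) (ν : Measure X) : Prop :=
  ∀ g : X → ℝ, Continuous g → (∀ z, 0 ≤ g z ∧ g z ≤ 1) → ∀ ε : ℝ, 0 < ε → ∃ H₀ : ℝ, 0 < H₀ ∧ ∀ H : ℝ, H₀ ≤ H → ∀ T : ℝ,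
    |(1 / H) * (∫ t in T..(T + H), g (L t)) - ∫ z, g z ∂ν| ≤ ε

theorem closed_le {L : ℝ → X} {ν : Measure X} [IsProbabilityMeasure ν] (hL : AEStronglyMeasurable L volume)
    (hlaw : Law L ν) {C : Set X} (hC : IsClosed C) {ε : ℝ} (hε : 0 < ε) : ∃ H₀ : ℝ, 0 < H₀ ∧ ∀ H : ℝ, H₀ ≤ H → ∀ T : ℝ,
      (volume {t ∈ Set.Icc T (T + H) | L t ∈ C}).toReal ≤ H * (ν.real C + ε) := by
  -- the continuous function
  have h1 := tendsto_lintegral_thickenedIndicator_of_isClosed ν hC (δs := fun n : ℕ => 1 / ((n:ℝ) + 1))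
    (fun n => Nat.one_div_pos_of_nat) tendsto_one_div_add_atTop_nhds_zero_nat
  have h2 : ν C < ENNReal.ofReal (ν.real C + ε / 2) := by
    rw [ENNReal.lt_ofReal_iff_toReal_lt (measure_ne_top _ _)]
    rw [measureReal_def]
    linarith
  obtain ⟨n, hn⟩ := (h1.eventually (gt_mem_nhds h2)).exists
  set g : X → ℝ := fun z => (thickenedIndicator (E := C) (δ := 1 / ((n:ℝ) + 1)) Nat.one_div_pos_of_nat z : ℝ) with hg
  have hgc : Continuous g := by
    rw [hg]
    exact NNReal.continuous_coe.comp (thickenedIndicator (E := C) (δ := 1 / ((n:ℝ) + 1)) Nat.one_div_pos_of_nat).continuous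
  have hg0 : ∀ z, 0 ≤ g z ∧ g z ≤ 1 := by
    intro z
    refine ⟨NNReal.coe_nonneg _, ?_⟩
    rw [hg]
    exact_mod_cast thickenedIndicator_le_one (E := C) (δ := 1 / ((n:ℝ) + 1)) Nat.one_div_pos_of_nat z
  have hg1 : ∀ z ∈ C, g z = 1 := by
    intro z hz
    have h3 := thickenedIndicator_one (E := C) (δ := 1 / ((n:ℝ) + 1)) Nat.one_div_pos_of_nat hz
    simp only [hg, h3, NNReal.coe_one]
  have hgint : ∫ z, g z ∂ν ≤ ν.real C + ε / 2 := by
    rw [integral_eq_lintegral_of_nonneg_ae (Eventually.of_forall fun z => (hg0 z).1) hgc.aestronglyMeasurable]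
    refine ENNReal.toReal_le_of_le_ofReal (by positivity) ?_
    refine le_trans (le_of_eq ?_) hn.le
    refine lintegral_congr fun z => ?_
    rw [hg]
    simp
  obtain ⟨H₀, hH₀, hH⟩ := hlaw g hgc hg0 (ε / 2) (by positivity)
  refine ⟨H₀, hH₀, fun H hHH T => ?_⟩
  have hHp : 0 < H := hH₀.trans_le hHH
  have h3 := (abs_le.1 (hH H hHH T)).2
  have h4 : ∫ t in T..(T + H), g (L t) ≤ H * (ν.real C + ε) := by
    have h5 : (1 / H) * (∫ t in T..(T + H), g (L t)) ≤ ν.real C + ε := by linarith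
    rw [one_div, inv_mul_le_iff₀ hHp] at h5
    exact h5
  refine le_trans ?_ h4
  rw [intervalIntegral.integral_of_le (by linarith), ← integral_Icc_eq_integral_Ioc]
  have hm : AEStronglyMeasurable (fun t => g (L t)) (volume.restrict (Set.Icc T (T + H))) :=
    hgc.comp_aestronglyMeasurable hL.restrict
  rw [integral_eq_lintegral_of_nonneg_ae (Eventually.of_forall fun t => (hg0 _).1) hm]
  refine ENNReal.toReal_mono ?_ ?_
  · have h5 : ∫⁻ t in Set.Icc T (T + H), ENNReal.ofReal (g (L t)) ≤ ∫⁻ t in Set.Icc T (T + H), 1 :=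
      lintegral_mono fun t => by
        rw [← ENNReal.ofReal_one]
        exact ENNReal.ofReal_le_ofReal (hg0 _).2
    refine ne_top_of_le_ne_top ?_ h5
    rw [lintegral_one, Measure.restrict_apply_univ, Real.volume_Icc]
    exact ENNReal.ofReal_ne_top
  · have h5 := mul_meas_ge_le_lintegral₀ (μ := volume.restrict (Set.Icc T (T + H)))
      (hm.aemeasurable.ennreal_ofReal) 1
    rw [one_mul] at h5
    refine le_trans ?_ h5
    refine le_trans (measure_mono ?_) (Measure.le_restrict_apply _ _)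
    intro t ht
    refine ⟨?_, ht.1⟩
    show 1 ≤ ENNReal.ofReal (g (L t))
    rw [hg1 _ ht.2, ENNReal.ofReal_one]

/-- **frequencies** -/
theorem freq {L : ℝ → X} {ν : Measure X} [IsProbabilityMeasure ν] (hL : AEStronglyMeasurable L volume)
    (hlaw : Law L ν) {B : Set X} (hB : ν (frontier B) = 0) {ε : ℝ} (hε : 0 < ε) :
    ∃ H₀ : ℝ, 0 < H₀ ∧ ∀ H : ℝ, H₀ ≤ H → ∀ T : ℝ,
      |(volume {t ∈ Set.Icc T (T + H) | L t ∈ B}).toReal / H - ν.real B| ≤ ε := by
  obtain ⟨H₁, hH₁, h1⟩ := closed_le hL hlaw (C := closure B) isClosed_closure hε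
  obtain ⟨H₂, hH₂, h2⟩ := closed_le hL hlaw (C := (interior B)ᶜ) isOpen_interior.isClosed_compl hε
  have hcl : ν.real (closure B) = ν.real B := by
    rw [measureReal_def, measureReal_def, measure_closure_of_null_frontier hB]
  have hin : ν.real (interior B)ᶜ = 1 - ν.real B := by
    rw [probReal_compl_eq_one_sub isOpen_interior.measurableSet, measureReal_def, measureReal_def,
      measure_interior_of_null_frontier hB]
  refine ⟨max H₁ H₂, lt_of_lt_of_le hH₁ (le_max_left _ _), fun H hH T => ?_⟩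
  have hH0 : 0 < H := lt_of_lt_of_le hH₁ ((le_max_left _ _).trans hH)
  have hfin : ∀ S : Set ℝ, volume {t ∈ Set.Icc T (T + H) | t ∈ S} ≠ ∞ := fun S =>
    ne_top_of_le_ne_top (by rw [Real.volume_Icc]; exact ENNReal.ofReal_ne_top) (measure_mono fun t ht => ht.1)
  have a1 := h1 H ((le_max_left _ _).trans hH) T
  have a2 := h2 H ((le_max_right _ _).trans hH) T
  rw [hcl] at a1
  rw [hin] at a2
  have a3 : (volume {t ∈ Set.Icc T (T + H) | L t ∈ B}).toReal ≤
      (volume {t ∈ Set.Icc T (T + H) | L t ∈ closure B}).toReal :=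
    ENNReal.toReal_mono (hfin (L ⁻¹' closure B)) (measure_mono fun t ht => ⟨ht.1, subset_closure ht.2⟩)
  have a4 : H ≤ (volume {t ∈ Set.Icc T (T + H) | L t ∈ B}).toReal +
      (volume {t ∈ Set.Icc T (T + H) | L t ∈ (interior B)ᶜ}).toReal := by
    have h5 : volume (Set.Icc T (T + H)) ≤ volume {t ∈ Set.Icc T (T + H) | L t ∈ B} +
        volume {t ∈ Set.Icc T (T + H) | L t ∈ (interior B)ᶜ} := by
      refine le_trans (measure_mono ?_) (measure_union_le _ _)
      intro t ht
      by_cases hx : L t ∈ B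
      · exact Or.inl ⟨ht, hx⟩
      · exact Or.inr ⟨ht, fun hh => hx (interior_subset hh)⟩
    have h7 := hfin (L ⁻¹' B)
    have h8 := hfin (L ⁻¹' (interior B)ᶜ)
    simp only [Set.mem_preimage] at h7 h8
    have h6 := ENNReal.toReal_mono (ENNReal.add_ne_top.2 ⟨h7, h8⟩) h5
    rw [Real.volume_Icc, ENNReal.toReal_ofReal (by linarith), ENNReal.toReal_add h7 h8] at h6
    linarith
  rw [abs_le]
  constructor
  · rw [le_sub_iff_add_le, le_div_iff₀ hH0]
    nlinarith
  · rw [sub_le_iff_le_add, div_le_iff₀ hH0]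
    nlinarith

end Run7.h401.SD
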