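import Mathlib
import Pool.Agent.Run7.h113.LE.Mean
import Pool.Agent.Run7.h401.SD.Jor

/-!
Limit laws from approximations in the mean.
-/

set_option autoImplicit false

open MeasureTheory Filter Topology
open scoped ENNReal

namespace Run7.h401.SD

variable {V : Type} [NormedAddCommGroup V] [InnerProductSpace ℝ V] [FiniteDimensional ℝ V] [MeasurableSpace V]
  [BorelSpace V]

/-- the limit measure -/
lemma exists_limit {μ : ℕ → Measure V} [∀ i, IsProbabilityMeasure (μ i)] {f : V → ℂ} (hf : ContinuousAt f 0)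
    (h : ∀ t, Tendsto (fun n => charFun (μ n) t) atTop (𝓝 (f t))) :
    ∃ ν : Measure V, IsProbabilityMeasure ν ∧ ∀ t, charFun ν t = f t := by
  have htight := isTightMeasureSet_of_tendsto_charFun hf h
  set P : ℕ → ProbabilityMeasure V := fun n => ⟨μ n, inferInstance⟩ with hP
  have hS : IsTightMeasureSet {((m : ProbabilityMeasure V) : Measure V) | m ∈ Set.range P} := by
    have he : {((m : ProbabilityMeasure V) : Measure V) | m ∈ Set.range P} = Set.range μ := by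
      ext m
      constructor
      · rintro ⟨_, ⟨n, rfl⟩, rfl⟩
        exact ⟨n, rfl⟩
      · rintro ⟨n, rfl⟩
        exact ⟨P n, ⟨n, rfl⟩, rfl⟩
    rw [he]
    exact htight
  have hcomp := isCompact_closure_of_isTightMeasureSet hS
  obtain ⟨ν, -, φ, hφ, hlim⟩ := hcomp.isSeqCompact (x := P) fun n => subset_closure ⟨n, rfl⟩
  refine ⟨ν, inferInstance, fun t => ?_⟩
  have h1 := (ProbabilityMeasure.tendsto_iff_tendsto_charFun.1 hlim) t
  have h2 := (h t).comp hφ.tendsto_atTop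
  exact tendsto_nhds_unique h1 h2

/-- the mean over a window -/
noncomputable def mch (g : ℝ → V) (ξ : V) (T H : ℝ) : ℂ :=
  (1 / (H:ℂ)) * ∫ t in T..(T + H), Complex.exp ((inner ℝ (g t) ξ : ℝ) * Complex.I)

omit [FiniteDimensional ℝ V] [MeasurableSpace V] [BorelSpace V] in
lemma ch_meas {g : ℝ → V} (hg : AEStronglyMeasurable g volume) (ξ : V) :
    AEStronglyMeasurable (fun t => Complex.exp ((inner ℝ (g t) ξ : ℝ) * Complex.I)) volume := by
  have h1 : Continuous fun x : V => Complex.exp ((inner ℝ x ξ : ℝ) * Complex.I) := by fun_prop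
  exact h1.comp_aestronglyMeasurable hg

omit [FiniteDimensional ℝ V] [MeasurableSpace V] [BorelSpace V] in
lemma ch_ii {g : ℝ → V} (hg : AEStronglyMeasurable g volume) (ξ : V) (a b : ℝ) :
    IntervalIntegrable (fun t => Complex.exp ((inner ℝ (g t) ξ : ℝ) * Complex.I)) volume a b := by
  rw [intervalIntegrable_iff]
  refine Measure.integrableOn_of_bounded (M := 1) (by rw [Set.uIoc]; simp) (ch_meas hg ξ)
    (Eventually.of_forall fun t => ?_)
  rw [Complex.norm_exp_ofReal_mul_I]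

lemma exp_lip (a b : ℝ) : ‖Complex.exp (a * Complex.I) - Complex.exp (b * Complex.I)‖ ≤ |a - b| := by
  have h1 : Complex.exp (a * Complex.I) - Complex.exp (b * Complex.I) =
      Complex.exp (b * Complex.I) * (Complex.exp (Complex.I * ((a - b : ℝ) : ℂ)) - 1) := by
    rw [mul_sub, mul_one, ← Complex.exp_add]
    congr 2
    push_cast
    ring
  rw [h1, norm_mul, Complex.norm_exp_ofReal_mul_I, one_mul]
  exact Real.norm_exp_I_mul_ofReal_sub_one_le

/-- comparison of the means -/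
lemma mch_diff {g s : ℝ → V} (hg : AEStronglyMeasurable g volume) (hs : AEStronglyMeasurable s volume)
    (hloc : ∀ a b, IntervalIntegrable (fun t => ‖g t - s t‖) volume a b) {δ : ℝ}
    (htail : ∀ T : ℝ, ∫ t in T..(T + 1), ‖g t - s t‖ ≤ δ) (ξ : V) {T H : ℝ} (hH : 1 ≤ H) :
    ‖mch g ξ T H - mch s ξ T H‖ ≤ 2 * ‖ξ‖ * δ := by
  have hH0 : 0 < H := by linarith
  have hδ : 0 ≤ δ := (intervalIntegral.integral_nonneg (by linarith) fun t _ => norm_nonneg _).trans (htail 0)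
  unfold mch
  rw [← mul_sub, ← intervalIntegral.integral_sub (ch_ii hg ξ _ _) (ch_ii hs ξ _ _), norm_mul, norm_div, norm_one,
    Complex.norm_real, Real.norm_of_nonneg hH0.le]
  have h1 : ‖∫ t in T..(T + H), (Complex.exp ((inner ℝ (g t) ξ : ℝ) * Complex.I) -
      Complex.exp ((inner ℝ (s t) ξ : ℝ) * Complex.I))‖ ≤ ∫ t in T..(T + H), ‖ξ‖ * ‖g t - s t‖ := by
    refine intervalIntegral.norm_integral_le_of_norm_le (by linarith) (Eventually.of_forall fun t _ => ?_)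
      ((hloc _ _).const_mul _)
    refine (exp_lip _ _).trans ?_
    rw [← inner_sub_left]
    refine (abs_real_inner_le_norm _ _).trans (le_of_eq (mul_comm _ _))
  have h2 : ∫ t in T..(T + H), ‖g t - s t‖ ≤ 2 * H * δ := by
    have h3 := Run7.h113.LE.win_nat hloc htail T ⌈H⌉₊
    have h4 : H ≤ ⌈H⌉₊ := Nat.le_ceil H
    have h5 : (⌈H⌉₊ : ℝ) ≤ H + 1 := (Nat.ceil_lt_add_one hH0.le).le
    have h6 : ∫ t in T..(T + H), ‖g t - s t‖ ≤ ∫ t in T..(T + ⌈H⌉₊), ‖g t - s t‖ := by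
      rw [← intervalIntegral.integral_add_adjacent_intervals (hloc T (T + H)) (hloc (T + H) (T + ⌈H⌉₊))]
      have := intervalIntegral.integral_nonneg (μ := volume) (a := T + H) (b := T + ⌈H⌉₊) (by linarith)
        (fun t _ => norm_nonneg (g t - s t))
      linarith
    have h7 : (⌈H⌉₊ : ℝ) * δ ≤ 2 * H * δ := mul_le_mul_of_nonneg_right (by linarith) hδ
    linarith
  calc 1 / H * ‖∫ t in T..(T + H), (Complex.exp ((inner ℝ (g t) ξ : ℝ) * Complex.I) -
      Complex.exp ((inner ℝ (s t) ξ : ℝ) * Complex.I))‖ ≤ 1 / H * (‖ξ‖ * (2 * H * δ)) := by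
        apply mul_le_mul_of_nonneg_left _ (by positivity)
        refine h1.trans ?_
        rw [intervalIntegral.integral_const_mul]
        exact mul_le_mul_of_nonneg_left h2 (norm_nonneg _)
    _ = 2 * ‖ξ‖ * δ := by field_simp

/-- the uniform limits of the characteristic functions give the limit law -/
lemma law_of_mch {g : ℝ → V} (hg : AEStronglyMeasurable g volume) {ν : Measure V} [IsProbabilityMeasure ν]
    (h : ∀ (ξ : V) (ε : ℝ), 0 < ε → ∃ H₀ : ℝ, 0 < H₀ ∧ ∀ H : ℝ, H₀ ≤ H → ∀ T : ℝ, ‖mch g ξ T H - charFun ν ξ‖ ≤ ε) :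
    Law g ν := by
  intro f hfc hf ε hε
  by_contra hcon
  push Not at hcon
  have h1 : ∀ n : ℕ, ∃ (H T : ℝ), ((n:ℝ) + 1) ≤ H ∧
      ε < |(1 / H) * (∫ t in T..(T + H), f (g t)) - ∫ z, f z ∂ν| := by
    intro n
    obtain ⟨H, hH, T, hT⟩ := hcon ((n:ℝ) + 1) (by positivity)
    exact ⟨H, T, hH, hT⟩
  choose H T hH hT using h1
  have hH0 : ∀ n, 0 < H n := fun n => lt_of_lt_of_le (by positivity) (hH n)
  -- the measures
  set m : ℕ → Measure V := fun n =>
    (ENNReal.ofReal (1 / H n)) • (volume.restrict (Set.Ioc (T n) (T n + H n))).map g with hm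
  have hgm : ∀ n, AEMeasurable g (volume.restrict (Set.Ioc (T n) (T n + H n))) := fun n => hg.aemeasurable.restrict
  have hmp : ∀ n, IsProbabilityMeasure (m n) := by
    intro n
    constructor
    rw [hm]
    simp only [Measure.smul_apply, smul_eq_mul]
    rw [Measure.map_apply_of_aemeasurable (hgm n) MeasurableSet.univ, Set.preimage_univ, Measure.restrict_apply_univ,
      Real.volume_Ioc, add_sub_cancel_left, ← ENNReal.ofReal_mul (by have := hH0 n; positivity)]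
    rw [one_div_mul_cancel (hH0 n).ne', ENNReal.ofReal_one]
  have hint : ∀ (E : Type) [NormedAddCommGroup E] [NormedSpace ℝ E] (F : V → E), Continuous F → ∀ n,
      ∫ x, F x ∂(m n) = (1 / H n) • ∫ t in (T n)..(T n + H n), F (g t) := by
    intro E _ _ F hF n
    rw [hm]
    simp only
    rw [integral_smul_measure, integral_map (hgm n) hF.aestronglyMeasurable,
      intervalIntegral.integral_of_le (by linarith [hH0 n]), ENNReal.toReal_ofReal (by have := hH0 n; positivity)]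
  have hchar : ∀ ξ : V, Tendsto (fun n => charFun (m n) ξ) atTop (𝓝 (charFun ν ξ)) := by
    intro ξ
    rw [Metric.tendsto_atTop]
    intro δ hδ
    obtain ⟨H₀, hH₀, h2⟩ := h ξ (δ / 2) (by positivity)
    obtain ⟨N, hN⟩ := exists_nat_ge H₀
    refine ⟨N, fun n hn => ?_⟩
    have hn' : (N:ℝ) ≤ n := by exact_mod_cast hn
    have h3 := h2 (H n) (by linarith [hH n]) (T n)
    rw [dist_eq_norm, charFun_apply, hint ℂ (fun x => Complex.exp ((inner ℝ x ξ : ℝ) * Complex.I)) (by fun_prop) n]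
    unfold mch at h3
    rw [Complex.real_smul]
    push_cast
    linarith
  have hlim := (ProbabilityMeasure.tendsto_iff_tendsto_charFun (μ := fun n => (⟨m n, hmp n⟩ : ProbabilityMeasure V))
    (μ₀ := ⟨ν, inferInstance⟩)).2 hchar
  rw [ProbabilityMeasure.tendsto_iff_forall_integral_tendsto] at hlim
  have h4 := hlim (BoundedContinuousFunction.ofNormedAddCommGroup f hfc 1 fun x => by
    rw [Real.norm_of_nonneg (hf x).1]; exact (hf x).2)
  rw [Metric.tendsto_atTop] at h4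
  obtain ⟨N, hN⟩ := h4 ε hε
  have h5 := hN N le_rfl
  rw [Real.dist_eq] at h5
  have h6 := hint ℝ f hfc N
  change |∫ x, f x ∂(m N) - ∫ x, f x ∂ν| < ε at h5
  rw [h6, smul_eq_mul] at h5
  exact absurd (hT N) (not_lt.2 h5.le)

/-- **limit laws from approximations in the mean** -/
theorem law_of_approx {g : ℝ → V} (hg : AEStronglyMeasurable g volume) {s : ℕ → ℝ → V}
    (hs : ∀ Y, AEStronglyMeasurable (s Y) volume)
    (hloc : ∀ Y a b, IntervalIntegrable (fun t => ‖g t - s Y t‖) volume a b)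
    (htail : ∀ ε : ℝ, 0 < ε → ∃ Y₀ : ℕ, ∀ Y : ℕ, Y₀ ≤ Y → ∀ T : ℝ, ∫ t in T..(T + 1), ‖g t - s Y t‖ ≤ ε)
    {μ : ℕ → Measure V} [∀ Y, IsProbabilityMeasure (μ Y)]
    (hmean : ∀ (Y : ℕ) (ξ : V) (ε : ℝ), 0 < ε → ∃ H₀ : ℝ, 0 < H₀ ∧ ∀ H : ℝ, H₀ ≤ H → ∀ T : ℝ,
      ‖mch (s Y) ξ T H - charFun (μ Y) ξ‖ ≤ ε) :
    ∃ ν : Measure V, IsProbabilityMeasure ν ∧ (∀ ξ, Tendsto (fun Y => charFun (μ Y) ξ) atTop (𝓝 (charFun ν ξ))) ∧
      Law g ν := by
  -- two approximations
  have hcmp : ∀ δ : ℝ, 0 < δ → ∃ Y₀ : ℕ, ∀ Y Y' : ℕ, Y₀ ≤ Y → Y₀ ≤ Y' → ∀ ξ : V,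
      ‖charFun (μ Y) ξ - charFun (μ Y') ξ‖ ≤ 4 * ‖ξ‖ * δ := by
    intro δ hδ
    obtain ⟨Y₀, hY₀⟩ := htail δ hδ
    refine ⟨Y₀, fun Y Y' hY hY' ξ => ?_⟩
    refine le_of_forall_pos_le_add fun ε hε => ?_
    obtain ⟨H₁, hH₁, h1⟩ := hmean Y ξ (ε / 2) (by positivity)
    obtain ⟨H₂, hH₂, h2⟩ := hmean Y' ξ (ε / 2) (by positivity)
    set H : ℝ := max 1 (max H₁ H₂) with hH
    have a1 := h1 H ((le_max_left _ _).trans (le_max_right _ _)) 0
    have a2 := h2 H ((le_max_right _ _).trans (le_max_right _ _)) 0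
    have a3 := mch_diff hg (hs Y) (hloc Y) (hY₀ Y hY) ξ (T := 0) (H := H) (le_max_left _ _)
    have a4 := mch_diff hg (hs Y') (hloc Y') (hY₀ Y' hY') ξ (T := 0) (H := H) (le_max_left _ _)
    have e1 : charFun (μ Y) ξ - charFun (μ Y') ξ = -(mch (s Y) ξ 0 H - charFun (μ Y) ξ) -
        (mch g ξ 0 H - mch (s Y) ξ 0 H) + (mch g ξ 0 H - mch (s Y') ξ 0 H) +
        (mch (s Y') ξ 0 H - charFun (μ Y') ξ) := by ring
    rw [e1]
    refine (norm_add_le _ _).trans ?_
    refine (add_le_add_left ((norm_add_le _ _).trans (add_le_add_left (norm_sub_le _ _) _)) _).trans ?_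
    rw [norm_neg]
    linarith
  have hcau : ∀ ξ : V, CauchySeq fun Y => charFun (μ Y) ξ := by
    intro ξ
    rw [Metric.cauchySeq_iff]
    intro ε hε
    obtain ⟨Y₀, hY₀⟩ := hcmp (ε / (8 * (‖ξ‖ + 1))) (by positivity)
    refine ⟨Y₀, fun Y hY Y' hY' => ?_⟩
    rw [dist_eq_norm]
    refine (hY₀ Y Y' hY hY' ξ).trans_lt ?_
    have h1 : 4 * ‖ξ‖ * (ε / (8 * (‖ξ‖ + 1))) = ε / 2 * (‖ξ‖ / (‖ξ‖ + 1)) := by field_simp; ring
    rw [h1]
    have h2 : ‖ξ‖ / (‖ξ‖ + 1) ≤ 1 := by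
      rw [div_le_one (by positivity)]
      linarith
    nlinarith
  choose φ hφ using fun ξ => cauchySeq_tendsto_of_complete (hcau ξ)
  have hφ0 : φ 0 = 1 := by
    refine tendsto_nhds_unique (hφ 0) ?_
    have : (fun Y => charFun (μ Y) (0:V)) = fun _ => 1 := by
      funext Y
      rw [charFun_zero]
      simp
    rw [this]
    exact tendsto_const_nhds
  have hφc : ContinuousAt φ 0 := by
    obtain ⟨Y₀, hY₀⟩ := hcmp 1 one_pos
    have h1 : ∀ ξ, ‖φ ξ - charFun (μ Y₀) ξ‖ ≤ 4 * ‖ξ‖ := by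
      intro ξ
      have h2 := ((hφ ξ).sub_const (charFun (μ Y₀) ξ)).norm
      refine le_of_tendsto h2 ?_
      filter_upwards [eventually_ge_atTop Y₀] with Y hY
      have := hY₀ Y Y₀ hY le_rfl ξ
      rwa [mul_one] at this
    have h2 : Continuous (charFun (μ Y₀)) := continuous_charFun
    have h3 : Tendsto (fun ξ : V => φ ξ - charFun (μ Y₀) ξ) (𝓝 0) (𝓝 0) := by
      rw [tendsto_zero_iff_norm_tendsto_zero]
      refine squeeze_zero (fun _ => norm_nonneg _) h1 ?_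
      have h4 : Continuous fun ξ : V => 4 * ‖ξ‖ := by fun_prop
      have h5 := h4.tendsto (0:V)
      simpa using h5
    have h4 := h3.add h2.continuousAt.tendsto
    simp only [sub_add_cancel, zero_add] at h4
    rw [ContinuousAt, hφ0]
    have h5 : charFun (μ Y₀) (0:V) = 1 := by
      rw [charFun_zero]
      simp
    rwa [h5] at h4
  obtain ⟨ν, hν, hνφ⟩ := exists_limit hφc hφ
  refine ⟨ν, hν, fun ξ => by rw [hνφ]; exact hφ ξ, law_of_mch hg fun ξ ε hε => ?_⟩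
  -- the uniform limit
  obtain ⟨Y₀, hY₀⟩ := htail (ε / (8 * (‖ξ‖ + 1))) (by positivity)
  obtain ⟨Y₁, hY₁⟩ := hcmp (ε / (8 * (‖ξ‖ + 1))) (by positivity)
  set Y : ℕ := max Y₀ Y₁ with hY
  obtain ⟨H₁, hH₁, h1⟩ := hmean Y ξ (ε / 4) (by positivity)
  refine ⟨max 1 H₁, lt_of_lt_of_le one_pos (le_max_left _ _), fun H hH T => ?_⟩
  have a1 := h1 H ((le_max_right _ _).trans hH) T
  have a3 := mch_diff hg (hs Y) (hloc Y) (hY₀ Y (le_max_left _ _)) ξ (T := T) (H := H) ((le_max_left _ _).trans hH)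
  have a4 : ‖φ ξ - charFun (μ Y) ξ‖ ≤ 4 * ‖ξ‖ * (ε / (8 * (‖ξ‖ + 1))) := by
    have h2 := ((hφ ξ).sub_const (charFun (μ Y) ξ)).norm
    refine le_of_tendsto h2 ?_
    filter_upwards [eventually_ge_atTop Y] with Y' hY'
    exact hY₁ Y' Y ((le_max_right _ _).trans hY') (le_max_right _ _) ξ
  have e0 : ‖ξ‖ / (‖ξ‖ + 1) ≤ 1 := by
    rw [div_le_one (by positivity)]
    linarith
  have e1 : 4 * ‖ξ‖ * (ε / (8 * (‖ξ‖ + 1))) ≤ ε / 2 := by
    have h1 : 4 * ‖ξ‖ * (ε / (8 * (‖ξ‖ + 1))) = ε / 2 * (‖ξ‖ / (‖ξ‖ + 1)) := by field_simp; ring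
    rw [h1]
    nlinarith
  have e2 : 2 * ‖ξ‖ * (ε / (8 * (‖ξ‖ + 1))) ≤ ε / 4 := by linarith
  have e3 : mch g ξ T H - charFun ν ξ = (mch g ξ T H - mch (s Y) ξ T H) + (mch (s Y) ξ T H - charFun (μ Y) ξ) -
      (φ ξ - charFun (μ Y) ξ) := by
    rw [hνφ]
    ring
  rw [e3]
  refine (norm_sub_le _ _).trans ?_
  refine (add_le_add_left (norm_add_le _ _) _).trans ?_
  linarith

end Run7.h401.SD
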