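import Mathlib

/-!
Measures whose characteristic function decreases rapidly.
-/

set_option autoImplicit false

open MeasureTheory Filter Topology
open scoped ComplexConjugate FourierTransform SchwartzMap ContDiff

namespace Run7.h401.SD

section Interp

variable {V : Type} [NormedAddCommGroup V] [NormedSpace ℝ V]

/-- one step of the interpolation -/
lemma one_step {E : Type} [NormedAddCommGroup E] [NormedSpace ℝ E] {F : V → E} (hF : ContDiff ℝ ∞ F) {B₁ B : ℝ}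
    (hB₁ : ∀ x, ‖fderiv ℝ F x‖ ≤ B₁) (hB : ∀ x, ‖fderiv ℝ (fderiv ℝ F) x‖ ≤ B)
    (hdec : ∀ N : ℕ, ∃ C : ℝ, ∀ x, ‖x‖ ^ N * ‖F x‖ ≤ C) (N : ℕ) : ∃ C : ℝ, ∀ x, ‖x‖ ^ N * ‖fderiv ℝ F x‖ ≤ C := by
  obtain ⟨C, hC⟩ := hdec (2 * N)
  have hB0 : 0 ≤ B := (ContinuousLinearMap.opNorm_nonneg _).trans (hB 0)
  have hB10 : 0 ≤ B₁ := (norm_nonneg _).trans (hB₁ 0)
  have hC0 : 0 ≤ C := (by positivity : (0:ℝ) ≤ ‖(0:V)‖ ^ (2 * N) * ‖F 0‖).trans (hC 0)
  have hF1 : ContDiff ℝ ∞ (fderiv ℝ F) := hF.fderiv_right (by simp)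
  have hlip : ∀ x z : V, ‖fderiv ℝ F z - fderiv ℝ F x‖ ≤ B * ‖z - x‖ := fun x z =>
    convex_univ.norm_image_sub_le_of_norm_fderiv_le
      (fun y _ => (hF1.differentiable (by simp)).differentiableAt) (fun y _ => hB y) (Set.mem_univ x) (Set.mem_univ z)
  have htay : ∀ x y : V, ‖F (x + y) - F x - fderiv ℝ F x y‖ ≤ B * ‖y‖ * ‖y‖ := by
    intro x y
    have h1 := (convex_closedBall x ‖y‖).norm_image_sub_le_of_norm_fderiv_le' (f := F) (C := B * ‖y‖)
      (φ := fderiv ℝ F x) (x := x) (y := x + y)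
      (fun z _ => (hF.differentiable (by simp)).differentiableAt) (fun z hz => ?_) (by simp) (by simp)
    · simpa using h1
    · refine (hlip x z).trans (mul_le_mul_of_nonneg_left ?_ hB0)
      rwa [← dist_eq_norm]
  refine ⟨max (2 ^ N * B₁) (C * 4 ^ N + C + B), fun x => ?_⟩
  rcases le_total ‖x‖ 2 with hx | hx
  · refine le_trans ?_ (le_max_left _ _)
    exact mul_le_mul (pow_le_pow_left₀ (norm_nonneg _) hx N) (hB₁ x) (norm_nonneg _) (by positivity)
  · refine le_trans ?_ (le_max_right _ _)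
    have hx0 : 0 < ‖x‖ := by linarith
    have hxN : 0 < ‖x‖ ^ N := by positivity
    have hxN1 : 1 ≤ ‖x‖ ^ N := one_le_pow₀ (by linarith)
    rw [mul_comm, ← le_div_iff₀ hxN]
    refine ContinuousLinearMap.opNorm_le_bound _ (by positivity) fun y => ?_
    rcases eq_or_ne y 0 with rfl | hy
    · simp
    have hy0 : 0 < ‖y‖ := norm_pos_iff.2 hy
    -- the step
    set δ : ℝ := 1 / ‖x‖ ^ N with hδ
    have hδ0 : 0 < δ := by positivity
    have hδ1 : δ ≤ 1 := by rw [hδ, div_le_one hxN]; exact hxN1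
    set w : V := (δ / ‖y‖) • y with hw
    have hwn : ‖w‖ = δ := by
      rw [hw, norm_smul, Real.norm_of_nonneg (by positivity)]
      field_simp
    have h1 := htay x w
    rw [hwn] at h1
    have h2 : ‖x‖ / 2 ≤ ‖x + w‖ := by
      have := norm_sub_norm_le x (-w)
      rw [norm_neg, sub_neg_eq_add, hwn] at this
      linarith
    have h3 : ‖F (x + w)‖ ≤ C * 4 ^ N / ‖x‖ ^ (2 * N) := by
      rw [le_div_iff₀ (by positivity)]
      have h4 := hC (x + w)
      have h5 : (‖x‖ / 2) ^ (2 * N) ≤ ‖x + w‖ ^ (2 * N) := pow_le_pow_left₀ (by positivity) h2 _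
      have h6 : ‖x‖ ^ (2 * N) = 4 ^ N * (‖x‖ / 2) ^ (2 * N) := by
        rw [pow_mul, pow_mul, ← mul_pow]
        congr 1
        ring
      calc ‖F (x + w)‖ * ‖x‖ ^ (2 * N) = 4 ^ N * ((‖x‖ / 2) ^ (2 * N) * ‖F (x + w)‖) := by rw [h6]; ring
        _ ≤ 4 ^ N * (‖x + w‖ ^ (2 * N) * ‖F (x + w)‖) := by gcongr
        _ ≤ 4 ^ N * C := by gcongr
        _ = C * 4 ^ N := by ring
    have h4 : ‖F x‖ ≤ C / ‖x‖ ^ (2 * N) := by
      rw [le_div_iff₀ (by positivity), mul_comm]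
      exact hC x
    have h5 : ‖fderiv ℝ F x w‖ ≤ (C * 4 ^ N + C) / ‖x‖ ^ (2 * N) + B * δ * δ := by
      have h6 : fderiv ℝ F x w = F (x + w) - F x - (F (x + w) - F x - fderiv ℝ F x w) := by abel
      rw [h6]
      refine (norm_sub_le _ _).trans (add_le_add ?_ h1)
      refine (norm_sub_le _ _).trans ?_
      rw [add_div]
      exact add_le_add h3 h4
    have h6 : fderiv ℝ F x w = (δ / ‖y‖) • fderiv ℝ F x y := by rw [hw, map_smul]
    rw [h6, norm_smul, Real.norm_of_nonneg (by positivity)] at h5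
    have h7 : (C * 4 ^ N + C) / ‖x‖ ^ (2 * N) + B * δ * δ = δ * ((C * 4 ^ N + C + B) / ‖x‖ ^ N) := by
      rw [hδ, mul_comm 2 N, pow_mul, sq]
      field_simp
    rw [h7, div_mul_eq_mul_div, mul_div_assoc] at h5
    have h8 := le_of_mul_le_mul_left h5 hδ0
    rwa [div_le_iff₀ hy0] at h8

/-- **interpolation**: a rapidly decreasing function with bounded derivatives has rapidly decreasing derivatives -/
theorem interp (k : ℕ) : ∀ {E : Type} [NormedAddCommGroup E] [NormedSpace ℝ E] {F : V → E}, ContDiff ℝ ∞ F →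
    (∀ n : ℕ, ∃ B : ℝ, ∀ x, ‖iteratedFDeriv ℝ n F x‖ ≤ B) → (∀ N : ℕ, ∃ C : ℝ, ∀ x, ‖x‖ ^ N * ‖F x‖ ≤ C) →
    ∀ N : ℕ, ∃ C : ℝ, ∀ x, ‖x‖ ^ N * ‖iteratedFDeriv ℝ k F x‖ ≤ C := by
  induction k with
  | zero =>
    intro E _ _ F hF hB hdec N
    simp only [norm_iteratedFDeriv_zero]
    exact hdec N
  | succ k ih =>
    intro E _ _ F hF hB hdec N
    have hF1 : ContDiff ℝ ∞ (fderiv ℝ F) := hF.fderiv_right (by simp)
    simp only [← norm_iteratedFDeriv_fderiv]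
    refine ih hF1 (fun n => ?_) ?_ N
    · simp only [norm_iteratedFDeriv_fderiv]
      exact hB (n + 1)
    · obtain ⟨B₁, hB₁⟩ := hB 1
      obtain ⟨B₂, hB₂⟩ := hB 2
      refine one_step hF (B₁ := B₁) (B := B₂) (fun x => ?_) (fun x => ?_) hdec
      · rw [← norm_iteratedFDeriv_one]
        exact hB₁ x
      · rw [← norm_iteratedFDeriv_one, norm_iteratedFDeriv_fderiv]
        exact hB₂ x

end Interp

end Run7.h401.SD
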