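import Mathlib
import Pool.Agent.Run7.h401.SD.Dens

/-!
Measures whose characteristic function decreases rapidly: the density.
-/

set_option autoImplicit false

open MeasureTheory Filter Topology
open scoped ComplexConjugate FourierTransform SchwartzMap ContDiff

namespace Run7.h401.SD

variable {V : Type} [NormedAddCommGroup V] [InnerProductSpace ℝ V] [FiniteDimensional ℝ V] [MeasurableSpace V]
  [BorelSpace V]

/-- the rescaled characteristic function -/
noncomputable def Psi (ν : Measure V) (ξ : V) : ℂ := charFun ν ((2 * Real.pi) • ξ)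

omit [FiniteDimensional ℝ V] [BorelSpace V] in
lemma Psi_eq (ν : Measure V) : Psi ν = VectorFourier.fourierIntegral 𝐞 ν (-innerₗ V) (fun _ => (1:ℂ)) := by
  ext ξ
  unfold Psi VectorFourier.fourierIntegral
  rw [charFun_apply]
  refine integral_congr_ae (Eventually.of_forall fun x => ?_)
  simp only [LinearMap.neg_apply, neg_neg, innerₗ_apply_apply, Circle.smul_def, Real.fourierChar_apply, smul_eq_mul,
    mul_one, inner_smul_right]

lemma Psi_smooth (ν : Measure V) [IsProbabilityMeasure ν] (hmom : ∀ n : ℕ, Integrable (fun x => ‖x‖ ^ n) ν) :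
    ContDiff ℝ ∞ (Psi ν) ∧ ∀ n : ℕ, ∃ B : ℝ, ∀ x, ‖iteratedFDeriv ℝ n (Psi ν) x‖ ≤ B := by
  have hm : ∀ n : ℕ, (n : ℕ∞) ≤ (⊤ : ℕ∞) → Integrable (fun v : V => ‖v‖ ^ n * ‖(fun _ => (1:ℂ)) v‖) ν := by
    intro n _
    simpa using hmom n
  have hL : (-innerₗ V) = (-(innerSL ℝ : V →L[ℝ] V →L[ℝ] ℝ)).toLinearMap₁₂ := by
    ext x y
    simp
  constructor
  · rw [Psi_eq, hL]
    exact VectorFourier.contDiff_fourierIntegral (-(innerSL ℝ : V →L[ℝ] V →L[ℝ] ℝ)) hm
  · intro n
    rw [Psi_eq, hL]
    rw [VectorFourier.iteratedFDeriv_fourierIntegral (-(innerSL ℝ : V →L[ℝ] V →L[ℝ] ℝ)) hm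
      aestronglyMeasurable_const (n := n) le_top]
    refine ⟨_, fun x => VectorFourier.norm_fourierIntegral_le_integral_norm _ _ _ _ _⟩

lemma Psi_int (ν : Measure V) [IsProbabilityMeasure ν] (hi : Integrable (Psi ν)) {g : V → ℂ} (hgc : Continuous g)
    (hg : Integrable g) (hg' : Integrable (𝓕 g)) : ∫ x, g x ∂ν = ∫ x, g x * (𝓕 (Psi ν)) x := by
  have hcont : Continuous fun p : V × V => (-innerₗ V) p.1 p.2 := by
    simp only [LinearMap.neg_apply, innerₗ_apply_apply]
    fun_prop
  have hcont' : Continuous fun p : V × V => (innerₗ V) p.1 p.2 := by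
    simp only [innerₗ_apply_apply]
    fun_prop
  have hflip : (-innerₗ V).flip = -innerₗ V := by
    ext x y
    simp [real_inner_comm]
  -- the first step
  have h1 : ∫ x, g x * (𝓕 (Psi ν)) x = ∫ ξ, (𝓕 g) ξ * Psi ν ξ := by
    have h2 := VectorFourier.integral_fourierIntegral_smul_eq_flip (e := 𝐞) (μ := (volume : Measure V))
      (ν := (volume : Measure V)) (L := innerₗ V) Real.continuous_fourierChar hcont' hg hi
    rw [flip_innerₗ] at h2
    exact h2.symm
  -- the second step
  have h3 := VectorFourier.integral_fourierIntegral_smul_eq_flip (e := 𝐞) (μ := (volume : Measure V))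
      (ν := ν) (L := -innerₗ V) (f := 𝓕 g) (g := fun _ => (1:ℂ)) Real.continuous_fourierChar hcont hg'
      (integrable_const _)
  rw [hflip, ← Psi_eq] at h3
  rw [h1]
  have h4 : ∀ ξ, VectorFourier.fourierIntegral 𝐞 volume (-innerₗ V) (𝓕 g) ξ = g ξ := by
    intro ξ
    have h5 := congrFun (hgc.fourierInv_fourier_eq hg hg') ξ
    exact h5
  simp only [h4, smul_eq_mul, mul_one] at h3
  exact h3

/-- continuous functions with nonnegative integrals against bumps are nonnegative -/
lemma nonneg_of_bump {G : V → ℝ} (hG : Continuous G)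
    (h : ∀ g : V → ℝ, ContDiff ℝ ∞ g → HasCompactSupport g → (∀ x, 0 ≤ g x) → 0 ≤ ∫ x, g x * G x) (x : V) : 0 ≤ G x := by
  by_contra hx
  push Not at hx
  have h1 : ∀ᶠ y in 𝓝 x, G y < 0 := hG.continuousAt.eventually (gt_mem_nhds hx)
  obtain ⟨r, hr, hball⟩ := Metric.eventually_nhds_iff_ball.1 h1
  let f : ContDiffBump x := ⟨r / 2, r, by linarith, by linarith⟩
  have h2 := h f f.contDiff f.hasCompactSupport fun y => f.nonneg
  have h3 : 0 < ∫ y, f y * (-G y) := by
    have hz : f x * (-G x) ≠ 0 := by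
      have : f x = 1 := f.one_of_mem_closedBall (by simp [f.rIn_pos.le])
      rw [this, one_mul]
      linarith
    refine Continuous.integral_pos_of_hasCompactSupport_nonneg_nonzero (x := x) ?_ ?_ ?_ hz
    · exact f.continuous.mul hG.neg
    · exact f.hasCompactSupport.mul_right
    · intro y
      by_cases hy : y ∈ Metric.ball x r
      · exact mul_nonneg f.nonneg (by linarith [hball y hy])
      · have : f y = 0 := f.zero_of_le_dist (by rw [Metric.mem_ball, not_lt] at hy; exact hy)
        simp [this]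
  have h4 : ∫ y, f y * (-G y) = -∫ y, f y * G y := by
    rw [← integral_neg]
    refine integral_congr_ae (Eventually.of_forall fun y => ?_)
    ring
  rw [h4] at h3
  linarith

/-- **the smooth density** -/
theorem density (ν : Measure V) [IsProbabilityMeasure ν] (hmom : ∀ n : ℕ, Integrable (fun x => ‖x‖ ^ n) ν)
    (hdec : ∀ N : ℕ, ∃ C : ℝ, ∀ ξ : V, ‖ξ‖ ^ N * ‖charFun ν ξ‖ ≤ C) :
    ∃ f : V → ℝ, ContDiff ℝ ∞ f ∧ (∀ k n : ℕ, ∃ C : ℝ, ∀ x, ‖x‖ ^ k * ‖iteratedFDeriv ℝ n f x‖ ≤ C) ∧ (∀ x, 0 ≤ f x) ∧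
      Integrable f ∧ ∫ x, f x = 1 ∧ ν = (volume : Measure V).withDensity (fun x => ENNReal.ofReal (f x)) := by
  obtain ⟨hsm, hbd⟩ := Psi_smooth ν hmom
  have h2pi : 0 < 2 * Real.pi := by positivity
  -- decay of `Psi`
  have hdec' : ∀ N : ℕ, ∃ C : ℝ, ∀ ξ : V, ‖ξ‖ ^ N * ‖Psi ν ξ‖ ≤ C := by
    intro N
    obtain ⟨C, hC⟩ := hdec N
    refine ⟨C / (2 * Real.pi) ^ N, fun ξ => ?_⟩
    have h1 := hC ((2 * Real.pi) • ξ)
    rw [norm_smul, Real.norm_of_nonneg h2pi.le, mul_pow] at h1
    rw [le_div_iff₀ (by positivity)]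
    unfold Psi
    linarith
  set P : 𝓢(V, ℂ) := ⟨Psi ν, hsm, fun k n => interp n hsm hbd hdec' k⟩ with hP
  have hPi : Integrable (Psi ν) := P.integrable
  set F : 𝓢(V, ℂ) := 𝓕 P with hF
  have hFP : (F : V → ℂ) = 𝓕 (Psi ν) := rfl
  have hFi : Integrable (F : V → ℂ) := F.integrable
  -- test functions
  have htest : ∀ g : V → ℝ, ContDiff ℝ ∞ g → HasCompactSupport g →
      ((∫ x, g x ∂ν : ℝ) : ℂ) = ∫ x, (g x : ℂ) * F x := by
    intro g hg hgc
    have h1 : HasCompactSupport fun x => (g x : ℂ) := hgc.comp_left (g := fun r : ℝ => (r : ℂ)) (by simp)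
    have h2 : ContDiff ℝ ∞ fun x => (g x : ℂ) := Complex.ofRealCLM.contDiff.comp hg
    set G : 𝓢(V, ℂ) := h1.toSchwartzMap h2 with hG
    have hGc : (G : V → ℂ) = fun x => (g x : ℂ) := rfl
    have h3 := Psi_int ν hPi (g := fun x => (g x : ℂ)) h2.continuous (by rw [← hGc]; exact G.integrable)
      (by rw [← hGc]; exact (𝓕 G).integrable)
    rw [← integral_complex_ofReal, h3, hFP]
  have hint : ∀ g : V → ℝ, ContDiff ℝ ∞ g → HasCompactSupport g → Integrable (fun x => (g x : ℂ) * F x) := by
    intro g hg hgc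
    have h1 : HasCompactSupport fun x => (g x : ℂ) := hgc.comp_left (g := fun r : ℝ => (r : ℂ)) (by simp)
    have h2 : Continuous fun x => (g x : ℂ) := Complex.continuous_ofReal.comp hg.continuous
    exact (h2.mul F.continuous).integrable_of_hasCompactSupport h1.mul_right
  have hre : ∀ g : V → ℝ, ContDiff ℝ ∞ g → HasCompactSupport g → ∫ x, g x * (F x).re = ∫ x, g x ∂ν := by
    intro g hg hgc
    have h1 := congrArg Complex.re (htest g hg hgc)
    rw [Complex.ofReal_re] at h1
    rw [h1]
    have h2 := integral_re (hint g hg hgc)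
    simp only [RCLike.re_to_complex] at h2
    rw [← h2]
    refine integral_congr_ae (Eventually.of_forall fun x => ?_)
    simp
  have him : ∀ g : V → ℝ, ContDiff ℝ ∞ g → HasCompactSupport g → ∫ x, g x * (F x).im = 0 := by
    intro g hg hgc
    have h1 := congrArg Complex.im (htest g hg hgc)
    rw [Complex.ofReal_im] at h1
    have h2 := integral_im (hint g hg hgc)
    simp only [RCLike.im_to_complex] at h2
    rw [h1, ← h2]
    refine integral_congr_ae (Eventually.of_forall fun x => ?_)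
    simp
  have hpos : ∀ x, 0 ≤ (F x).re := by
    refine nonneg_of_bump (Complex.continuous_re.comp F.continuous) fun g hg hgc hg0 => ?_
    have := hre g hg hgc
    show 0 ≤ ∫ x, g x * (F x).re
    rw [this]
    exact integral_nonneg hg0
  have himz : ∀ x, (F x).im = 0 := by
    intro x
    apply le_antisymm
    · have h1 := nonneg_of_bump (G := fun x => -(F x).im) (Complex.continuous_im.comp F.continuous).neg
        (fun g hg hgc hg0 => ?_) x
      · linarith
      · simp only [mul_neg, integral_neg]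
        rw [him g hg hgc, neg_zero]
    · exact nonneg_of_bump (G := fun x => (F x).im) (Complex.continuous_im.comp F.continuous)
        (fun g hg hgc hg0 => by rw [him g hg hgc]) x
  have hFr : ∀ x, F x = ((F x).re : ℂ) := fun x => Complex.ext rfl (by simp [himz x])
  set f : V → ℝ := fun x => (F x).re with hf
  have hfi : Integrable f := hFi.re
  have hfc : ContDiff ℝ ∞ f := Complex.reCLM.contDiff.comp (F.smooth ⊤)
  have hinv : ∀ t : V, ∫ x, Complex.exp ((inner ℝ x t : ℝ) * Complex.I) * F x = charFun ν t := by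
    intro t
    have h1 : 𝓕⁻ (F : V → ℂ) = Psi ν := by
      rw [hFP]
      exact hsm.continuous.fourierInv_fourier_eq hPi (by rw [← hFP]; exact hFi)
    have h2 := congrFun h1 ((2 * Real.pi)⁻¹ • t)
    rw [Real.fourierInv_eq'] at h2
    unfold Psi at h2
    rw [smul_smul, mul_inv_cancel₀ h2pi.ne', one_smul] at h2
    rw [← h2]
    refine integral_congr_ae (Eventually.of_forall fun x => ?_)
    simp only [smul_eq_mul, inner_smul_right]
    congr 4
    rw [← mul_assoc, mul_inv_cancel₀ h2pi.ne', one_mul]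
  set ν' : Measure V := (volume : Measure V).withDensity (fun x => ENNReal.ofReal (f x)) with hν'
  have hfin : IsFiniteMeasure ν' := isFiniteMeasure_withDensity_ofReal hfi.2
  have hνν : ν = ν' := by
    apply Measure.ext_of_charFun
    ext t
    rw [← hinv t, charFun_apply, hν', integral_withDensity_eq_integral_toReal_smul
      (hfc.continuous.measurable.ennreal_ofReal) (Eventually.of_forall fun x => ENNReal.ofReal_lt_top)]
    refine integral_congr_ae (Eventually.of_forall fun x => ?_)
    simp only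
    rw [ENNReal.toReal_ofReal (hpos x), hFr x, Complex.real_smul, mul_comm]
    simp
  have hone : ∫ x, f x = 1 := by
    have h1 : ν' Set.univ = 1 := by rw [← hνν]; exact measure_univ
    rw [hν', withDensity_apply _ MeasurableSet.univ, Measure.restrict_univ,
      ← ofReal_integral_eq_lintegral_ofReal hfi (Eventually.of_forall hpos)] at h1
    have h2 := congrArg ENNReal.toReal h1
    rwa [ENNReal.toReal_ofReal (integral_nonneg hpos), ENNReal.toReal_one] at h2
  refine ⟨f, hfc, fun k n => ?_, hpos, hfi, hone, hνν⟩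
  obtain ⟨C, hC⟩ := F.decay' k n
  refine ⟨‖Complex.reCLM‖ * C, fun x => ?_⟩
  have h1 := Complex.reCLM.norm_iteratedFDeriv_comp_left (f := (F : V → ℂ)) (x := x) (N := ∞) (n := n)
    (F.smooth ⊤).contDiffAt (by exact_mod_cast le_top)
  calc ‖x‖ ^ k * ‖iteratedFDeriv ℝ n f x‖ ≤ ‖x‖ ^ k * (‖Complex.reCLM‖ * ‖iteratedFDeriv ℝ n (F : V → ℂ) x‖) := by
        gcongr
        exact h1
    _ = ‖Complex.reCLM‖ * (‖x‖ ^ k * ‖iteratedFDeriv ℝ n (F : V → ℂ) x‖) := by ring
    _ ≤ ‖Complex.reCLM‖ * C := by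
        gcongr
        exact hC x

end Run7.h401.SD
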