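import Mathlib

/-!
Oscillatory integrals over a period.
-/

set_option autoImplicit false

open MeasureTheory Filter Topology
open scoped ComplexConjugate

namespace Run7.h401.SD

/-- the basic estimate -/
theorem osc_basic {g g1 g2 : ℝ → ℝ} (h1 : ∀ x, HasDerivAt g (g1 x) x) (h2 : ∀ x, HasDerivAt g1 (g2 x) x)
    (hc : Continuous g2) (hp0 : g 1 = g 0) (hp1 : g1 1 = g1 0) {M : ℝ} (hM : ∀ x ∈ Set.Icc (0:ℝ) 1, |g2 x| ≤ M)
    {l ε : ℝ} (hl : 0 < l) (hε : 0 < ε) :
    ‖∫ x in (0:ℝ)..1, Complex.exp ((l * g x : ℝ) * Complex.I)‖ ≤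
      (∫ x in (0:ℝ)..1, ε ^ 2 / (g1 x ^ 2 + ε ^ 2)) + M / (l * ε ^ 2) := by
  have hM0 : 0 ≤ M := (abs_nonneg _).trans (hM 0 (by simp))
  have hgc : Continuous g := continuous_iff_continuousAt.2 fun x => (h1 x).continuousAt
  have hg1c : Continuous g1 := continuous_iff_continuousAt.2 fun x => (h2 x).continuousAt
  have hpos : ∀ x, 0 < g1 x ^ 2 + ε ^ 2 := fun x => by positivity
  -- the auxiliary function
  set h : ℝ → ℝ := fun x => g1 x / (g1 x ^ 2 + ε ^ 2) with hh
  set h' : ℝ → ℝ := fun x => g2 x * (ε ^ 2 - g1 x ^ 2) / (g1 x ^ 2 + ε ^ 2) ^ 2 with hh'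
  have hder : ∀ x, HasDerivAt h (h' x) x := by
    intro x
    have d1 : HasDerivAt (fun y => g1 y ^ 2 + ε ^ 2) (2 * g1 x * g2 x) x := by
      have := ((h2 x).pow 2).add_const (ε ^ 2)
      refine this.congr_deriv ?_
      ring
    refine ((h2 x).div d1 (hpos x).ne').congr_deriv ?_
    rw [hh']
    congr 1
    ring
  have hh'c : Continuous h' := by
    rw [hh']
    exact (hc.mul (continuous_const.sub (hg1c.pow 2))).div (((hg1c.pow 2).add continuous_const).pow 2)
      fun x => pow_ne_zero _ (hpos x).ne'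
  have hh'b : ∀ x ∈ Set.Icc (0:ℝ) 1, |h' x| ≤ M / ε ^ 2 := by
    intro x hx
    rw [hh']
    simp only [abs_div, abs_mul, abs_pow]
    rw [abs_of_pos (hpos x)]
    have e1 : |ε ^ 2 - g1 x ^ 2| ≤ g1 x ^ 2 + ε ^ 2 := by
      rw [abs_le]
      constructor <;> nlinarith [sq_nonneg (g1 x), sq_nonneg ε]
    rw [div_le_div_iff₀ (pow_pos (hpos x) 2) (by positivity)]
    have e2 := hM x hx
    have e3 : ε ^ 2 ≤ g1 x ^ 2 + ε ^ 2 := by nlinarith [sq_nonneg (g1 x)]
    calc |g2 x| * |ε ^ 2 - g1 x ^ 2| * ε ^ 2 ≤ M * (g1 x ^ 2 + ε ^ 2) * (g1 x ^ 2 + ε ^ 2) := by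
          gcongr
      _ = M * (g1 x ^ 2 + ε ^ 2) ^ 2 := by ring
  set E : ℝ → ℂ := fun x => Complex.exp ((l * g x : ℝ) * Complex.I) with hE
  have hEc : Continuous E := by
    rw [hE]
    fun_prop
  have hEn : ∀ x, ‖E x‖ = 1 := fun x => Complex.norm_exp_ofReal_mul_I _
  have hEd : ∀ x, HasDerivAt E (E x * ((l * g1 x : ℝ) * Complex.I)) x := by
    intro x
    have d1 : HasDerivAt (fun y => ((l * g y : ℝ) : ℂ) * Complex.I) (((l * g1 x : ℝ) : ℂ) * Complex.I) x :=
      ((h1 x).const_mul l).ofReal_comp.mul_const Complex.I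
    exact d1.cexp
  -- the primitive
  set F : ℝ → ℂ := fun x => E x * (h x : ℂ) with hF
  have hFd : ∀ x, HasDerivAt F (E x * ((l * g1 x : ℝ) * Complex.I) * (h x : ℂ) + E x * (h' x : ℂ)) x := fun x =>
    (hEd x).mul (hder x).ofReal_comp
  have hhc : Continuous h := continuous_iff_continuousAt.2 fun x => (hder x).continuousAt
  have hint1 : Continuous fun x => E x * ((l * g1 x : ℝ) * Complex.I) * (h x : ℂ) :=
    (hEc.mul ((Complex.continuous_ofReal.comp (continuous_const.mul hg1c)).mul continuous_const)).mul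
      (Complex.continuous_ofReal.comp hhc)
  have hint2 : Continuous fun x => E x * (h' x : ℂ) := hEc.mul (Complex.continuous_ofReal.comp hh'c)
  have hzero : ∫ x in (0:ℝ)..1, (E x * ((l * g1 x : ℝ) * Complex.I) * (h x : ℂ) + E x * (h' x : ℂ)) = 0 := by
    rw [intervalIntegral.integral_eq_sub_of_hasDerivAt (fun x _ => hFd x)
      ((hint1.add hint2).intervalIntegrable _ _)]
    rw [hF, hE, hh]
    simp only [hp0, hp1, sub_self]
  rw [intervalIntegral.integral_add (hint1.intervalIntegrable _ _) (hint2.intervalIntegrable _ _)] at hzero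
  -- the decomposition
  have hdec : ∀ x, E x = E x * ((ε ^ 2 / (g1 x ^ 2 + ε ^ 2) : ℝ) : ℂ) +
      (1 / (l * Complex.I)) * (E x * ((l * g1 x : ℝ) * Complex.I) * (h x : ℂ)) := by
    intro x
    have hne : ((g1 x ^ 2 + ε ^ 2 : ℝ) : ℂ) ≠ 0 := by exact_mod_cast (hpos x).ne'
    have hl' : (l : ℂ) ≠ 0 := by exact_mod_cast hl.ne'
    rw [hh]
    push_cast at hne ⊢
    field_simp
    ring
  have hint0 : Continuous fun x => E x * ((ε ^ 2 / (g1 x ^ 2 + ε ^ 2) : ℝ) : ℂ) :=
    hEc.mul (Complex.continuous_ofReal.comp (continuous_const.div ((hg1c.pow 2).add continuous_const)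
      fun x => (hpos x).ne'))
  have hmain : ∫ x in (0:ℝ)..1, E x = (∫ x in (0:ℝ)..1, E x * ((ε ^ 2 / (g1 x ^ 2 + ε ^ 2) : ℝ) : ℂ)) -
      (1 / (l * Complex.I)) * ∫ x in (0:ℝ)..1, E x * (h' x : ℂ) := by
    have e1 : ∫ x in (0:ℝ)..1, E x = ∫ x in (0:ℝ)..1, (E x * ((ε ^ 2 / (g1 x ^ 2 + ε ^ 2) : ℝ) : ℂ) +
      (1 / (l * Complex.I)) * (E x * ((l * g1 x : ℝ) * Complex.I) * (h x : ℂ))) :=
      intervalIntegral.integral_congr fun x _ => hdec x
    have hint3 : Continuous fun x => (1 / (l * Complex.I)) * (E x * ((l * g1 x : ℝ) * Complex.I) * (h x : ℂ)) :=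
      continuous_const.mul hint1
    rw [e1, intervalIntegral.integral_add (hint0.intervalIntegrable _ _)
      (hint3.intervalIntegrable _ _), intervalIntegral.integral_const_mul]
    have e2 : ∫ x in (0:ℝ)..1, E x * ((l * g1 x : ℝ) * Complex.I) * (h x : ℂ) =
        -∫ x in (0:ℝ)..1, E x * (h' x : ℂ) := by linear_combination hzero
    rw [e2]
    ring
  change ‖∫ x in (0:ℝ)..1, E x‖ ≤ _
  rw [hmain]
  refine (norm_sub_le _ _).trans (add_le_add ?_ ?_)
  · refine (intervalIntegral.norm_integral_le_integral_norm zero_le_one).trans (le_of_eq ?_)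
    apply intervalIntegral.integral_congr
    intro x _
    simp only [norm_mul, hEn, one_mul, Complex.norm_real]
    rw [Real.norm_of_nonneg (by have := hpos x; positivity)]
  · rw [norm_mul, norm_div, norm_one, norm_mul, Complex.norm_I, mul_one, Complex.norm_real, Real.norm_of_nonneg hl.le]
    have e1 : ‖∫ x in (0:ℝ)..1, E x * (h' x : ℂ)‖ ≤ M / ε ^ 2 * |1 - 0| := by
      apply intervalIntegral.norm_integral_le_of_norm_le_const
      intro x hx
      rw [Set.uIoc_of_le zero_le_one] at hx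
      rw [norm_mul, hEn, one_mul, Complex.norm_real]
      exact hh'b x ⟨hx.1.le, hx.2⟩
    rw [sub_zero, abs_one, mul_one] at e1
    calc 1 / l * ‖∫ x in (0:ℝ)..1, E x * (h' x : ℂ)‖ ≤ 1 / l * (M / ε ^ 2) := by gcongr
      _ = M / (l * ε ^ 2) := by field_simp

/-- the first term -/
theorem first_term {g1 : ℝ → ℝ} (hg : Continuous g1) {ε : ℝ} (hε : 0 < ε) :
    (∫ x in (0:ℝ)..1, ε ^ 2 / (g1 x ^ 2 + ε ^ 2)) ≤
      (volume {x ∈ Set.Icc (0:ℝ) 1 | |g1 x| ≤ Real.sqrt ε}).toReal + ε := by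
  have hpos : ∀ x, 0 < g1 x ^ 2 + ε ^ 2 := fun x => by positivity
  set S : Set ℝ := {x | |g1 x| ≤ Real.sqrt ε} with hS
  have hSm : MeasurableSet S := (isClosed_le hg.abs continuous_const).measurableSet
  have e0 : {x ∈ Set.Icc (0:ℝ) 1 | |g1 x| ≤ Real.sqrt ε} = S ∩ Set.Icc 0 1 := by
    ext x
    simp [hS, and_comm]
  rw [intervalIntegral.integral_of_le zero_le_one, ← integral_Icc_eq_integral_Ioc, e0]
  have hcont : Continuous fun x => ε ^ 2 / (g1 x ^ 2 + ε ^ 2) :=
    continuous_const.div ((hg.pow 2).add continuous_const) fun x => (hpos x).ne'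
  have hle : ∫ x in Set.Icc (0:ℝ) 1, ε ^ 2 / (g1 x ^ 2 + ε ^ 2) ≤
      ∫ x in Set.Icc (0:ℝ) 1, (S.indicator (1 : ℝ → ℝ) x + ε) := by
    apply integral_mono_of_nonneg
    · exact Eventually.of_forall fun x => by have := hpos x; positivity
    · apply Integrable.add
      · exact (integrable_const (1:ℝ)).indicator hSm
      · exact integrable_const _
    · refine Eventually.of_forall fun x => ?_
      by_cases hx : x ∈ S
      · simp only [Set.indicator_of_mem hx, Pi.one_apply]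
        have : ε ^ 2 / (g1 x ^ 2 + ε ^ 2) ≤ 1 := by
          rw [div_le_one (hpos x)]
          nlinarith [sq_nonneg (g1 x)]
        linarith
      · simp only [Set.indicator_of_notMem hx, zero_add]
        rw [hS, Set.mem_ofPred_eq, not_le] at hx
        have h2 : ε < g1 x ^ 2 := by
          have h3 := Real.sq_sqrt hε.le
          have h4 := Real.sqrt_nonneg ε
          have h5 := sq_abs (g1 x)
          nlinarith
        rw [div_le_iff₀ (hpos x)]
        nlinarith [pow_pos hε 3]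
  refine hle.trans ?_
  have hi1 : Integrable (S.indicator (1 : ℝ → ℝ)) (volume.restrict (Set.Icc (0:ℝ) 1)) :=
    (integrable_const (1:ℝ)).indicator hSm
  rw [integral_add hi1 (integrable_const _), integral_indicator_one hSm]
  apply add_le_add
  · rw [measureReal_def, Measure.restrict_apply hSm]
  · simp

/-- **decay of the characteristic function of a curve** -/
theorem osc_decay {X X1 X2 : ℝ → ℂ} (h1 : ∀ x, HasDerivAt X (X1 x) x) (h2 : ∀ x, HasDerivAt X1 (X2 x) x)
    (hc : Continuous X2) (hp0 : X 1 = X 0) (hp1 : X1 1 = X1 0) {A b : ℝ} (hA : 0 ≤ A) (hb1 : b ≤ 1)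
    (hsub : ∀ u : ℂ, ‖u‖ = 1 → ∀ τ : ℝ, 0 < τ → τ ≤ 1 →
      volume {x ∈ Set.Icc (0:ℝ) 1 | |(X1 x * conj u).re| ≤ τ} ≤ ENNReal.ofReal (A * τ ^ b)) :
    ∃ C : ℝ, 0 < C ∧ ∀ ξ : ℂ, 1 ≤ ‖ξ‖ →
      ‖∫ x in Set.Icc (0:ℝ) 1, Complex.exp ((inner ℝ (X x) ξ : ℝ) * Complex.I)‖ ≤ C * ‖ξ‖ ^ (-(b / 8)) := by
  have hX1c : Continuous X1 := continuous_iff_continuousAt.2 fun x => (h2 x).continuousAt
  obtain ⟨M, hM⟩ := (isCompact_Icc (a := (0:ℝ)) (b := 1)).exists_bound_of_continuousOn hc.continuousOn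
  have hM0 : 0 ≤ M := (norm_nonneg _).trans (hM 0 (by simp))
  refine ⟨A + 1 + M, by linarith, fun ξ hξ => ?_⟩
  set l : ℝ := ‖ξ‖ with hl
  have hl0 : 0 < l := by linarith
  set u : ℂ := ξ / l with hu
  have hlc : (l : ℂ) ≠ 0 := by exact_mod_cast hl0.ne'
  have hun : ‖u‖ = 1 := by
    rw [hu, norm_div, Complex.norm_real, Real.norm_of_nonneg hl0.le, ← hl, div_self hl0.ne']
  have hξu : ξ = l * u := by rw [hu]; field_simp
  -- the phase
  have hin : ∀ z : ℂ, (inner ℝ z ξ : ℝ) = l * (z * conj u).re := by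
    intro z
    rw [Complex.inner]
    rw [hξu]
    simp only [Complex.mul_re, Complex.mul_im, Complex.ofReal_re, Complex.ofReal_im, Complex.conj_re, Complex.conj_im]
    ring
  have hd : ∀ {Z Z1 : ℝ → ℂ} (x : ℝ), HasDerivAt Z (Z1 x) x →
      HasDerivAt (fun y => (Z y * conj u).re) ((Z1 x * conj u).re) x := by
    intro Z Z1 x h
    have d1 : HasDerivAt (fun y => Z y * conj u) (Z1 x * conj u) x := h.mul_const _
    exact (Complex.reCLM.hasFDerivAt.comp_hasDerivAt x d1)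
  have hg2c : Continuous fun x => (X2 x * conj u).re := Complex.continuous_re.comp (hc.mul continuous_const)
  have hg1c : Continuous fun x => (X1 x * conj u).re := Complex.continuous_re.comp (hX1c.mul continuous_const)
  have hb2 : ∀ x ∈ Set.Icc (0:ℝ) 1, |(X2 x * conj u).re| ≤ M := by
    intro x hx
    refine (Complex.abs_re_le_norm _).trans ?_
    rw [norm_mul, RCLike.norm_conj, hun, mul_one]
    exact hM x hx
  set ε : ℝ := l ^ (-(1 / 4) : ℝ) with hε
  have hε0 : 0 < ε := by positivity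
  have hε1 : ε ≤ 1 := Real.rpow_le_one_of_one_le_of_nonpos hξ (by norm_num)
  have key := osc_basic (g := fun x => (X x * conj u).re) (g1 := fun x => (X1 x * conj u).re)
    (g2 := fun x => (X2 x * conj u).re) (fun x => hd x (h1 x)) (fun x => hd x (h2 x)) hg2c
    (by simp only [hp0]) (by simp only [hp1]) hb2 hl0 hε0
  have key2 := first_term hg1c hε0
  have key3 := hsub u hun (Real.sqrt ε) (Real.sqrt_pos.2 hε0) (Real.sqrt_le_one.2 hε1)
  have key4 := ENNReal.toReal_le_of_le_ofReal (by positivity) key3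
  have e1 : ∫ x in Set.Icc (0:ℝ) 1, Complex.exp ((inner ℝ (X x) ξ : ℝ) * Complex.I) =
      ∫ x in (0:ℝ)..1, Complex.exp ((l * (X x * conj u).re : ℝ) * Complex.I) := by
    rw [intervalIntegral.integral_of_le zero_le_one, ← integral_Icc_eq_integral_Ioc]
    refine integral_congr_ae (Eventually.of_forall fun x => ?_)
    simp only [hin]
  rw [e1]
  have hpl : 0 < l ^ (-(b / 8)) := by positivity
  -- the three terms
  have t1 : Real.sqrt ε ^ b = l ^ (-(b / 8)) := by
    rw [hε, Real.sqrt_eq_rpow, ← Real.rpow_mul hl0.le, ← Real.rpow_mul hl0.le]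
    congr 1
    ring
  have t2 : ε ≤ l ^ (-(b / 8)) := by
    rw [hε]
    exact Real.rpow_le_rpow_of_exponent_le hξ (by linarith)
  have t3 : M / (l * ε ^ 2) ≤ M * l ^ (-(b / 8)) := by
    have h4 : l * ε ^ 2 = l ^ (1 / 2 : ℝ) := by
      rw [hε, ← Real.rpow_natCast, ← Real.rpow_mul hl0.le]
      nth_rewrite 1 [← Real.rpow_one l]
      rw [← Real.rpow_add hl0]
      norm_num
    rw [h4, div_eq_mul_inv, ← Real.rpow_neg hl0.le]
    exact mul_le_mul_of_nonneg_left (Real.rpow_le_rpow_of_exponent_le hξ (by linarith)) hM0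
  rw [t1] at key4
  calc _ ≤ _ := key
    _ ≤ (A * l ^ (-(b / 8)) + l ^ (-(b / 8))) + M * l ^ (-(b / 8)) := by linarith
    _ = (A + 1 + M) * l ^ (-(b / 8)) := by ring

end Run7.h401.SD
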