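import Mathlib

/-!
Sublevel sets of polynomials on the unit circle.
-/

set_option autoImplicit false

open MeasureTheory Filter Topology Polynomial
open scoped ComplexConjugate

namespace Run7.h401.SD

/-- the point of the circle -/
noncomputable def e (x : ℝ) : ℂ := Complex.exp ((2 * Real.pi * x : ℝ) * Complex.I)

lemma e_norm (x : ℝ) : ‖e x‖ = 1 := Complex.norm_exp_ofReal_mul_I _

lemma e_ne (x : ℝ) : e x ≠ 0 := Complex.exp_ne_zero _

lemma e_zero : e 0 = 1 := by simp [e]

lemma e_one : e 1 = 1 := by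
  unfold e
  rw [mul_one]
  push_cast
  exact Complex.exp_two_pi_mul_I

lemma e_cont : Continuous e := by
  unfold e
  fun_prop

lemma e_dist (x y : ℝ) : ‖e x - e y‖ = 2 * |Real.sin (Real.pi * (x - y))| := by
  have h1 : e x - e y = Complex.exp ((Real.pi * (x + y) : ℝ) * Complex.I) *
      (2 * Complex.I * (Real.sin (Real.pi * (x - y)) : ℝ)) := by
    unfold e
    have h2 : (2 * Complex.I * ((Real.sin (Real.pi * (x - y)) : ℝ) : ℂ)) =
        Complex.exp ((Real.pi * (x - y) : ℝ) * Complex.I) - Complex.exp (-((Real.pi * (x - y) : ℝ) * Complex.I)) := by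
      rw [Complex.ofReal_sin, Complex.sin, neg_mul]
      have := Complex.I_sq
      linear_combination (Complex.exp (-((Real.pi * (x - y) : ℝ) * Complex.I)) -
        Complex.exp ((Real.pi * (x - y) : ℝ) * Complex.I)) * this
    rw [h2, mul_sub, ← Complex.exp_add, ← Complex.exp_add]
    congr 2
    · push_cast; ring
    · push_cast; ring
  rw [h1, norm_mul, Complex.norm_exp_ofReal_mul_I, one_mul, norm_mul, norm_mul, Complex.norm_I, Complex.norm_real,
    Real.norm_eq_abs]
  simp

/-- near points of the circle have near parameters -/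
lemma near {x y η : ℝ} (hx : x ∈ Set.Icc (0:ℝ) 1) (hy : y ∈ Set.Icc (0:ℝ) 1) (h : ‖e x - e y‖ ≤ 2 * η) :
    |x - y| ≤ η / 2 ∨ |x - (y + 1)| ≤ η / 2 ∨ |x - (y - 1)| ≤ η / 2 := by
  rw [e_dist] at h
  have hpi := Real.pi_pos
  have hd : |x - y| ≤ 1 := by rw [abs_le]; constructor <;> linarith [hx.1, hx.2, hy.1, hy.2]
  have h1 : |Real.sin (Real.pi * (x - y))| = Real.sin (Real.pi * |x - y|) := by
    rcases abs_cases (x - y) with ⟨h2, h3⟩ | ⟨h2, h3⟩
    · rw [h2] at hd ⊢
      exact abs_of_nonneg (Real.sin_nonneg_of_nonneg_of_le_pi (by positivity) (by nlinarith))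
    · rw [h2] at hd ⊢
      rw [mul_neg, Real.sin_neg]
      refine abs_of_nonpos ?_
      have := Real.sin_nonneg_of_nonneg_of_le_pi (x := Real.pi * (-(x - y))) (by nlinarith) (by nlinarith)
      rw [mul_neg, Real.sin_neg] at this
      linarith
  rw [h1] at h
  rcases le_total |x - y| (1 / 2) with h2 | h2
  · left
    have h3 := Real.mul_le_sin (x := Real.pi * |x - y|) (by positivity) (by nlinarith)
    have h4 : 2 / Real.pi * (Real.pi * |x - y|) = 2 * |x - y| := by field_simp
    rw [h4] at h3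
    linarith
  · right
    have h3 := Real.mul_le_sin (x := Real.pi - Real.pi * |x - y|) (by nlinarith) (by nlinarith)
    have h4 : 2 / Real.pi * (Real.pi - Real.pi * |x - y|) = 2 * (1 - |x - y|) := by field_simp
    rw [h4, Real.sin_pi_sub] at h3
    rcases abs_cases (x - y) with ⟨h5, h6⟩ | ⟨h5, h6⟩
    · left
      rw [h5] at h3 hd h
      rw [abs_le]
      constructor <;> linarith
    · right
      rw [h5] at h3 hd h
      rw [abs_le]
      constructor <;> linarith

lemma arc (ζ : ℂ) {η : ℝ} (hη : 0 ≤ η) :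
    volume {x ∈ Set.Icc (0:ℝ) 1 | ‖e x - ζ‖ ≤ η} ≤ ENNReal.ofReal (3 * η) := by
  rcases Set.eq_empty_or_nonempty {x ∈ Set.Icc (0:ℝ) 1 | ‖e x - ζ‖ ≤ η} with h | ⟨y, hy⟩
  · rw [h, measure_empty]
    exact zero_le
  · have h1 : {x ∈ Set.Icc (0:ℝ) 1 | ‖e x - ζ‖ ≤ η} ⊆ Set.Icc (y - η / 2) (y + η / 2) ∪
        (Set.Icc (y + 1 - η / 2) (y + 1 + η / 2) ∪ Set.Icc (y - 1 - η / 2) (y - 1 + η / 2)) := by
      intro x hx
      have h2 : ‖e x - e y‖ ≤ 2 * η := by
        calc ‖e x - e y‖ = ‖(e x - ζ) - (e y - ζ)‖ := by ring_nf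
          _ ≤ ‖e x - ζ‖ + ‖e y - ζ‖ := norm_sub_le _ _
          _ ≤ 2 * η := by linarith [hx.2, hy.2]
      rcases near hx.1 hy.1 h2 with h3 | h3 | h3
      · left
        rw [abs_le] at h3
        exact ⟨by linarith [h3.1], by linarith [h3.2]⟩
      · right; left
        rw [abs_le] at h3
        exact ⟨by linarith [h3.1], by linarith [h3.2]⟩
      · right; right
        rw [abs_le] at h3
        exact ⟨by linarith [h3.1], by linarith [h3.2]⟩
    refine (measure_mono h1).trans ((measure_union_le _ _).trans ?_)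
    refine (add_le_add_right (measure_union_le _ _) _).trans ?_
    rw [Real.volume_Icc, Real.volume_Icc, Real.volume_Icc, ← ENNReal.ofReal_add (by linarith) (by linarith),
      ← ENNReal.ofReal_add (by linarith) (by linarith)]
    apply ENNReal.ofReal_le_ofReal
    linarith

lemma prod_lower {η : ℝ} (hη : 0 < η) (z : ℂ) (s : Multiset ℂ) (hs : ∀ a ∈ s, η < ‖z - a‖) :
    η ^ s.card ≤ (s.map fun a => ‖z - a‖).prod := by
  induction s using Multiset.induction_on with
  | empty => simp
  | cons a s ih =>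
    rw [Multiset.card_cons, Multiset.map_cons, Multiset.prod_cons, pow_succ, mul_comm]
    have h1 := ih fun b hb => hs b (Multiset.mem_cons_of_mem hb)
    have h2 := hs a (Multiset.mem_cons_self a s)
    exact mul_le_mul h2.le h1 (by positivity) (norm_nonneg _)

lemma norm_eval (Q : ℂ[X]) (z : ℂ) : ‖Q.eval z‖ = ‖Q.leadingCoeff‖ * (Q.roots.map fun a => ‖z - a‖).prod := by
  have h1 : Q = C Q.leadingCoeff * (Q.roots.map fun a => X - C a).prod := by
    refine (C_leadingCoeff_mul_prod_multiset_X_sub_C ?_).symm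
    exact (splits_iff_card_roots.1 (IsAlgClosed.splits Q))
  conv_lhs => rw [h1]
  rw [eval_mul, eval_C, norm_mul, eval_multiset_prod, Multiset.map_map]
  congr 1
  have h2 := map_multiset_prod (normHom : ℂ →*₀ ℝ) (Multiset.map (eval z ∘ fun a => X - C a) Q.roots)
  rw [Multiset.map_map] at h2
  refine h2.trans ?_
  congr 1
  refine Multiset.map_congr rfl fun a _ => ?_
  simp

/-- **sublevel sets of polynomials on the circle** -/
theorem sublevel (Q : ℂ[X]) {m : ℕ} (hm : 1 ≤ m) (hd : Q.natDegree = m) {L : ℝ} (hL : 0 < L) (hQ : L ≤ ‖Q.leadingCoeff‖)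
    {δ : ℝ} (hδ : 0 < δ) : volume {x ∈ Set.Icc (0:ℝ) 1 | ‖Q.eval (e x)‖ ≤ δ} ≤
      ENNReal.ofReal (3 * m * (2 * δ / L) ^ (1 / m : ℝ)) := by
  set η : ℝ := (2 * δ / L) ^ (1 / m : ℝ) with hη
  have hη0 : 0 < η := by positivity
  have hηm : η ^ m = 2 * δ / L := by
    rw [hη, ← Real.rpow_natCast, ← Real.rpow_mul (by positivity)]
    have : (m:ℝ) ≠ 0 := by positivity
    rw [one_div_mul_cancel this, Real.rpow_one]
  have hcard : Q.roots.card = m := by
    rw [← hd]
    exact splits_iff_card_roots.1 (IsAlgClosed.splits Q)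
  have h1 : {x ∈ Set.Icc (0:ℝ) 1 | ‖Q.eval (e x)‖ ≤ δ} ⊆
      ⋃ a ∈ Q.roots.toFinset, {x ∈ Set.Icc (0:ℝ) 1 | ‖e x - a‖ ≤ η} := by
    intro x hx
    by_contra h
    simp only [Set.mem_iUnion, Multiset.mem_toFinset, Set.mem_sep_iff, exists_prop, not_exists, not_and, not_le] at h
    have h2 := prod_lower hη0 (e x) Q.roots fun a ha => h a ha hx.1
    rw [hcard, hηm] at h2
    have h3 := hx.2
    rw [norm_eval] at h3
    have h4 : L * (2 * δ / L) ≤ ‖Q.leadingCoeff‖ * (Q.roots.map fun a => ‖e x - a‖).prod :=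
      mul_le_mul hQ h2 (by positivity) (norm_nonneg _)
    have h5 : L * (2 * δ / L) = 2 * δ := by field_simp
    linarith
  refine (measure_mono h1).trans ((measure_biUnion_finset_le _ _).trans ?_)
  calc ∑ a ∈ Q.roots.toFinset, volume {x ∈ Set.Icc (0:ℝ) 1 | ‖e x - a‖ ≤ η}
      ≤ ∑ a ∈ Q.roots.toFinset, ENNReal.ofReal (3 * η) := Finset.sum_le_sum fun a _ => arc a hη0.le
    _ = (Q.roots.toFinset.card : ENNReal) * ENNReal.ofReal (3 * η) := by rw [Finset.sum_const, nsmul_eq_mul]
    _ ≤ (m : ENNReal) * ENNReal.ofReal (3 * η) := by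
      gcongr
      rw [← hcard]
      exact_mod_cast Multiset.toFinset_card_le _
    _ = ENNReal.ofReal (3 * m * η) := by
      rw [show (m : ENNReal) = ENNReal.ofReal m by simp, ← ENNReal.ofReal_mul (by positivity)]
      congr 1
      ring

/-- the conjugate reciprocal polynomial -/
noncomputable def star (D : ℕ) (P : ℂ[X]) : ℂ[X] := reflect D (P.map (starRingEnd ℂ))

lemma star_deg (D : ℕ) {P : ℂ[X]} (h : P.natDegree ≤ D) : (star D P).natDegree ≤ D := by
  unfold star
  refine natDegree_le_iff_coeff_eq_zero.2 fun N hN => ?_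
  rw [coeff_reflect, revAt_eq_self_of_lt hN, coeff_map, coeff_eq_zero_of_natDegree_lt (by omega), map_zero]

lemma star_coeff (D : ℕ) (P : ℂ[X]) : (star D P).coeff D = conj (P.coeff 0) := by
  unfold star
  rw [coeff_reflect, revAt_le le_rfl, Nat.sub_self, coeff_map]

lemma star_eval (D : ℕ) {P : ℂ[X]} (h : P.natDegree ≤ D) {z : ℂ} (hz : ‖z‖ = 1) :
    (star D P).eval z = z ^ D * conj (P.eval z) := by
  have hz0 : z ≠ 0 := by
    intro h0
    rw [h0, norm_zero] at hz
    exact zero_ne_one hz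
  have hzz : z * conj z = 1 := by
    rw [Complex.mul_conj, Complex.normSq_eq_norm_sq, hz]
    simp
  have hc : conj z ≠ 0 := by
    intro h0
    rw [h0, mul_zero] at hzz
    exact zero_ne_one hzz
  let _ : Invertible (conj z) := invertibleOfNonzero hc
  have h1 : (⅟(conj z) : ℂ) = z := by
    rw [invOf_eq_inv]
    exact inv_eq_of_mul_eq_one_left hzz
  have h2 := eval₂_reflect_mul_pow (RingHom.id ℂ) (conj z) D (P.map (starRingEnd ℂ))
    ((natDegree_map_le).trans h)
  rw [h1] at h2
  unfold star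
  have h3 : eval₂ (RingHom.id ℂ) (conj z) (P.map (starRingEnd ℂ)) = conj (P.eval z) := by
    rw [eval₂_id, eval_map, eval₂_at_apply]
  rw [h3] at h2
  change eval z (reflect D (P.map (starRingEnd ℂ))) * (conj z) ^ D = _ at h2
  have h4 : z ^ D * (conj z) ^ D = 1 := by rw [← mul_pow, hzz, one_pow]
  calc eval z (reflect D (P.map (starRingEnd ℂ))) =
      (eval z (reflect D (P.map (starRingEnd ℂ))) * (conj z) ^ D) * z ^ D := by
        rw [mul_assoc, mul_comm ((conj z) ^ D), h4, mul_one]
    _ = z ^ D * conj (P.eval z) := by rw [h2, mul_comm]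

/-- **the polynomial of the derivative in a direction** -/
theorem dirpoly (P : ℂ[X]) {D : ℕ} (hD : P.natDegree = D) (hD1 : 1 ≤ D) (h0 : P.coeff 0 = 1) {c : ℂ} (hc : ‖c‖ = 1) :
    ∃ Q : ℂ[X], Q.natDegree = 2 * D ∧ ‖Q.leadingCoeff‖ = D * ‖P.leadingCoeff‖ ∧
      ∀ z : ℂ, ‖z‖ = 1 → ‖Q.eval z‖ = 2 * |(c * (z * P.derivative.eval z) * conj (P.eval z)).im| := by
  set A : ℂ[X] := X * P.derivative with hA
  have hAd : A.natDegree ≤ D := by
    rw [hA]
    refine (natDegree_mul_le).trans ?_
    have := natDegree_derivative_le P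
    rw [natDegree_X]
    omega
  have hA0 : A.coeff 0 = 0 := by rw [hA]; simp
  have hAD : A.coeff D = D * P.leadingCoeff := by
    rw [hA]
    obtain ⟨k, rfl⟩ : ∃ k, D = k + 1 := ⟨D - 1, by omega⟩
    rw [coeff_X_mul, coeff_derivative, leadingCoeff, hD]
    push_cast
    ring
  set Q : ℂ[X] := C c * (A * star D P) - C (conj c) * (P * star D A) with hQ
  have hcoeff : Q.coeff (D + D) = c * (D * P.leadingCoeff) := by
    rw [hQ, coeff_sub, coeff_C_mul, coeff_C_mul, coeff_mul_add_eq_of_natDegree_le hAd (star_deg D hD.le),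
      coeff_mul_add_eq_of_natDegree_le hD.le (star_deg D hAd), star_coeff, star_coeff, hA0, h0, hAD]
    simp
  have hlc : P.leadingCoeff ≠ 0 := by
    rw [Ne, leadingCoeff_eq_zero]
    rintro rfl
    simp at h0
  have hne : Q.coeff (D + D) ≠ 0 := by
    rw [hcoeff]
    refine mul_ne_zero (fun h => by rw [h, norm_zero] at hc; exact zero_ne_one hc) (mul_ne_zero ?_ hlc)
    have : D ≠ 0 := by omega
    exact_mod_cast this
  have hdeg : Q.natDegree = D + D := by
    apply le_antisymm _ (le_natDegree_of_ne_zero hne)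
    rw [hQ]
    refine (natDegree_sub_le _ _).trans (max_le ?_ ?_)
    · refine (natDegree_C_mul_le _ _).trans ((natDegree_mul_le).trans ?_)
      exact add_le_add hAd (star_deg D hD.le)
    · refine (natDegree_C_mul_le _ _).trans ((natDegree_mul_le).trans ?_)
      exact add_le_add hD.le (star_deg D hAd)
  refine ⟨Q, by rw [hdeg]; ring, ?_, fun z hz => ?_⟩
  · rw [leadingCoeff, hdeg, hcoeff, norm_mul, hc, one_mul, norm_mul, Complex.norm_natCast]
  · have h1 : Q.eval z = z ^ D * ((c * (z * P.derivative.eval z) * conj (P.eval z)) -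
        conj (c * (z * P.derivative.eval z) * conj (P.eval z))) := by
      rw [hQ]
      simp only [eval_sub, eval_mul, eval_C]
      rw [star_eval D hD.le hz, star_eval D hAd hz]
      have h2 : A.eval z = z * P.derivative.eval z := by rw [hA]; simp
      rw [h2]
      simp only [map_mul, Complex.conj_conj]
      ring
    rw [h1, norm_mul, norm_pow, hz, one_pow, one_mul, Complex.sub_conj, norm_mul, Complex.norm_real, Complex.norm_I,
      mul_one, Real.norm_eq_abs, abs_mul, abs_two]

end Run7.h401.SD
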