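import Mathlib
import Pool.Agent.Run7.h401.SD.Sub
import Pool.Agent.Run7.h401.SD.Osc

/-!
Decay of the characteristic function of the logarithm of a polynomial on the circle.
-/

set_option autoImplicit false

open MeasureTheory Filter Topology Polynomial
open scoped ComplexConjugate ContDiff

namespace Run7.h401.SD

lemma e_smooth : ContDiff ℝ ∞ e := by
  unfold e
  have h1 : ContDiff ℝ ∞ fun x : ℝ => ((2 * Real.pi * x : ℝ) : ℂ) * Complex.I :=
    (Complex.ofRealCLM.contDiff.comp (contDiff_const.mul contDiff_id)).mul contDiff_const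
  exact h1.cexp

lemma e_deriv (x : ℝ) : HasDerivAt e (e x * (2 * Real.pi * Complex.I)) x := by
  unfold e
  have d1 : HasDerivAt (fun y : ℝ => ((2 * Real.pi * y : ℝ) : ℂ) * Complex.I) (((2 * Real.pi : ℝ) : ℂ) * Complex.I) x := by
    have := (((hasDerivAt_id x).const_mul (2 * Real.pi)).ofReal_comp).mul_const Complex.I
    simpa using this
  have := d1.cexp
  refine this.congr_deriv ?_
  push_cast
  ring

lemma eval_e_smooth (Q : ℂ[X]) : ContDiff ℝ ∞ fun x => Q.eval (e x) := by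
  have h1 : ContDiff ℂ ∞ fun z : ℂ => Q.eval z := by
    have := Polynomial.contDiff_aeval (𝕜 := ℂ) Q ∞
    simpa using this
  exact (h1.restrict_scalars ℝ).comp e_smooth

lemma eval_e_deriv (Q : ℂ[X]) (x : ℝ) :
    HasDerivAt (fun x => Q.eval (e x)) (Q.derivative.eval (e x) * (e x * (2 * Real.pi * Complex.I))) x :=
  (Q.hasDerivAt (e x)).comp x (e_deriv x)

variable {ι : Type}

/-- the curve -/
noncomputable def Xc (G : Finset ι) (Q : ι → ℂ[X]) (x : ℝ) : ℂ := ∑ v ∈ G, -Complex.log ((Q v).eval (e x))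

lemma slit_of_ball {w : ℂ} (h : ‖w - 1‖ < 1) : w ∈ Complex.slitPlane := by
  refine Or.inl ?_
  have h3 := Complex.abs_re_le_norm (w - 1)
  rw [Complex.sub_re, Complex.one_re, abs_le] at h3
  linarith [h3.1]

lemma Xc_smooth {G : Finset ι} {Q : ι → ℂ[X]} (hb : ∀ v ∈ G, ∀ z : ℂ, ‖z‖ = 1 → ‖(Q v).eval z - 1‖ < 1) :
    ContDiff ℝ ∞ (Xc G Q) := by
  unfold Xc
  refine ContDiff.sum fun v hv => ContDiff.neg ?_
  rw [contDiff_iff_contDiffAt]
  intro x
  have h1 : ContDiffAt ℂ ∞ Complex.log ((Q v).eval (e x)) :=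
    Complex.contDiffAt_log (slit_of_ball (hb v hv _ (e_norm x)))
  exact (h1.restrict_scalars ℝ).comp x (eval_e_smooth (Q v)).contDiffAt

lemma Xc_exp {G : Finset ι} {Q : ι → ℂ[X]} (hb : ∀ v ∈ G, ∀ z : ℂ, ‖z‖ = 1 → ‖(Q v).eval z - 1‖ < 1) (x : ℝ) :
    Complex.exp (-(Xc G Q x)) = (∏ v ∈ G, Q v).eval (e x) := by
  unfold Xc
  rw [← Finset.sum_neg_distrib, Complex.exp_sum, eval_prod]
  refine Finset.prod_congr rfl fun v hv => ?_
  rw [neg_neg, Complex.exp_log]
  exact Complex.slitPlane_ne_zero (slit_of_ball (hb v hv _ (e_norm x)))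

lemma Xc_deriv {G : Finset ι} {Q : ι → ℂ[X]} (hb : ∀ v ∈ G, ∀ z : ℂ, ‖z‖ = 1 → ‖(Q v).eval z - 1‖ < 1) (x : ℝ) :
    deriv (Xc G Q) x * (∏ v ∈ G, Q v).eval (e x) =
      -(2 * Real.pi * Complex.I) * (e x * (∏ v ∈ G, Q v).derivative.eval (e x)) := by
  have h1 : HasDerivAt (Xc G Q) (deriv (Xc G Q) x) x :=
    ((Xc_smooth hb).differentiable (by simp)).differentiableAt.hasDerivAt
  have h2 : HasDerivAt (fun y => Complex.exp (-(Xc G Q y))) (Complex.exp (-(Xc G Q x)) * -deriv (Xc G Q) x) x :=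
    h1.neg.cexp
  have h3 := eval_e_deriv (∏ v ∈ G, Q v) x
  have h4 : (fun y => Complex.exp (-(Xc G Q y))) = fun y => (∏ v ∈ G, Q v).eval (e y) := funext fun y => Xc_exp hb y
  rw [h4, Xc_exp hb] at h2
  have h5 := h2.unique h3
  linear_combination -h5

/-- **decay for one prime** -/
theorem curve_decay {G : Finset ι} {Q : ι → ℂ[X]} (hQ0 : ∀ v ∈ G, (Q v).coeff 0 = 1)
    (hb : ∀ v ∈ G, ∀ z : ℂ, ‖z‖ = 1 → ‖(Q v).eval z - 1‖ < 1) {M : ℕ} (hD1 : 1 ≤ (∏ v ∈ G, Q v).natDegree)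
    (hDM : 2 * (∏ v ∈ G, Q v).natDegree ≤ M) : ∃ C : ℝ, 0 < C ∧ ∀ ξ : ℂ, 1 ≤ ‖ξ‖ →
      ‖∫ x in Set.Icc (0:ℝ) 1, Complex.exp ((inner ℝ (Xc G Q x) ξ : ℝ) * Complex.I)‖ ≤
        C * ‖ξ‖ ^ (-(1 / (M : ℝ) / 8)) := by
  set P : ℂ[X] := ∏ v ∈ G, Q v with hP
  have hX := Xc_smooth hb
  have hX1 : ContDiff ℝ ∞ (deriv (Xc G Q)) := by
    have := hX.iterate_deriv 1
    simpa using this
  have hX2 : ContDiff ℝ ∞ (deriv (deriv (Xc G Q))) := by
    have := hX1.iterate_deriv 1
    simpa using this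
  have hPne : ∀ x, P.eval (e x) ≠ 0 := by
    intro x
    rw [← Xc_exp hb]
    exact Complex.exp_ne_zero _
  have hP0 : P.coeff 0 = 1 := by
    rw [coeff_zero_eq_eval_zero, hP, eval_prod]
    refine Finset.prod_eq_one fun v hv => ?_
    rw [← coeff_zero_eq_eval_zero]
    exact hQ0 v hv
  have hlc : 0 < ‖P.leadingCoeff‖ := by
    rw [norm_pos_iff, Ne, leadingCoeff_eq_zero]
    intro h
    rw [h] at hP0
    simp at hP0
  -- the bound for `P` on the circle
  have hPB : ∀ x, ‖P.eval (e x)‖ ≤ 2 ^ G.card := by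
    intro x
    rw [hP, eval_prod, norm_prod, ← Finset.prod_const]
    refine Finset.prod_le_prod (fun v _ => norm_nonneg _) fun v hv => ?_
    have h1 := hb v hv _ (e_norm x)
    have h2 : (Q v).eval (e x) = ((Q v).eval (e x) - 1) + 1 := by ring
    rw [h2]
    refine (norm_add_le _ _).trans ?_
    rw [norm_one]
    linarith
  set D : ℕ := P.natDegree with hD
  set B : ℝ := 2 ^ G.card with hB
  have hB0 : 0 < B := by positivity
  set L : ℝ := D * ‖P.leadingCoeff‖ with hL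
  have hDr : (0:ℝ) < D := by exact_mod_cast hD1
  have hL0 : 0 < L := by positivity
  have hm0 : (0:ℝ) < ((2 * D : ℕ) : ℝ) := by push_cast; positivity
  have hM0 : (0:ℝ) < M := lt_of_lt_of_le hm0 (by exact_mod_cast hDM)
  refine osc_decay (X := Xc G Q) (X1 := deriv (Xc G Q)) (X2 := deriv (deriv (Xc G Q)))
    (A := 3 * ((2 * D : ℕ) : ℝ) * (2 * B ^ 2 / L) ^ (1 / ((2 * D : ℕ) : ℝ))) (b := 1 / (M : ℝ))
    (fun x => (hX.differentiable (by simp)).differentiableAt.hasDerivAt)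
    (fun x => (hX1.differentiable (by simp)).differentiableAt.hasDerivAt) hX2.continuous ?_ ?_ (by positivity) ?_ ?_
  · unfold Xc
    rw [e_one, e_zero]
  · have h1 := Xc_deriv hb 1
    have h0 := Xc_deriv hb 0
    rw [← hP, e_one] at h1
    rw [← hP, e_zero] at h0
    have h2 := hPne 0
    rw [e_zero] at h2
    exact mul_right_cancel₀ h2 (h1.trans h0.symm)
  · rw [div_le_one hM0]
    have : 1 ≤ M := by omega
    exact_mod_cast this
  · intro u hu τ hτ hτ1
    obtain ⟨R, hR1, hR2, hR3⟩ := dirpoly P (D := D) rfl hD1 hP0 (c := conj u) (by rw [RCLike.norm_conj]; exact hu)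
    have hsub : {x ∈ Set.Icc (0:ℝ) 1 | |(deriv (Xc G Q) x * conj u).re| ≤ τ} ⊆
        {x ∈ Set.Icc (0:ℝ) 1 | ‖R.eval (e x)‖ ≤ τ * B ^ 2} := by
      intro x hx
      refine ⟨hx.1, ?_⟩
      rw [hR3 _ (e_norm x)]
      have h1 := Xc_deriv hb x
      rw [← hP] at h1
      set z : ℂ := e x with hz
      set X' : ℂ := deriv (Xc G Q) x with hX'
      -- the identity
      have h2 : (X' * conj u) * ((‖P.eval z‖ ^ 2 : ℝ) : ℂ) =
          -(2 * Real.pi * Complex.I) * (conj u * (z * P.derivative.eval z) * conj (P.eval z)) := by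
        have h3 : ((‖P.eval z‖ ^ 2 : ℝ) : ℂ) = P.eval z * conj (P.eval z) := by
          rw [Complex.mul_conj, Complex.normSq_eq_norm_sq]
        rw [h3]
        linear_combination (conj u * conj (P.eval z)) * h1
      have h3 := congrArg Complex.re h2
      rw [Complex.re_mul_ofReal] at h3
      have h4 : (-(2 * Real.pi * Complex.I) * (conj u * (z * P.derivative.eval z) * conj (P.eval z))).re =
          2 * Real.pi * (conj u * (z * P.derivative.eval z) * conj (P.eval z)).im := by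
        generalize (conj u * (z * P.derivative.eval z) * conj (P.eval z)) = w
        simp [Complex.mul_re]
      rw [h4] at h3
      have h5 : 2 * |(conj u * (z * P.derivative.eval z) * conj (P.eval z)).im| * Real.pi =
          |(X' * conj u).re| * ‖P.eval z‖ ^ 2 := by
        have h6 := congrArg abs h3
        rw [abs_mul, abs_mul, abs_mul, abs_of_pos Real.pi_pos, abs_two, abs_of_nonneg (sq_nonneg ‖P.eval z‖)] at h6
        linarith
      have h6 : |(X' * conj u).re| * ‖P.eval z‖ ^ 2 ≤ τ * B ^ 2 := by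
        have := hPB x
        have h7 : ‖P.eval z‖ ^ 2 ≤ B ^ 2 := pow_le_pow_left₀ (norm_nonneg _) this 2
        exact mul_le_mul hx.2 h7 (by positivity) hτ.le
      have h7 : 1 ≤ Real.pi := by linarith [Real.pi_gt_three]
      have h8 : 0 ≤ 2 * |(conj u * (z * P.derivative.eval z) * conj (P.eval z)).im| := by positivity
      nlinarith
    refine (measure_mono hsub).trans ?_
    refine (sublevel R (m := 2 * D) (by omega) hR1 hL0 (le_of_eq hR2.symm) (δ := τ * B ^ 2) (by positivity)).trans ?_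
    apply ENNReal.ofReal_le_ofReal
    have h1 : 2 * (τ * B ^ 2) / L = (2 * B ^ 2 / L) * τ := by ring
    rw [h1, Real.mul_rpow (by positivity) hτ.le, ← mul_assoc]
    apply mul_le_mul_of_nonneg_left _ (by positivity)
    apply Real.rpow_le_rpow_of_exponent_ge hτ hτ1
    exact one_div_le_one_div_of_le hm0 (by exact_mod_cast hDM)

end Run7.h401.SD
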