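import Mathlib
import Pool.Agent.Run7.h113.LE.Tw
import Pool.Agent.Run7.h401.SD.Dec

/-!
The random Euler product as a sum over rational primes.
-/

set_option autoImplicit false

open MeasureTheory Filter Topology NumberField IsDedekindDomain Polynomial
open scoped ENNReal
open Pool.Agent.H921R2.TatePole (nm two_le_nm below deg nm_eq below_le_nm card_above fiber_finite)
open Pool.Agent.H341R2.EC
open Pool.Agent.R433.MD (lf norm_nm_cpow lf_sub_one nm_pos)
open Pool.Agent.W350.EdgeV (FV mem_FV tendsto_FV)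
open Pool.Agent.W350.EdgeNF (hfin)
open Run7.h113.LE

namespace Run7.h401.SD

variable {K : Type} [Field K] [NumberField K]

/-- the sum of the residue degrees above `p` is at most the degree -/
lemma sum_deg_le {p : ℕ} (G : Finset (HeightOneSpectrum (𝓞 K))) (hG : ∀ v ∈ G, (below v : ℕ) = p) :
    ∑ v ∈ G, deg v ≤ Module.finrank ℚ K := by
  classical
  rcases G.eq_empty_or_nonempty with rfl | ⟨v₀, hv₀⟩
  · simp
  have hp : p.Prime := by rw [← hG v₀ hv₀]; exact (below v₀).2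
  have hdvd : (∏ v ∈ G, v.asIdeal) ∣ Ideal.span {((p : ℕ) : 𝓞 K)} := by
    refine Finset.prod_dvd_of_isRelPrime ?_ ?_
    · intro v _ u _ hvu
      rw [Function.onFun]
      have hne : v.asIdeal ≠ u.asIdeal := fun h => hvu (HeightOneSpectrum.ext h)
      have h1 : IsCoprime v.asIdeal u.asIdeal := by
        rw [Ideal.isCoprime_iff_sup_eq]
        exact (v.isPrime.isMaximal v.ne_bot).coprime_of_ne (u.isPrime.isMaximal u.ne_bot) hne
      exact h1.isRelPrime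
    · intro v hv
      rw [Ideal.dvd_iff_le, Ideal.span_singleton_le_iff_mem]
      have := (nm_eq v).2.2
      rwa [hG v hv] at this
  have h2 : Ideal.absNorm (∏ v ∈ G, v.asIdeal) ∣ Ideal.absNorm (Ideal.span {((p : ℕ) : 𝓞 K)}) :=
    map_dvd Ideal.absNorm hdvd
  rw [Ideal.absNorm_span_natCast, map_prod, RingOfIntegers.rank] at h2
  have h3 := Nat.le_of_dvd (pow_pos hp.pos _) h2
  have h4 : ∏ v ∈ G, Ideal.absNorm v.asIdeal = p ^ ∑ v ∈ G, deg v := by
    rw [← Finset.prod_pow_eq_pow_sum]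
    refine Finset.prod_congr rfl fun v hv => ?_
    have := (nm_eq v).1
    rw [hG v hv] at this
    exact this
  rw [h4] at h3
  exact (Nat.pow_le_pow_iff_right hp.one_lt).mp h3

/-- there is a place above every prime -/
lemma exists_above {p : ℕ} (hp : p.Prime) : ∃ v : HeightOneSpectrum (𝓞 K), (below v : ℕ) = p := by
  have h1 : Ideal.span {((p : ℕ) : 𝓞 K)} ≠ ⊤ := by
    intro h
    have h2 := Ideal.absNorm_span_natCast (S := 𝓞 K) p
    rw [h, Ideal.absNorm_top] at h2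
    have h3 : 0 < Module.finrank ℤ (𝓞 K) := by
      rw [RingOfIntegers.rank]
      exact Module.finrank_pos
    have h4 : 1 < p ^ Module.finrank ℤ (𝓞 K) := Nat.one_lt_pow h3.ne' hp.one_lt
    omega
  obtain ⟨m, hm, hle⟩ := Ideal.exists_le_maximal _ h1
  have hpm : ((p : ℕ) : 𝓞 K) ∈ m := hle (Ideal.mem_span_singleton_self _)
  have hbot : m ≠ ⊥ := by
    rintro rfl
    rw [Ideal.mem_bot] at hpm
    have : (p : 𝓞 K) ≠ 0 := by exact_mod_cast hp.ne_zero
    exact this hpm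
  set v : HeightOneSpectrum (𝓞 K) := ⟨m, hm.isPrime, hbot⟩ with hv
  refine ⟨v, ?_⟩
  have h2 := (nm_eq v).2.2
  by_contra hne
  have hcop : Nat.Coprime (below v : ℕ) p := (Nat.coprime_primes (below v).2 hp).2 hne
  have h3 : (1 : 𝓞 K) ∈ v.asIdeal := by
    have h4 : IsCoprime ((below v : ℕ) : ℤ) (p : ℤ) := Nat.isCoprime_iff_coprime.2 hcop
    obtain ⟨a, b, hab⟩ := h4
    have h5 : ((a : 𝓞 K)) * ((below v : ℕ) : 𝓞 K) + (b : 𝓞 K) * ((p : ℕ) : 𝓞 K) = 1 := by exact_mod_cast congrArg (Int.cast : ℤ → 𝓞 K) hab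
    rw [← h5]
    exact v.asIdeal.add_mem (v.asIdeal.mul_mem_left _ h2) (v.asIdeal.mul_mem_left _ hpm)
  exact v.isPrime.ne_top ((Ideal.eq_top_iff_one _).2 h3)

/-- the local polynomial -/
noncomputable def Tv (V : HeightOneSpectrum (𝓞 K) → WeierstrassCurve (𝓞 K)) (σ : ℝ) (v : HeightOneSpectrum (𝓞 K)) : ℂ[X] :=
  1 - C ((trc V v : ℂ) * ((nm v : ℕ) : ℂ) ^ (-((3:ℂ) / 2 + σ))) * X +
    C (dlt V v * ((nm v : ℕ) : ℂ) ^ (1 - 2 * ((3:ℂ) / 2 + σ))) * X ^ 2

lemma Tv_eval (V : HeightOneSpectrum (𝓞 K) → WeierstrassCurve (𝓞 K)) (σ : ℝ) (v : HeightOneSpectrum (𝓞 K)) (z : ℂ) :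
    (Tv V σ v).eval z = tf V σ v z := by
  unfold Tv tf
  simp only [eval_add, eval_sub, eval_one, eval_mul, eval_C, eval_X, eval_pow]
  ring

/-- the local polynomial in the variable of the rational prime -/
noncomputable def Qv (V : HeightOneSpectrum (𝓞 K) → WeierstrassCurve (𝓞 K)) (σ : ℝ) (v : HeightOneSpectrum (𝓞 K)) : ℂ[X] :=
  expand ℂ (deg v) (Tv V σ v)

lemma Qv_eval (V : HeightOneSpectrum (𝓞 K) → WeierstrassCurve (𝓞 K)) (σ : ℝ) (v : HeightOneSpectrum (𝓞 K)) (z : ℂ) :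
    (Qv V σ v).eval z = tf V σ v (z ^ deg v) := by
  unfold Qv
  rw [expand_eval, Tv_eval]

lemma Qv_ball (V : HeightOneSpectrum (𝓞 K) → WeierstrassCurve (𝓞 K)) {σ : ℝ} (hσ : 0 ≤ σ) (v : HeightOneSpectrum (𝓞 K))
    {z : ℂ} (hz : ‖z‖ = 1) : ‖(Qv V σ v).eval z - 1‖ < 1 := by
  rw [Qv_eval]
  refine (tf_ball V hσ v ?_).trans_lt (by norm_num)
  rw [norm_pow, hz, one_pow]

lemma Qv_coeff (V : HeightOneSpectrum (𝓞 K) → WeierstrassCurve (𝓞 K)) (σ : ℝ) (v : HeightOneSpectrum (𝓞 K)) :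
    (Qv V σ v).coeff 0 = 1 := by
  rw [coeff_zero_eq_eval_zero, Qv_eval, zero_pow (nm_eq v).2.1.ne']
  unfold tf
  simp

lemma Qv_ne (V : HeightOneSpectrum (𝓞 K) → WeierstrassCurve (𝓞 K)) (σ : ℝ) (v : HeightOneSpectrum (𝓞 K)) :
    Qv V σ v ≠ 0 := by
  intro h
  have := Qv_coeff V σ v
  rw [h] at this
  simp at this

lemma Qv_deg (V : HeightOneSpectrum (𝓞 K) → WeierstrassCurve (𝓞 K)) (σ : ℝ) (v : HeightOneSpectrum (𝓞 K)) :
    (Qv V σ v).natDegree ≤ 2 * deg v := by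
  unfold Qv
  rw [natDegree_expand]
  apply Nat.mul_le_mul_right
  unfold Tv
  compute_degree

lemma Qv_good (V : HeightOneSpectrum (𝓞 K) → WeierstrassCurve (𝓞 K)) (σ : ℝ) {v : HeightOneSpectrum (𝓞 K)}
    (hv : dlt V v = 1) : 1 ≤ (Qv V σ v).natDegree := by
  unfold Qv
  rw [natDegree_expand]
  have h0 := (nm_eq v).2.1
  have h1 : 2 ≤ (Tv V σ v).natDegree := by
    apply le_natDegree_of_ne_zero
    unfold Tv
    have hne : ((nm v : ℕ) : ℂ) ≠ 0 := by exact_mod_cast (nm_pos v).ne'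
    simp only [coeff_add, coeff_sub, coeff_C_mul, coeff_X_pow, coeff_one, coeff_X, hv]
    simp [hne, Complex.cpow_eq_zero_iff]
  nlinarith

/-- the places above `p` of norm less than `Y` -/
noncomputable def Gp (K : Type) [Field K] [NumberField K] (Y p : ℕ) : Finset (HeightOneSpectrum (𝓞 K)) := by
  classical exact (FV nm (hfin (K := K)) Y).filter fun v => (below v : ℕ) = p

lemma mem_Gp {Y p : ℕ} {v : HeightOneSpectrum (𝓞 K)} : v ∈ Gp K Y p ↔ nm v < Y ∧ (below v : ℕ) = p := by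
  classical
  unfold Gp
  rw [Finset.mem_filter, mem_FV]

lemma Xn_e {Y : ℕ} {v : HeightOneSpectrum (𝓞 K)} (p : Nat.primesBelow Y) (hp : (below v : ℕ) = p)
    (θ : Nat.primesBelow Y → ℝ) : Xn Y (nm v) (pt θ) = e (θ p) ^ deg v := by
  rw [Xn_pt]
  have h1 : ∀ q : Nat.primesBelow Y, (((nm v).factorization q : ℕ) : ℂ) * (θ q : ℂ) =
      if q = p then (deg v : ℂ) * (θ p : ℂ) else 0 := by
    intro q
    have h2 := (nm_eq v).1
    have hpp : (below v : ℕ).Prime := (below v).2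
    rw [h2, hpp.factorization_pow]
    split_ifs with h
    · rw [h, hp, Finsupp.single_eq_same]
    · rw [Finsupp.single_apply, if_neg, Nat.cast_zero, zero_mul]
      intro h3
      apply h
      apply Subtype.ext
      rw [← hp, h3]
  simp only [h1, Finset.sum_ite_eq', Finset.mem_univ, if_true]
  unfold e
  rw [← Complex.exp_nat_mul]
  congr 1
  push_cast
  ring

lemma RY_split (V : HeightOneSpectrum (𝓞 K) → WeierstrassCurve (𝓞 K)) (σ : ℝ) (Y : ℕ) (θ : Nat.primesBelow Y → ℝ) :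
    RY V σ Y (pt θ) = ∑ p : Nat.primesBelow Y, Xc (Gp K Y p) (Qv V σ) (θ p) := by
  classical
  unfold RY Xc
  have h1 : ∀ v ∈ FV nm (hfin (K := K)) Y, (below v : ℕ) ∈ Nat.primesBelow Y := by
    intro v hv
    rw [mem_FV] at hv
    rw [Nat.mem_primesBelow]
    exact ⟨lt_of_le_of_lt (below_le_nm v) hv, (below v).2⟩
  have h2 : ∀ p : Nat.primesBelow Y, ∑ v ∈ Gp K Y p, -Complex.log ((Qv V σ v).eval (e (θ p))) =
      ∑ v ∈ (FV nm (hfin (K := K)) Y).filter (fun v => (below v : ℕ) = p), -Complex.log (tf V σ v (Xn Y (nm v) (pt θ))) := by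
    intro p
    refine Finset.sum_congr ?_ fun v hv => ?_
    · ext v
      rw [mem_Gp, Finset.mem_filter, mem_FV]
    · rw [Finset.mem_filter] at hv
      rw [Qv_eval, Xn_e p hv.2]
  simp only [h2]
  have h3 := Finset.sum_fiberwise_of_maps_to h1 (fun v => -Complex.log (tf V σ v (Xn Y (nm v) (pt θ))))
  rw [← h3, ← Finset.sum_coe_sort]

lemma Xc_cont (V : HeightOneSpectrum (𝓞 K) → WeierstrassCurve (𝓞 K)) {σ : ℝ} (hσ : 0 ≤ σ)
    (G : Finset (HeightOneSpectrum (𝓞 K))) : Continuous (Xc G (Qv V σ)) :=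
  (Xc_smooth fun v _ _ hz => Qv_ball V hσ v hz).continuous

/-- the factor of the prime `p` of the characteristic function -/
noncomputable def phi (V : HeightOneSpectrum (𝓞 K) → WeierstrassCurve (𝓞 K)) (σ : ℝ) (Y : ℕ) (ξ : ℂ) (p : ℕ) : ℂ :=
  ∫ x in Set.Icc (0:ℝ) 1, Complex.exp ((inner ℝ (Xc (Gp K Y p) (Qv V σ) x) ξ : ℝ) * Complex.I)

lemma phi_le (V : HeightOneSpectrum (𝓞 K) → WeierstrassCurve (𝓞 K)) (σ : ℝ) (Y : ℕ) (ξ : ℂ) (p : ℕ) :
    ‖phi V σ Y ξ p‖ ≤ 1 := by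
  unfold phi
  refine (norm_integral_le_of_norm_le_const (C := 1) (Eventually.of_forall fun x => ?_)).trans ?_
  · rw [Complex.norm_exp_ofReal_mul_I]
  · rw [measureReal_def, Measure.restrict_apply_univ, Real.volume_Icc]
    simp

/-- **the characteristic function is a product** -/
theorem char_prod (V : HeightOneSpectrum (𝓞 K) → WeierstrassCurve (𝓞 K)) (σ : ℝ) (Y : ℕ) (ξ : ℂ) :
    ∫ θ, Complex.exp ((inner ℝ (RY V σ Y (pt θ)) ξ : ℝ) * Complex.I) ∂(cube (Nat.primesBelow Y)) =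
      ∏ p ∈ Nat.primesBelow Y, phi V σ Y ξ p := by
  have h1 : ∀ θ : Nat.primesBelow Y → ℝ, Complex.exp ((inner ℝ (RY V σ Y (pt θ)) ξ : ℝ) * Complex.I) =
      ∏ p : Nat.primesBelow Y, Complex.exp ((inner ℝ (Xc (Gp K Y p) (Qv V σ) (θ p)) ξ : ℝ) * Complex.I) := by
    intro θ
    rw [RY_split, sum_inner, ← Complex.exp_sum]
    congr 1
    push_cast
    rw [Finset.sum_mul]
  simp_rw [h1]
  unfold cube
  rw [integral_fintype_prod_eq_prod (fun (p : Nat.primesBelow Y) (x : ℝ) =>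
    Complex.exp ((inner ℝ (Xc (Gp K Y p) (Qv V σ) x) ξ : ℝ) * Complex.I))]
  exact Finset.prod_coe_sort (Nat.primesBelow Y) fun p => phi V σ Y ξ p

end Run7.h401.SD
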