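import Mathlib
import Pool.Agent.Run7.h113.LE.LawMain
import Pool.Agent.Run7.h401.SD.Pr
import Pool.Agent.Run7.h401.SD.Dens2
import Pool.Agent.Run7.h401.SD.Jor

/-!
The smooth density of the boundary values.
-/

set_option autoImplicit false

open MeasureTheory Filter Topology NumberField IsDedekindDomain
open scoped ENNReal ContDiff
open Pool.Agent.H921R2.TatePole (nm two_le_nm below deg nm_eq below_le_nm card_above fiber_finite)
open Pool.Agent.H341R2.EC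
open Pool.Agent.R433.MD (lf norm_nm_cpow lf_sub_one nm_pos)
open Run7.h113.LE

namespace Run7.h401.SD

variable {K : Type} [Field K] [NumberField K]

lemma deg_le' (v : HeightOneSpectrum (𝓞 K)) : deg v ≤ Module.finrank ℚ K := by
  have h := sum_deg_le (p := (below v : ℕ)) {v} (by simp)
  simpa using h

lemma Gp_stable {p Y : ℕ} (hp : p.Prime) (hY : p ^ Module.finrank ℚ K + 1 ≤ Y) :
    Gp K Y p = Gp K (p ^ Module.finrank ℚ K + 1) p := by
  ext v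
  rw [mem_Gp, mem_Gp]
  constructor
  · rintro ⟨-, h⟩
    refine ⟨?_, h⟩
    have h1 := (nm_eq v).1
    rw [h] at h1
    rw [h1]
    exact Nat.lt_succ_of_le (Nat.pow_le_pow_right hp.pos (deg_le' v))
  · rintro ⟨h1, h⟩
    exact ⟨lt_of_lt_of_le h1 hY, h⟩

/-- the primes used -/
def Good1 (V : HeightOneSpectrum (𝓞 K) → WeierstrassCurve (𝓞 K)) : Set ℕ :=
  {p | p.Prime ∧ ∃ v : HeightOneSpectrum (𝓞 K), (below v : ℕ) = p ∧ dlt V v = 1}

/-- decay for one prime -/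
lemma one_prime (V : HeightOneSpectrum (𝓞 K) → WeierstrassCurve (𝓞 K)) {σ : ℝ} (hσ : 0 ≤ σ) {p : ℕ} (hp : p ∈ Good1 V) :
    ∃ C : ℝ, 0 < C ∧ ∀ Y : ℕ, p ^ Module.finrank ℚ K + 1 ≤ Y → ∀ ξ : ℂ, 1 ≤ ‖ξ‖ →
      ‖phi V σ Y ξ p‖ ≤ C * ‖ξ‖ ^ (-(1 / ((4 * Module.finrank ℚ K : ℕ) : ℝ) / 8)) := by
  obtain ⟨hpp, v, hv, hvd⟩ := hp
  set G := Gp K (p ^ Module.finrank ℚ K + 1) p with hG
  have hvG : v ∈ G := by
    rw [hG, mem_Gp]
    refine ⟨?_, hv⟩
    have h1 := (nm_eq v).1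
    rw [hv] at h1
    rw [h1]
    exact Nat.lt_succ_of_le (Nat.pow_le_pow_right hpp.pos (deg_le' v))
  have hdeg : (∏ w ∈ G, Qv V σ w).natDegree = ∑ w ∈ G, (Qv V σ w).natDegree :=
    Polynomial.natDegree_prod _ _ fun w _ => Qv_ne V σ w
  have h1 : 1 ≤ (∏ w ∈ G, Qv V σ w).natDegree := by
    rw [hdeg]
    exact (Qv_good V σ hvd).trans (Finset.single_le_sum (f := fun w => (Qv V σ w).natDegree) (fun _ _ => Nat.zero_le _) hvG)
  have h2 : 2 * (∏ w ∈ G, Qv V σ w).natDegree ≤ 4 * Module.finrank ℚ K := by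
    rw [hdeg]
    have h3 : ∑ w ∈ G, (Qv V σ w).natDegree ≤ ∑ w ∈ G, 2 * deg w := Finset.sum_le_sum fun w _ => Qv_deg V σ w
    rw [← Finset.mul_sum] at h3
    have h4 := sum_deg_le G (p := p) fun w hw => (mem_Gp.1 hw).2
    omega
  obtain ⟨C, hC, hmain⟩ := curve_decay (G := G) (Q := Qv V σ) (fun w _ => Qv_coeff V σ w)
    (fun w _ z hz => Qv_ball V hσ w hz) h1 h2
  refine ⟨C, hC, fun Y hY ξ hξ => ?_⟩
  unfold phi
  rw [Gp_stable hpp hY]
  exact hmain ξ hξ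

/-- **rapid decay of the characteristic functions of the random Euler products** -/
theorem decay_main (V : HeightOneSpectrum (𝓞 K) → WeierstrassCurve (𝓞 K)) {σ : ℝ} (hσ : 0 ≤ σ)
    (hinf : (Good1 V).Infinite) (N : ℕ) : ∃ (C : ℝ) (Y₀ : ℕ), 0 < C ∧ ∀ Y : ℕ, Y₀ ≤ Y → ∀ ξ : ℂ, 1 ≤ ‖ξ‖ →
      ‖∏ p ∈ Nat.primesBelow Y, phi V σ Y ξ p‖ ≤ C * ‖ξ‖ ^ (-(N : ℝ)) := by
  classical
  set M : ℕ := 4 * Module.finrank ℚ K with hM
  have hn : 0 < Module.finrank ℚ K := Module.finrank_pos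
  have hM0 : (0:ℝ) < (M : ℝ) := by
    have : 0 < M := by omega
    exact_mod_cast this
  obtain ⟨S, hS, hcard⟩ := hinf.exists_subset_card_eq (8 * M * N)
  have hch : ∀ p : ℕ, ∃ C : ℝ, 0 < C ∧ (p ∈ S → ∀ Y : ℕ, p ^ Module.finrank ℚ K + 1 ≤ Y → ∀ ξ : ℂ, 1 ≤ ‖ξ‖ →
      ‖phi V σ Y ξ p‖ ≤ C * ‖ξ‖ ^ (-(1 / (M : ℝ) / 8))) := by
    intro p
    by_cases hp : p ∈ S
    · obtain ⟨C, hC, h⟩ := one_prime V hσ (hS hp)
      exact ⟨C, hC, fun _ => h⟩
    · exact ⟨1, one_pos, fun h => absurd h hp⟩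
  choose C hC hmain using hch
  refine ⟨∏ p ∈ S, C p, S.sup (fun p => p ^ Module.finrank ℚ K + 1), Finset.prod_pos fun p _ => hC p,
    fun Y hY ξ hξ => ?_⟩
  have hYp : ∀ p ∈ S, p ^ Module.finrank ℚ K + 1 ≤ Y := fun p hp =>
    (Finset.le_sup (f := fun p => p ^ Module.finrank ℚ K + 1) hp).trans hY
  have hsub : S ⊆ Nat.primesBelow Y := by
    intro p hp
    have hpp : p.Prime := (hS hp).1
    rw [Nat.mem_primesBelow]
    refine ⟨?_, hpp⟩
    have h1 := hYp p hp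
    have h2 : p ≤ p ^ Module.finrank ℚ K := Nat.le_self_pow hn.ne' p
    omega
  have hξ0 : 0 < ‖ξ‖ := by linarith
  rw [norm_prod, ← Finset.prod_sdiff hsub]
  have h1 : ∏ p ∈ Nat.primesBelow Y \ S, ‖phi V σ Y ξ p‖ ≤ 1 :=
    Finset.prod_le_one (fun p _ => norm_nonneg _) fun p _ => phi_le V σ Y ξ p
  have h2 : ∏ p ∈ S, ‖phi V σ Y ξ p‖ ≤ ∏ p ∈ S, (C p * ‖ξ‖ ^ (-(1 / (M : ℝ) / 8))) :=
    Finset.prod_le_prod (fun p _ => norm_nonneg _) fun p hp => hmain p hp Y (hYp p hp) ξ hξ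
  have h3 : ∏ p ∈ S, (C p * ‖ξ‖ ^ (-(1 / (M : ℝ) / 8))) = (∏ p ∈ S, C p) * ‖ξ‖ ^ (-(N : ℝ)) := by
    rw [Finset.prod_mul_distrib, Finset.prod_const, hcard, ← Real.rpow_natCast, ← Real.rpow_mul hξ0.le]
    congr 2
    push_cast
    field_simp
  have h4 : 0 ≤ ∏ p ∈ S, ‖phi V σ Y ξ p‖ := Finset.prod_nonneg fun p _ => norm_nonneg _
  calc _ ≤ 1 * ∏ p ∈ S, ‖phi V σ Y ξ p‖ := mul_le_mul_of_nonneg_right h1 h4
    _ = ∏ p ∈ S, ‖phi V σ Y ξ p‖ := one_mul _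
    _ ≤ _ := by rw [← h3]; exact h2

lemma cls_of_bdd {κ : ℝ} (hκ : 0 < κ) {f : ℂ → ℝ} (hf : Continuous f) {B : ℝ} (hB : ∀ z, |f z| ≤ B) : Cls κ f := by
  refine ⟨hf, B, fun z => (hB z).trans ?_⟩
  have h0 : 0 ≤ B := (abs_nonneg _).trans (hB z)
  have h1 : 1 ≤ Real.exp (κ / 2 * ‖z‖) := Real.one_le_exp (by positivity)
  nlinarith

lemma cls_pow {κ : ℝ} (hκ : 0 < κ) (n : ℕ) : Cls κ (fun z => ‖z‖ ^ n) := by
  refine ⟨by fun_prop, (n.factorial : ℝ) * (2 / κ) ^ n, fun z => ?_⟩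
  rw [abs_of_nonneg (by positivity)]
  have h1 := Real.pow_div_factorial_le_exp (κ / 2 * ‖z‖) (by positivity) n
  rw [div_le_iff₀ (by positivity), mul_pow] at h1
  have h2 : ‖z‖ ^ n = (2 / κ) ^ n * ((κ / 2) ^ n * ‖z‖ ^ n) := by
    rw [← mul_assoc, ← mul_pow]
    have : 2 / κ * (κ / 2) = 1 := by field_simp
    rw [this, one_pow, one_mul]
  show ‖z‖ ^ n ≤ _
  rw [h2]
  calc (2 / κ) ^ n * ((κ / 2) ^ n * ‖z‖ ^ n) ≤ (2 / κ) ^ n * (Real.exp (κ / 2 * ‖z‖) * n.factorial) := by gcongr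
    _ = _ := by ring

/-- **the smooth density** -/
theorem smooth_law {d : ℕ} (hd : Module.finrank ℚ K ≤ d) (V : HeightOneSpectrum (𝓞 K) → WeierstrassCurve (𝓞 K))
    (hinf : (Good1 V).Infinite) {σ : ℝ} (hσ : 0 ≤ σ) {g : ℝ → ℂ} (hg : IsLim V σ g) :
    ∃ f : ℂ → ℝ, ContDiff ℝ ∞ f ∧ (∀ k n : ℕ, ∃ C : ℝ, ∀ z, ‖z‖ ^ k * ‖iteratedFDeriv ℝ n f z‖ ≤ C) ∧ (∀ z, 0 ≤ f z) ∧
      Integrable f ∧ ∫ z, f z = 1 ∧ ∀ B : Set ℂ, volume (frontier B) = 0 → ∀ ε : ℝ, 0 < ε → ∃ H₀ : ℝ, 0 < H₀ ∧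
        ∀ H : ℝ, H₀ ≤ H → ∀ T : ℝ,
          |(volume {t ∈ Set.Icc T (T + H) | g t ∈ B}).toReal / H - ∫ z in B, f z| ≤ ε := by
  have hκ := kap_pos d
  obtain ⟨ν, hν, hlaw⟩ := law_exists hd V hσ hg
  -- the comparison
  have h3 : ∀ f : ℂ → ℝ, Cls (kap d) f → ∀ ε : ℝ, 0 < ε → ∃ (H₀ : ℝ) (Y₀ : ℕ), 0 < H₀ ∧
      (∀ Y : ℕ, Y₀ ≤ Y → |(∫ z, f z ∂ν) - ∫ θ, f (RY V σ Y (pt θ)) ∂(cube (Nat.primesBelow Y))| ≤ ε) ∧
      ∀ H : ℝ, H₀ ≤ H → ∀ (T : ℝ) (Y : ℕ), Y₀ ≤ Y →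
        |(1 / H) * (∫ t in T..(T + H), f (g t)) - ∫ θ, f (RY V σ Y (pt θ)) ∂(cube (Nat.primesBelow Y))| ≤ ε := by
    intro f hf ε hε
    obtain ⟨H₀, Y₀, hH₀, hmain⟩ := main_law d hf hε
    have h4 := hmain K hd V σ hσ g hg
    refine ⟨H₀, Y₀, hH₀, fun Y hY => ?_, h4⟩
    have h5 := ((hlaw f hf).2.sub_const (∫ θ, f (RY V σ Y (pt θ)) ∂(cube (Nat.primesBelow Y)))).abs
    refine le_of_tendsto h5 ?_
    obtain ⟨N, hN⟩ := exists_nat_ge H₀
    filter_upwards [eventually_ge_atTop N] with n hn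
    have h6 := h4 n (hN.trans (by exact_mod_cast hn)) 0 Y hY
    rw [zero_add] at h6
    exact h6
  have hL : Law g ν := by
    intro f hfc hf ε hε
    have hcls : Cls (kap d) f := cls_of_bdd hκ hfc (B := 1) fun z => by rw [abs_of_nonneg (hf z).1]; exact (hf z).2
    obtain ⟨H₀, Y₀, hH₀, h4, h5⟩ := h3 f hcls (ε / 2) (by positivity)
    refine ⟨H₀, hH₀, fun H hH T => ?_⟩
    have h6 := h4 Y₀ le_rfl
    have h7 := h5 H hH T Y₀ le_rfl
    rw [abs_le] at h6 h7 ⊢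
    constructor <;> linarith [h6.1, h6.2, h7.1, h7.2]
  have hRY : ∀ f : ℂ → ℝ, Cls (kap d) f →
      Tendsto (fun Y : ℕ => ∫ θ, f (RY V σ Y (pt θ)) ∂(cube (Nat.primesBelow Y))) atTop (𝓝 (∫ z, f z ∂ν)) := by
    intro f hf
    rw [Metric.tendsto_atTop]
    intro ε hε
    obtain ⟨H₀, Y₀, hH₀, h4, h5⟩ := h3 f hf (ε / 2) (by positivity)
    refine ⟨Y₀, fun Y hY => ?_⟩
    rw [Real.dist_eq, abs_sub_comm]
    have := h4 Y hY
    linarith
  -- the characteristic function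
  have hchar : ∀ ξ : ℂ, Tendsto (fun Y : ℕ => ∏ p ∈ Nat.primesBelow Y, phi V σ Y ξ p) atTop (𝓝 (charFun ν ξ)) := by
    intro ξ
    have hc : Cls (kap d) (fun z => Real.cos (inner ℝ z ξ)) :=
      cls_of_bdd hκ (by fun_prop) (B := 1) fun z => Real.abs_cos_le_one _
    have hs : Cls (kap d) (fun z => Real.sin (inner ℝ z ξ)) :=
      cls_of_bdd hκ (by fun_prop) (B := 1) fun z => Real.abs_sin_le_one _
    have hdec : ∀ {m : Measure ℂ} [IsProbabilityMeasure m], ∫ z, Complex.exp ((inner ℝ z ξ : ℝ) * Complex.I) ∂m =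
        ((∫ z, Real.cos (inner ℝ z ξ) ∂m : ℝ) : ℂ) + ((∫ z, Real.sin (inner ℝ z ξ) ∂m : ℝ) : ℂ) * Complex.I := by
      intro m _
      have i1 : Integrable (fun z => ((Real.cos (inner ℝ z ξ) : ℝ) : ℂ)) m := by
        refine Integrable.of_bound (C := 1) (Continuous.aestronglyMeasurable (by fun_prop)) (Eventually.of_forall fun z => ?_)
        rw [Complex.norm_real]
        exact Real.abs_cos_le_one _
      have i2 : Integrable (fun z => ((Real.sin (inner ℝ z ξ) : ℝ) : ℂ) * Complex.I) m := by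
        refine Integrable.of_bound (C := 1) (Continuous.aestronglyMeasurable (by fun_prop)) (Eventually.of_forall fun z => ?_)
        rw [norm_mul, Complex.norm_I, mul_one, Complex.norm_real]
        exact Real.abs_sin_le_one _
      rw [← integral_complex_ofReal, ← integral_complex_ofReal, ← integral_mul_const, ← integral_add i1 i2]
      refine integral_congr_ae (Eventually.of_forall fun z => ?_)
      simp only
      rw [Complex.exp_mul_I, Complex.ofReal_cos, Complex.ofReal_sin]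
    rw [charFun_apply, hdec]
    have h1 := (Complex.continuous_ofReal.tendsto _).comp (hRY _ hc)
    have h2 := ((Complex.continuous_ofReal.tendsto _).comp (hRY _ hs)).mul_const Complex.I
    refine (h1.add h2).congr fun Y => ?_
    rw [← char_prod]
    have hmeas : AEMeasurable (fun θ => RY V σ Y (pt θ)) (cube (Nat.primesBelow Y)) :=
      ((RY_cont V hσ Y).comp pt_cont).aemeasurable
    have hprob : IsProbabilityMeasure (Measure.map (fun θ => RY V σ Y (pt θ)) (cube (Nat.primesBelow Y))) :=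
      Measure.isProbabilityMeasure_map hmeas
    have h3 := hdec (m := Measure.map (fun θ => RY V σ Y (pt θ)) (cube (Nat.primesBelow Y)))
    rw [integral_map hmeas (Continuous.aestronglyMeasurable (by fun_prop)),
      integral_map hmeas (Continuous.aestronglyMeasurable (by fun_prop)),
      integral_map hmeas (Continuous.aestronglyMeasurable (by fun_prop))] at h3
    rw [h3]
    rfl
  have hdec : ∀ N : ℕ, ∃ C : ℝ, ∀ ξ : ℂ, ‖ξ‖ ^ N * ‖charFun ν ξ‖ ≤ C := by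
    intro N
    obtain ⟨C, Y₀, hC, h⟩ := decay_main V hσ hinf N
    refine ⟨max 1 C, fun ξ => ?_⟩
    rcases le_total ‖ξ‖ 1 with hξ | hξ
    · refine le_trans ?_ (le_max_left _ _)
      have h1 : ‖ξ‖ ^ N ≤ 1 := pow_le_one₀ (norm_nonneg _) hξ
      have h2 : ‖charFun ν ξ‖ ≤ 1 := norm_charFun_le_one _
      exact mul_le_one₀ h1 (norm_nonneg _) h2
    · refine le_trans ?_ (le_max_right _ _)
      have hξ0 : 0 < ‖ξ‖ := by linarith
      have h1 : ‖charFun ν ξ‖ ≤ C * ‖ξ‖ ^ (-(N : ℝ)) := by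
        refine le_of_tendsto (hchar ξ).norm ?_
        filter_upwards [eventually_ge_atTop Y₀] with Y hY
        exact h Y hY ξ hξ
      calc ‖ξ‖ ^ N * ‖charFun ν ξ‖ ≤ ‖ξ‖ ^ N * (C * ‖ξ‖ ^ (-(N : ℝ))) := by gcongr
        _ = C := by
          rw [Real.rpow_neg hξ0.le, Real.rpow_natCast]
          field_simp
  have hmom : ∀ n : ℕ, Integrable (fun z : ℂ => ‖z‖ ^ n) ν := fun n => (hlaw _ (cls_pow hκ n)).1
  obtain ⟨f, hf1, hf2, hf3, hf4, hf5, hf6⟩ := density ν hmom hdec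
  refine ⟨f, hf1, hf2, hf3, hf4, hf5, fun B hB ε hε => ?_⟩
  have hac : ν ≪ volume := by rw [hf6]; exact withDensity_absolutelyContinuous _ _
  have hBν : ν.real B = ∫ z in B, f z := by
    have hnm : NullMeasurableSet B volume := by
      have h1 : B =ᵐ[volume] closure B := by
        refine (eventuallyLE_antisymm_iff.2 ⟨?_, ?_⟩)
        · exact Eventually.of_forall fun z hz => subset_closure hz
        · have hsub : closure B \ B ⊆ frontier B := fun z hz => ⟨hz.1, fun h => hz.2 (interior_subset h)⟩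
          exact ae_le_set.2 (measure_mono_null hsub hB)
      exact (isClosed_closure.measurableSet.nullMeasurableSet).congr h1.symm
    rw [measureReal_def, hf6, withDensity_apply₀ _ hnm,
      ← ofReal_integral_eq_lintegral_ofReal hf4.integrableOn (Eventually.of_forall hf3),
      ENNReal.toReal_ofReal (integral_nonneg hf3)]
  rw [← hBν]
  exact freq (hg.aesm hσ) hL (hac hB) hε

end Run7.h401.SD
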