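import Mathlib
import Pool.Agent.Run7.h401.SD.Dec

/-!
Curves in inner product spaces; sublevel sets with a lower bound at one point.
-/

set_option autoImplicit false

open MeasureTheory Filter Topology Polynomial
open scoped ComplexConjugate ContDiff

namespace Run7.h401.SD

/-- **decay of the characteristic function of a curve in an inner product space** -/
theorem osc_decay_vec {V : Type} [NormedAddCommGroup V] [InnerProductSpace ℝ V] {X X1 X2 : ℝ → V}
    (h1 : ∀ x, HasDerivAt X (X1 x) x) (h2 : ∀ x, HasDerivAt X1 (X2 x) x)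
    (hc : Continuous X2) (hp0 : X 1 = X 0) (hp1 : X1 1 = X1 0) {A b : ℝ} (hA : 0 ≤ A) (hb1 : b ≤ 1)
    (hsub : ∀ u : V, ‖u‖ = 1 → ∀ τ : ℝ, 0 < τ → τ ≤ 1 →
      volume {x ∈ Set.Icc (0:ℝ) 1 | |(inner ℝ (X1 x) u : ℝ)| ≤ τ} ≤ ENNReal.ofReal (A * τ ^ b)) :
    ∃ C : ℝ, 0 < C ∧ ∀ ξ : V, 1 ≤ ‖ξ‖ →
      ‖∫ x in Set.Icc (0:ℝ) 1, Complex.exp ((inner ℝ (X x) ξ : ℝ) * Complex.I)‖ ≤ C * ‖ξ‖ ^ (-(b / 8)) := by
  have hX1c : Continuous X1 := continuous_iff_continuousAt.2 fun x => (h2 x).continuousAt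
  obtain ⟨M, hM⟩ := (isCompact_Icc (a := (0:ℝ)) (b := 1)).exists_bound_of_continuousOn hc.continuousOn
  have hM0 : 0 ≤ M := (norm_nonneg _).trans (hM 0 (by simp))
  refine ⟨A + 1 + M, by linarith, fun ξ hξ => ?_⟩
  set l : ℝ := ‖ξ‖ with hl
  have hl0 : 0 < l := by linarith
  set u : V := l⁻¹ • ξ with hu
  have hun : ‖u‖ = 1 := by
    rw [hu, norm_smul, Real.norm_of_nonneg (by positivity), ← hl, inv_mul_cancel₀ hl0.ne']
  have hξu : ξ = l • u := by rw [hu, smul_smul, mul_inv_cancel₀ hl0.ne', one_smul]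
  -- the phase
  have hin : ∀ z : V, (inner ℝ z ξ : ℝ) = l * inner ℝ z u := by
    intro z
    conv_lhs => rw [hξu]
    rw [inner_smul_right]
  have hd : ∀ {Z Z1 : ℝ → V} (x : ℝ), HasDerivAt Z (Z1 x) x →
      HasDerivAt (fun y => (inner ℝ (Z y) u : ℝ)) (inner ℝ (Z1 x) u) x := by
    intro Z Z1 x h
    have d1 := h.inner ℝ (hasDerivAt_const x u)
    simpa using d1
  have hg2c : Continuous fun x => (inner ℝ (X2 x) u : ℝ) := hc.inner continuous_const
  have hg1c : Continuous fun x => (inner ℝ (X1 x) u : ℝ) := hX1c.inner continuous_const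
  have hb2 : ∀ x ∈ Set.Icc (0:ℝ) 1, |(inner ℝ (X2 x) u : ℝ)| ≤ M := by
    intro x hx
    refine (abs_real_inner_le_norm _ _).trans ?_
    rw [hun, mul_one]
    exact hM x hx
  set ε : ℝ := l ^ (-(1 / 4) : ℝ) with hε
  have hε0 : 0 < ε := by positivity
  have hε1 : ε ≤ 1 := Real.rpow_le_one_of_one_le_of_nonpos hξ (by norm_num)
  have key := osc_basic (g := fun x => (inner ℝ (X x) u : ℝ)) (g1 := fun x => (inner ℝ (X1 x) u : ℝ))
    (g2 := fun x => (inner ℝ (X2 x) u : ℝ)) (fun x => hd x (h1 x)) (fun x => hd x (h2 x)) hg2c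
    (by simp only [hp0]) (by simp only [hp1]) hb2 hl0 hε0
  have key2 := first_term hg1c hε0
  have key3 := hsub u hun (Real.sqrt ε) (Real.sqrt_pos.2 hε0) (Real.sqrt_le_one.2 hε1)
  have key4 := ENNReal.toReal_le_of_le_ofReal (by positivity) key3
  have e1 : ∫ x in Set.Icc (0:ℝ) 1, Complex.exp ((inner ℝ (X x) ξ : ℝ) * Complex.I) =
      ∫ x in (0:ℝ)..1, Complex.exp ((l * inner ℝ (X x) u : ℝ) * Complex.I) := by
    rw [intervalIntegral.integral_of_le zero_le_one, ← integral_Icc_eq_integral_Ioc]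
    refine integral_congr_ae (Eventually.of_forall fun x => ?_)
    simp only [hin]
  rw [e1]
  have hpl : 0 < l ^ (-(b / 8)) := by positivity
  -- the three terms
  have t1 : Real.sqrt ε ^ b = l ^ (-(b / 8)) := by
    rw [hε, Real.sqrt_eq_rpow, ← Real.rpow_mul hl0.le, ← Real.rpow_mul hl0.le]
    congr 1
    ring
  have t2 : ε ≤ l ^ (-(b / 8)) := by
    rw [hε]
    exact Real.rpow_le_rpow_of_exponent_le hξ (by linarith)
  have t3 : M / (l * ε ^ 2) ≤ M * l ^ (-(b / 8)) := by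
    have h4 : l * ε ^ 2 = l ^ (1 / 2 : ℝ) := by
      rw [hε, ← Real.rpow_natCast, ← Real.rpow_mul hl0.le]
      nth_rewrite 1 [← Real.rpow_one l]
      rw [← Real.rpow_add hl0]
      norm_num
    rw [h4, div_eq_mul_inv, ← Real.rpow_neg hl0.le]
    exact mul_le_mul_of_nonneg_left (Real.rpow_le_rpow_of_exponent_le hξ (by linarith)) hM0
  rw [t1] at key4
  calc _ ≤ _ := key
    _ ≤ (A * l ^ (-(b / 8)) + l ^ (-(b / 8))) + M * l ^ (-(b / 8)) := by linarith
    _ = (A + 1 + M) * l ^ (-(b / 8)) := by ring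

lemma prod_lower2 {ρ : ℝ} (hρ : 0 ≤ ρ) (z w : ℂ) (s : Multiset ℂ) (hs : ∀ a ∈ s, ρ * ‖w - a‖ ≤ ‖z - a‖) :
    ρ ^ s.card * (s.map fun a => ‖w - a‖).prod ≤ (s.map fun a => ‖z - a‖).prod := by
  induction s using Multiset.induction_on with
  | empty => simp
  | cons a s ih =>
    rw [Multiset.card_cons, Multiset.map_cons, Multiset.prod_cons, Multiset.map_cons, Multiset.prod_cons, pow_succ]
    have h1 := ih fun b hb => hs b (Multiset.mem_cons_of_mem hb)
    have h2 := hs a (Multiset.mem_cons_self a s)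
    have h3 : 0 ≤ (s.map fun a => ‖w - a‖).prod := Multiset.prod_nonneg fun x hx => by
      obtain ⟨y, -, rfl⟩ := Multiset.mem_map.1 hx
      exact norm_nonneg _
    calc ρ ^ s.card * ρ * (‖w - a‖ * (s.map fun a => ‖w - a‖).prod) =
        (ρ * ‖w - a‖) * (ρ ^ s.card * (s.map fun a => ‖w - a‖).prod) := by ring
      _ ≤ ‖z - a‖ * (s.map fun a => ‖z - a‖).prod := mul_le_mul h2 h1 (by positivity) (norm_nonneg _)

/-- **sublevel sets, with a lower bound at one point** -/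
theorem sublevel2 (Q : ℂ[X]) {m : ℕ} (hm : 1 ≤ m) (hd : Q.natDegree ≤ m) {μ : ℝ} (hμ : 0 < μ) {w : ℂ} (hw : ‖w‖ = 1)
    (hQ : μ ≤ ‖Q.eval w‖) {δ : ℝ} (hδ : 0 < δ) : volume {x ∈ Set.Icc (0:ℝ) 1 | ‖Q.eval (e x)‖ ≤ δ} ≤
      ENNReal.ofReal (9 * m * (2 * δ / μ) ^ (1 / m : ℝ)) := by
  set ρ : ℝ := (2 * δ / μ) ^ (1 / m : ℝ) with hρ
  have hρ0 : 0 < ρ := by positivity
  have hm0 : (m:ℝ) ≠ 0 := by positivity
  have hm1 : (1:ℝ) ≤ m := by exact_mod_cast hm
  have hρm : ρ ^ m = 2 * δ / μ := by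
    rw [hρ, ← Real.rpow_natCast, ← Real.rpow_mul (by positivity)]
    rw [one_div_mul_cancel hm0, Real.rpow_one]
  rcases le_or_gt ρ (1 / 3) with h3 | h3
  swap
  · have h1 : volume {x ∈ Set.Icc (0:ℝ) 1 | ‖Q.eval (e x)‖ ≤ δ} ≤ ENNReal.ofReal 1 := by
      refine (measure_mono fun x hx => hx.1).trans ?_
      rw [Real.volume_Icc]
      simp
    refine h1.trans (ENNReal.ofReal_le_ofReal ?_)
    nlinarith
  have hcard : Q.roots.card ≤ m := (Polynomial.card_roots' Q).trans hd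
  have h1 : {x ∈ Set.Icc (0:ℝ) 1 | ‖Q.eval (e x)‖ ≤ δ} ⊆
      ⋃ a ∈ Q.roots.toFinset, {x ∈ Set.Icc (0:ℝ) 1 | ‖e x - a‖ ≤ 3 * ρ} := by
    intro x hx
    by_contra h
    simp only [Set.mem_iUnion, Multiset.mem_toFinset, Set.mem_sep_iff, exists_prop, not_exists, not_and, not_le] at h
    have h2 := prod_lower2 hρ0.le (e x) w Q.roots fun a ha => by
      have h4 := h a ha hx.1
      have h5 : ‖w - a‖ ≤ 2 + ‖e x - a‖ := by
        calc ‖w - a‖ = ‖(w - e x) + (e x - a)‖ := by ring_nf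
          _ ≤ ‖w - e x‖ + ‖e x - a‖ := norm_add_le _ _
          _ ≤ (‖w‖ + ‖e x‖) + ‖e x - a‖ := by gcongr; exact norm_sub_le _ _
          _ = 2 + ‖e x - a‖ := by rw [hw, e_norm]; ring
      nlinarith
    have h3 := hx.2
    rw [norm_eval] at h3 hQ
    have h4 : ρ ^ m ≤ ρ ^ Q.roots.card := pow_le_pow_of_le_one hρ0.le (by linarith) hcard
    have h5 : ρ ^ m * μ ≤ ρ ^ Q.roots.card * (‖Q.leadingCoeff‖ * (Q.roots.map fun a => ‖w - a‖).prod) :=
      mul_le_mul h4 hQ hμ.le (by positivity)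
    have h6 : ρ ^ Q.roots.card * (‖Q.leadingCoeff‖ * (Q.roots.map fun a => ‖w - a‖).prod) ≤
        ‖Q.leadingCoeff‖ * (Q.roots.map fun a => ‖e x - a‖).prod := by
      calc _ = ‖Q.leadingCoeff‖ * (ρ ^ Q.roots.card * (Q.roots.map fun a => ‖w - a‖).prod) := by ring
        _ ≤ _ := mul_le_mul_of_nonneg_left h2 (norm_nonneg _)
    rw [hρm] at h5
    have h7 : 2 * δ / μ * μ = 2 * δ := by field_simp
    linarith
  refine (measure_mono h1).trans ((measure_biUnion_finset_le _ _).trans ?_)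
  calc ∑ a ∈ Q.roots.toFinset, volume {x ∈ Set.Icc (0:ℝ) 1 | ‖e x - a‖ ≤ 3 * ρ}
      ≤ ∑ a ∈ Q.roots.toFinset, ENNReal.ofReal (3 * (3 * ρ)) := Finset.sum_le_sum fun a _ => arc a (by positivity)
    _ = (Q.roots.toFinset.card : ENNReal) * ENNReal.ofReal (3 * (3 * ρ)) := by rw [Finset.sum_const, nsmul_eq_mul]
    _ ≤ (m : ENNReal) * ENNReal.ofReal (3 * (3 * ρ)) := by
      gcongr
      exact (Multiset.toFinset_card_le _).trans hcard
    _ = ENNReal.ofReal (9 * m * ρ) := by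
      rw [show (m : ENNReal) = ENNReal.ofReal m by simp, ← ENNReal.ofReal_mul (by positivity)]
      congr 1
      ring

/-- a nonzero polynomial does not vanish on the whole circle -/
lemma ne_on_circle {Q : ℂ[X]} (hQ : Q ≠ 0) : ∃ x ∈ Set.Icc (0:ℝ) 1, Q.eval (e x) ≠ 0 := by
  by_contra h
  push Not at h
  have h1 : Set.Icc (0:ℝ) 1 ⊆ ⋃ a ∈ Q.roots.toFinset, {x ∈ Set.Icc (0:ℝ) 1 | ‖e x - a‖ ≤ 0} := by
    intro x hx
    simp only [Set.mem_iUnion, Multiset.mem_toFinset, Set.mem_sep_iff, exists_prop]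
    refine ⟨e x, ?_, hx, by simp⟩
    rw [mem_roots hQ]
    exact h x hx
  have h2 : volume (Set.Icc (0:ℝ) 1) ≤ 0 := by
    refine (measure_mono h1).trans ((measure_biUnion_finset_le _ _).trans ?_)
    refine le_of_eq (Finset.sum_eq_zero fun a _ => ?_)
    have h3 := arc a (η := 0) le_rfl
    rw [mul_zero, ENNReal.ofReal_zero] at h3
    exact le_antisymm h3 zero_le
  rw [Real.volume_Icc] at h2
  simp at h2

/-- the polynomial of an imaginary part -/
lemma impoly (P N : ℂ[X]) {D : ℕ} (hP : P.natDegree ≤ D) (hN : N.natDegree ≤ D) :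
    (N * star D P - P * star D N).natDegree ≤ 2 * D ∧
      ∀ z : ℂ, ‖z‖ = 1 → ‖(N * star D P - P * star D N).eval z‖ = 2 * |(N.eval z * conj (P.eval z)).im| := by
  constructor
  · refine (natDegree_sub_le _ _).trans (max_le ?_ ?_)
    · refine (natDegree_mul_le).trans ?_
      have := star_deg D hP
      omega
    · refine (natDegree_mul_le).trans ?_
      have := star_deg D hN
      omega
  · intro z hz
    have h1 : (N * star D P - P * star D N).eval z = z ^ D * ((N.eval z * conj (P.eval z)) -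
        conj (N.eval z * conj (P.eval z))) := by
      simp only [eval_sub, eval_mul]
      rw [star_eval D hP hz, star_eval D hN hz]
      simp only [map_mul, Complex.conj_conj]
      ring
    rw [h1, norm_mul, norm_pow, hz, one_pow, one_mul, Complex.sub_conj, norm_mul, Complex.norm_real, Complex.norm_I,
      mul_one, Real.norm_eq_abs, abs_mul, abs_two]

lemma star_eval' (D : ℕ) {P : ℂ[X]} (h : P.natDegree ≤ D) {z : ℂ} (hz : z ≠ 0) :
    (star D P).eval z = z ^ D * conj (P.eval (conj z)⁻¹) := by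
  let _ : Invertible (z⁻¹) := invertibleOfNonzero (inv_ne_zero hz)
  have h1 : (⅟(z⁻¹) : ℂ) = z := by
    rw [invOf_eq_inv, inv_inv]
  have h2 := eval₂_reflect_mul_pow (RingHom.id ℂ) (z⁻¹) D (P.map (starRingEnd ℂ))
    ((natDegree_map_le).trans h)
  rw [h1] at h2
  unfold star
  have h3 : eval₂ (RingHom.id ℂ) (z⁻¹) (P.map (starRingEnd ℂ)) = conj (P.eval (conj z)⁻¹) := by
    have h4 : z⁻¹ = conj ((conj z)⁻¹) := by rw [map_inv₀, Complex.conj_conj]
    rw [h4, eval₂_id, eval_map, eval₂_at_apply]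
  rw [h3] at h2
  change eval z (reflect D (P.map (starRingEnd ℂ))) * (z⁻¹) ^ D = _ at h2
  have h4 : (z⁻¹) ^ D * z ^ D = 1 := by rw [← mul_pow, inv_mul_cancel₀ hz, one_pow]
  calc eval z (reflect D (P.map (starRingEnd ℂ))) =
      (eval z (reflect D (P.map (starRingEnd ℂ))) * (z⁻¹) ^ D) * z ^ D := by
        rw [mul_assoc, h4, mul_one]
    _ = z ^ D * conj (P.eval (conj z)⁻¹) := by rw [h2, mul_comm]

/-- the imaginary part does not vanish identically -/
lemma impoly_ne {P N : ℂ[X]} {D : ℕ} (hP : P.natDegree = D) (hN : N.natDegree ≤ D) (hN0 : N.coeff 0 = 0) (hNne : N ≠ 0)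
    (hPz : ∀ z : ℂ, ‖z‖ ≤ 1 → P.eval z ≠ 0) : N * star D P - P * star D N ≠ 0 := by
  intro h
  have hPne : P ≠ 0 := by
    rintro rfl
    exact hPz 0 (by simp) (by simp)
  have h1 : N * star D P = P * star D N := sub_eq_zero.1 h
  have hcop : IsCoprime P (star D P) := by
    refine (Polynomial.isCoprime_iff_aeval_ne_zero_of_isAlgClosed ℂ ℂ P (star D P)).2 fun z => ?_
    simp only [coe_aeval_eq_eval]
    rcases le_or_gt ‖z‖ 1 with hz | hz
    · exact Or.inl (hPz z hz)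
    · right
      have hz0 : z ≠ 0 := by
        rintro rfl
        rw [norm_zero] at hz
        linarith
      rw [star_eval' D hP.le hz0]
      refine mul_ne_zero (pow_ne_zero _ hz0) ?_
      rw [Ne, map_eq_zero]
      refine hPz _ ?_
      rw [norm_inv, RCLike.norm_conj]
      exact inv_le_one_of_one_le₀ hz.le
  have h2 : P ∣ N := hcop.dvd_of_dvd_mul_right ⟨star D N, h1⟩
  obtain ⟨R, hR⟩ := h2
  have hRne : R ≠ 0 := by
    rintro rfl
    rw [mul_zero] at hR
    exact hNne hR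
  have h3 : R.natDegree = 0 := by
    rw [hR, natDegree_mul hPne hRne, hP] at hN
    omega
  rw [natDegree_eq_zero] at h3
  obtain ⟨c, rfl⟩ := h3
  rw [hR, mul_comm, coeff_C_mul] at hN0
  have h4 : P.coeff 0 ≠ 0 := by
    rw [coeff_zero_eq_eval_zero]
    exact hPz 0 (by simp)
  have h5 : c = 0 := by
    rcases mul_eq_zero.1 hN0 with h | h
    · exact h
    · exact absurd h h4
  apply hRne
  rw [h5, C_0]

end Run7.h401.SD
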