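import Mathlib
import Pool.Agent.Run7.h401.SD.Vec

/-!
The curve of two polynomials.
-/

set_option autoImplicit false

open MeasureTheory Filter Topology Polynomial
open scoped ComplexConjugate ContDiff

namespace Run7.h401.SD

/-- uniformity by compactness -/
lemma unif_low {V : Type} [NormedAddCommGroup V] [InnerProductSpace ℝ V] [FiniteDimensional ℝ V] {X1 : ℝ → V}
    (hc : Continuous X1) (h : ∀ u : V, ‖u‖ = 1 → ∃ x ∈ Set.Icc (0:ℝ) 1, (inner ℝ (X1 x) u : ℝ) ≠ 0) :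
    ∃ μ : ℝ, 0 < μ ∧ ∀ u : V, ‖u‖ = 1 → ∃ x ∈ Set.Icc (0:ℝ) 1, μ ≤ |(inner ℝ (X1 x) u : ℝ)| := by
  set F : V → ℝ := fun u => ∫ x in (0:ℝ)..1, (inner ℝ (X1 x) u : ℝ) ^ 2 with hF
  have hFc : Continuous F := by
    apply intervalIntegral.continuous_parametric_intervalIntegral_of_continuous'
    unfold Function.uncurry
    fun_prop
  rcases (Metric.sphere (0:V) 1).eq_empty_or_nonempty with he | hne
  · refine ⟨1, one_pos, fun u hu => ?_⟩
    have : u ∈ Metric.sphere (0:V) 1 := by simpa using hu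
    rw [he] at this
    exact absurd this (Set.notMem_empty _)
  obtain ⟨u₀, hu₀, hmin⟩ := (isCompact_sphere (0:V) 1).exists_isMinOn hne hFc.continuousOn
  have hpos : 0 < F u₀ := by
    have hu1 : ‖u₀‖ = 1 := by simpa using hu₀
    obtain ⟨x, hx, hxn⟩ := h u₀ hu1
    refine intervalIntegral.integral_pos zero_lt_one ?_ ?_ ⟨x, hx, by positivity⟩
    · exact (by fun_prop : Continuous fun x => (inner ℝ (X1 x) u₀ : ℝ) ^ 2).continuousOn
    · intro y _
      positivity
  refine ⟨Real.sqrt (F u₀ / 2), Real.sqrt_pos.2 (by positivity), fun u hu => ?_⟩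
  by_contra hcon
  push Not at hcon
  have h1 : F u₀ ≤ F u := hmin (by simpa using hu)
  have h2 : F u ≤ F u₀ / 2 := by
    have h3 : F u ≤ ∫ x in (0:ℝ)..1, F u₀ / 2 := by
      apply intervalIntegral.integral_mono_on zero_le_one
      · exact (by fun_prop : Continuous fun x => (inner ℝ (X1 x) u : ℝ) ^ 2).intervalIntegrable _ _
      · exact intervalIntegrable_const
      · intro x hx
        have h4 := (hcon x hx).le
        have h5 := Real.sq_sqrt (show 0 ≤ F u₀ / 2 by positivity)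
        rw [← sq_abs, ← h5]
        exact pow_le_pow_left₀ (abs_nonneg _) h4 2
    rw [intervalIntegral.integral_const] at h3
    simpa using h3
  linarith

/-- from the circle to the disc -/
lemma ball_disc {Q : ℂ[X]} {r : ℝ} (h : ∀ z : ℂ, ‖z‖ = 1 → ‖Q.eval z - 1‖ ≤ r) {z : ℂ} (hz : ‖z‖ ≤ 1) :
    ‖Q.eval z - 1‖ ≤ r := by
  have hd : DiffContOnCl ℂ (fun z : ℂ => Q.eval z - 1) (Metric.ball 0 1) :=
    (Q.differentiable.sub (differentiable_const _)).diffContOnCl
  refine Complex.norm_le_of_forall_mem_frontier_norm_le Metric.isBounded_ball hd (fun w hw => ?_)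
    (z := z) ?_
  · rw [frontier_ball (0:ℂ) one_ne_zero] at hw
    exact h w (by simpa using hw)
  · rw [closure_ball (0:ℂ) one_ne_zero]
    simpa using hz

variable {ι ι' : Type}

/-- the pair of curves -/
noncomputable def Xp (G : Finset ι) (Q : ι → ℂ[X]) (G' : Finset ι') (Q' : ι' → ℂ[X]) (x : ℝ) : WithLp 2 (ℂ × ℂ) :=
  WithLp.toLp 2 (Xc G Q x, Xc G' Q' x)

lemma inner_pair (z w : WithLp 2 (ℂ × ℂ)) :
    (inner ℝ z w : ℝ) = (z.ofLp.1 * conj w.ofLp.1).re + (z.ofLp.2 * conj w.ofLp.2).re := by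
  rw [WithLp.prod_inner_apply, Complex.inner, Complex.inner]
  congr 1
  · simp only [Complex.mul_re, Complex.conj_re, Complex.conj_im]
    ring
  · simp only [Complex.mul_re, Complex.conj_re, Complex.conj_im]
    ring

lemma toLp_smooth {f g : ℝ → ℂ} (hf : ContDiff ℝ ∞ f) (hg : ContDiff ℝ ∞ g) :
    ContDiff ℝ ∞ fun x => (WithLp.toLp 2 (f x, g x) : WithLp 2 (ℂ × ℂ)) := by
  have h1 : ContDiff ℝ ∞ fun x => (f x, g x) := hf.prodMk hg
  exact (WithLp.prodContinuousLinearEquiv 2 ℝ ℂ ℂ).symm.contDiff.comp h1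

lemma toLp_deriv {f g : ℝ → ℂ} {f' g' : ℂ} {x : ℝ} (hf : HasDerivAt f f' x) (hg : HasDerivAt g g' x) :
    HasDerivAt (fun x => (WithLp.toLp 2 (f x, g x) : WithLp 2 (ℂ × ℂ))) (WithLp.toLp 2 (f', g')) x := by
  have h1 : HasDerivAt (fun x => (f x, g x)) (f', g') x := hf.prodMk hg
  exact ((WithLp.prodContinuousLinearEquiv 2 ℝ ℂ ℂ).symm.toContinuousLinearMap.hasFDerivAt.comp_hasDerivAt x h1)

/-- **decay for one prime, two curves** -/
theorem curve_decay2 {G : Finset ι} {Q : ι → ℂ[X]} {G' : Finset ι'} {Q' : ι' → ℂ[X]} {r : ℝ} (hr : r < 1)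
    (hQ0 : ∀ v ∈ G, (Q v).coeff 0 = 1) (hQ0' : ∀ v ∈ G', (Q' v).coeff 0 = 1)
    (hb : ∀ v ∈ G, ∀ z : ℂ, ‖z‖ = 1 → ‖(Q v).eval z - 1‖ ≤ r)
    (hb' : ∀ v ∈ G', ∀ z : ℂ, ‖z‖ = 1 → ‖(Q' v).eval z - 1‖ ≤ r)
    (hD1 : 1 ≤ (∏ v ∈ G, Q v).natDegree) (hD1' : 1 ≤ (∏ v ∈ G', Q' v).natDegree)
    (hind : (∏ v ∈ G, Q v) ^ (∏ v ∈ G', Q' v).natDegree ≠ (∏ v ∈ G', Q' v) ^ (∏ v ∈ G, Q v).natDegree) {M : ℕ}
    (hDM : 2 * ((∏ v ∈ G, Q v).natDegree + (∏ v ∈ G', Q' v).natDegree) ≤ M) :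
    ∃ C : ℝ, 0 < C ∧ ∀ ξ : WithLp 2 (ℂ × ℂ), 1 ≤ ‖ξ‖ →
      ‖∫ x in Set.Icc (0:ℝ) 1, Complex.exp ((inner ℝ (Xp G Q G' Q' x) ξ : ℝ) * Complex.I)‖ ≤
        C * ‖ξ‖ ^ (-(1 / (M : ℝ) / 8)) := by
  have hlt : ∀ v ∈ G, ∀ z : ℂ, ‖z‖ = 1 → ‖(Q v).eval z - 1‖ < 1 := fun v hv z hz => (hb v hv z hz).trans_lt hr
  have hlt' : ∀ v ∈ G', ∀ z : ℂ, ‖z‖ = 1 → ‖(Q' v).eval z - 1‖ < 1 := fun v hv z hz => (hb' v hv z hz).trans_lt hr
  set P₁ : ℂ[X] := ∏ v ∈ G, Q v with hP₁
  set P₂ : ℂ[X] := ∏ v ∈ G', Q' v with hP₂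
  set D₁ : ℕ := P₁.natDegree with hDD₁
  set D₂ : ℕ := P₂.natDegree with hDD₂
  have hX := Xc_smooth hlt
  have hX' := Xc_smooth hlt'
  have hX1 : ContDiff ℝ ∞ (deriv (Xc G Q)) := by simpa using hX.iterate_deriv 1
  have hX1' : ContDiff ℝ ∞ (deriv (Xc G' Q')) := by simpa using hX'.iterate_deriv 1
  have hX2 : ContDiff ℝ ∞ (deriv (deriv (Xc G Q))) := by simpa using hX1.iterate_deriv 1
  have hX2' : ContDiff ℝ ∞ (deriv (deriv (Xc G' Q'))) := by simpa using hX1'.iterate_deriv 1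
  have hd : ∀ {f : ℝ → ℂ}, ContDiff ℝ ∞ f → ∀ x, HasDerivAt f (deriv f x) x := fun hf x =>
    (hf.differentiable (by simp)).differentiableAt.hasDerivAt
  -- the polynomials have no zeros in the disc
  have hz₁ : ∀ z : ℂ, ‖z‖ ≤ 1 → P₁.eval z ≠ 0 := by
    intro z hz
    rw [hP₁, eval_prod]
    refine Finset.prod_ne_zero_iff.2 fun v hv h0 => ?_
    have h1 := (ball_disc (hb v hv) hz).trans_lt hr
    rw [h0, zero_sub, norm_neg, norm_one] at h1
    exact lt_irrefl _ h1
  have hz₂ : ∀ z : ℂ, ‖z‖ ≤ 1 → P₂.eval z ≠ 0 := by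
    intro z hz
    rw [hP₂, eval_prod]
    refine Finset.prod_ne_zero_iff.2 fun v hv h0 => ?_
    have h1 := (ball_disc (hb' v hv) hz).trans_lt hr
    rw [h0, zero_sub, norm_neg, norm_one] at h1
    exact lt_irrefl _ h1
  have hc₁ : P₁.coeff 0 = 1 := by
    rw [coeff_zero_eq_eval_zero, hP₁, eval_prod]
    refine Finset.prod_eq_one fun v hv => ?_
    rw [← coeff_zero_eq_eval_zero]
    exact hQ0 v hv
  have hc₂ : P₂.coeff 0 = 1 := by
    rw [coeff_zero_eq_eval_zero, hP₂, eval_prod]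
    refine Finset.prod_eq_one fun v hv => ?_
    rw [← coeff_zero_eq_eval_zero]
    exact hQ0' v hv
  have hn₁ : P₁ ≠ 0 := by rintro h; rw [h] at hc₁; simp at hc₁
  have hn₂ : P₂ ≠ 0 := by rintro h; rw [h] at hc₂; simp at hc₂
  set P : ℂ[X] := P₁ * P₂ with hP
  have hPd : P.natDegree = D₁ + D₂ := natDegree_mul hn₁ hn₂
  have hPz : ∀ z : ℂ, ‖z‖ ≤ 1 → P.eval z ≠ 0 := fun z hz => by
    rw [hP, eval_mul]
    exact mul_ne_zero (hz₁ z hz) (hz₂ z hz)
  -- the numerators
  set N : ℂ → ℂ → ℂ[X] := fun c d => C c * (X * derivative P₁ * P₂) + C d * (X * P₁ * derivative P₂) with hN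
  have hNd : ∀ c d, (N c d).natDegree ≤ D₁ + D₂ := by
    intro c d
    rw [hN]
    have e1 := natDegree_derivative_le P₁
    have e2 := natDegree_derivative_le P₂
    refine (natDegree_add_le _ _).trans (max_le ?_ ?_)
    · refine (natDegree_C_mul_le _ _).trans ((natDegree_mul_le).trans ?_)
      have e3 : (X * derivative P₁ : ℂ[X]).natDegree ≤ 1 + (derivative P₁).natDegree :=
        (natDegree_mul_le).trans (by rw [natDegree_X])
      omega
    · refine (natDegree_C_mul_le _ _).trans ((natDegree_mul_le).trans ?_)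
      have e3 : (X * P₁ : ℂ[X]).natDegree ≤ 1 + P₁.natDegree := (natDegree_mul_le).trans (by rw [natDegree_X])
      omega
  have hN0 : ∀ c d, (N c d).coeff 0 = 0 := by
    intro c d
    rw [hN]
    simp [mul_assoc]
  -- the formula for the derivative
  have hform : ∀ (u : WithLp 2 (ℂ × ℂ)) (x : ℝ),
      (inner ℝ (WithLp.toLp 2 (deriv (Xc G Q) x, deriv (Xc G' Q') x) : WithLp 2 (ℂ × ℂ)) u : ℝ) *
        ‖P.eval (e x)‖ ^ 2 =
      2 * Real.pi * ((N (conj u.ofLp.1) (conj u.ofLp.2)).eval (e x) * conj (P.eval (e x))).im := by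
    intro u x
    have h1 := Xc_deriv hlt x
    have h2 := Xc_deriv hlt' x
    rw [← hP₁] at h1
    rw [← hP₂] at h2
    rw [inner_pair]
    simp only
    set z : ℂ := e x with hz
    set a : ℂ := deriv (Xc G Q) x with ha
    set b : ℂ := deriv (Xc G' Q') x with hb
    have h3 : (a * conj u.ofLp.1 + b * conj u.ofLp.2) * ((‖P.eval z‖ ^ 2 : ℝ) : ℂ) =
        -(2 * Real.pi * Complex.I) * ((N (conj u.ofLp.1) (conj u.ofLp.2)).eval z * conj (P.eval z)) := by
      have h4 : ((‖P.eval z‖ ^ 2 : ℝ) : ℂ) = P.eval z * conj (P.eval z) := by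
        rw [Complex.mul_conj, Complex.normSq_eq_norm_sq]
      rw [h4, hN, hP]
      simp only [eval_add, eval_mul, eval_C, eval_X]
      linear_combination (conj u.ofLp.1 * P₂.eval z * conj (P₁.eval z * P₂.eval z)) * h1 +
        (conj u.ofLp.2 * P₁.eval z * conj (P₁.eval z * P₂.eval z)) * h2
    have h4 := congrArg Complex.re h3
    rw [Complex.re_mul_ofReal, Complex.add_re] at h4
    rw [h4]
    generalize ((N (conj u.ofLp.1) (conj u.ofLp.2)).eval z * conj (P.eval z)) = w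
    simp [Complex.mul_re]
  -- no degenerate directions
  have hnd : ∀ c d : ℂ, ¬ (c = 0 ∧ d = 0) → N c d ≠ 0 := by
    intro c d hcd h0
    -- the leading coefficient
    have hlc : c * D₁ + d * D₂ = 0 := by
      have h1 : (N c d).coeff (D₁ + D₂) = (c * D₁ + d * D₂) * (P₁.leadingCoeff * P₂.leadingCoeff) := by
        rw [hN]
        simp only [coeff_add, coeff_C_mul]
        have e1 : (X * derivative P₁ * P₂).coeff (D₁ + D₂) = D₁ * P₁.leadingCoeff * P₂.leadingCoeff := by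
          have e3 : (X * derivative P₁ : ℂ[X]).natDegree ≤ D₁ := by
            have := natDegree_derivative_le P₁
            refine (natDegree_mul_le).trans ?_
            rw [natDegree_X]
            omega
          rw [coeff_mul_add_eq_of_natDegree_le e3 le_rfl]
          congr 1
          obtain ⟨k, hk⟩ : ∃ k, D₁ = k + 1 := ⟨D₁ - 1, by omega⟩
          rw [hk, coeff_X_mul, coeff_derivative, leadingCoeff, ← hDD₁, hk]
          push_cast
          ring
        have e2 : (X * P₁ * derivative P₂).coeff (D₁ + D₂) = D₂ * P₁.leadingCoeff * P₂.leadingCoeff := by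
          have e4 : (X * P₁ * derivative P₂ : ℂ[X]) = P₁ * (X * derivative P₂) := by ring
          have e3 : (X * derivative P₂ : ℂ[X]).natDegree ≤ D₂ := by
            have := natDegree_derivative_le P₂
            refine (natDegree_mul_le).trans ?_
            rw [natDegree_X]
            omega
          rw [e4, coeff_mul_add_eq_of_natDegree_le le_rfl e3]
          obtain ⟨k, hk⟩ : ∃ k, D₂ = k + 1 := ⟨D₂ - 1, by omega⟩
          have e5 : (X * derivative P₂ : ℂ[X]).coeff D₂ = D₂ * P₂.leadingCoeff := by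
            rw [hk, coeff_X_mul, coeff_derivative, leadingCoeff, ← hDD₂, hk]
            push_cast
            ring
          rw [e5]
          show P₁.leadingCoeff * _ = _
          ring
        rw [e1, e2]
        ring
      rw [h0, coeff_zero] at h1
      rcases mul_eq_zero.1 h1.symm with h | h
      · exact h
      · exact absurd h (mul_ne_zero (leadingCoeff_ne_zero.2 hn₁) (leadingCoeff_ne_zero.2 hn₂))
    -- so the two logarithms are proportional
    have hd1 : (D₁ : ℂ) ≠ 0 := by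
      have : D₁ ≠ 0 := by omega
      exact_mod_cast this
    have hd2 : (D₂ : ℂ) ≠ 0 := by
      have : D₂ ≠ 0 := by omega
      exact_mod_cast this
    have hc0 : c ≠ 0 := by
      intro hc
      rw [hc, zero_mul, zero_add] at hlc
      exact hcd ⟨hc, (mul_eq_zero.1 hlc).resolve_right hd2⟩
    have hW : (D₂ : ℂ) • (derivative P₁ * P₂) = (D₁ : ℂ) • (P₁ * derivative P₂) := by
      have h2 : X * (C c * (derivative P₁ * P₂) + C d * (P₁ * derivative P₂)) = 0 := by
        rw [← h0, hN]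
        ring
      have h3 := (mul_eq_zero.1 h2).resolve_left X_ne_zero
      have h4 : d = -(c * D₁ / D₂) := by field_simp; linear_combination hlc
      rw [smul_eq_C_mul, smul_eq_C_mul]
      have h5 : C c * (C (D₂:ℂ) * (derivative P₁ * P₂)) = C c * (C (D₁:ℂ) * (P₁ * derivative P₂)) := by
        have h6 : C (D₂:ℂ) * (C c * (derivative P₁ * P₂) + C d * (P₁ * derivative P₂)) = 0 := by rw [h3, mul_zero]
        have h7 : C (D₂:ℂ) * C d = -(C c * C (D₁:ℂ)) := by
          rw [← C_mul, ← C_mul, ← C_neg]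
          congr 1
          rw [h4]
          field_simp
        linear_combination h6 - (P₁ * derivative P₂) * h7
      exact mul_left_cancel₀ (C_ne_zero.2 hc0) h5
    apply hind
    -- the powers have proportional values on the circle
    have hexp : ∃ κ : ℂ, ∀ x : ℝ, (D₂ : ℂ) * Xc G Q x - D₁ * Xc G' Q' x = κ := by
      refine ⟨_, fun x => is_const_of_deriv_eq_zero (f := fun x => (D₂ : ℂ) * Xc G Q x - D₁ * Xc G' Q' x) ?_ ?_ x 0⟩
      · exact (contDiff_const.mul hX |>.sub (contDiff_const.mul hX')).differentiable (by simp)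
      · intro x
        have h1 := Xc_deriv hlt x
        have h2 := Xc_deriv hlt' x
        rw [← hP₁] at h1
        rw [← hP₂] at h2
        have h3 : HasDerivAt (fun x => (D₂ : ℂ) * Xc G Q x - D₁ * Xc G' Q' x)
            (D₂ * deriv (Xc G Q) x - D₁ * deriv (Xc G' Q') x) x :=
          ((hd hX x).const_mul _).sub ((hd hX' x).const_mul _)
        rw [h3.deriv]
        have h4 := congrArg (fun R : ℂ[X] => R.eval (e x)) hW
        simp only [eval_smul, eval_mul, smul_eq_mul] at h4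
        have h5 : P₁.eval (e x) * P₂.eval (e x) ≠ 0 :=
          mul_ne_zero (hz₁ _ (e_norm x).le) (hz₂ _ (e_norm x).le)
        have h6 : (D₂ * deriv (Xc G Q) x - D₁ * deriv (Xc G' Q') x) * (P₁.eval (e x) * P₂.eval (e x)) = 0 := by
          linear_combination (D₂ * P₂.eval (e x)) * h1 - (D₁ * P₁.eval (e x)) * h2 -
            (2 * Real.pi * Complex.I * e x) * h4
        exact (mul_eq_zero.1 h6).resolve_right h5
    obtain ⟨κ, hκ⟩ := hexp
    have hval : ∀ x : ℝ, (P₁ ^ D₂).eval (e x) = Complex.exp (-κ) * (P₂ ^ D₁).eval (e x) := by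
      intro x
      rw [eval_pow, eval_pow, hP₁, hP₂, ← Xc_exp hlt, ← Xc_exp hlt', ← Complex.exp_nat_mul, ← Complex.exp_nat_mul,
        ← Complex.exp_add, ← hκ x]
      congr 1
      ring
    have hpoly : P₁ ^ D₂ = C (Complex.exp (-κ)) * P₂ ^ D₁ := by
      by_contra hne
      obtain ⟨x, -, hx⟩ := ne_on_circle (sub_ne_zero.2 hne)
      apply hx
      rw [eval_sub, hval x, eval_mul, eval_C, sub_self]
    have h1 := congrArg (fun R : ℂ[X] => R.coeff 0) hpoly
    simp only [coeff_C_mul] at h1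
    rw [coeff_zero_eq_eval_zero, coeff_zero_eq_eval_zero, eval_pow, eval_pow, ← coeff_zero_eq_eval_zero,
      ← coeff_zero_eq_eval_zero, hc₁, hc₂, one_pow, one_pow, mul_one] at h1
    rw [hpoly, ← h1, C_1, one_mul]
  -- the curve
  set X1 : ℝ → WithLp 2 (ℂ × ℂ) := fun x => WithLp.toLp 2 (deriv (Xc G Q) x, deriv (Xc G' Q') x) with hX1def
  set X2 : ℝ → WithLp 2 (ℂ × ℂ) := fun x => WithLp.toLp 2 (deriv (deriv (Xc G Q)) x, deriv (deriv (Xc G' Q')) x) with hX2def
  set D : ℕ := D₁ + D₂ with hD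
  set Qu : WithLp 2 (ℂ × ℂ) → ℂ[X] := fun u => N (conj u.ofLp.1) (conj u.ofLp.2) * star D P -
    P * star D (N (conj u.ofLp.1) (conj u.ofLp.2)) with hQu
  have hQud : ∀ u, (Qu u).natDegree ≤ 2 * D := fun u => (impoly P _ hPd.le (hNd _ _)).1
  have hQuv : ∀ u x, ‖(Qu u).eval (e x)‖ * Real.pi = |(inner ℝ (X1 x) u : ℝ)| * ‖P.eval (e x)‖ ^ 2 := by
    intro u x
    have h1 := (impoly P _ hPd.le (hNd (conj u.ofLp.1) (conj u.ofLp.2))).2 (e x) (e_norm x)
    rw [hQu]
    simp only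
    rw [h1]
    have h2 := congrArg abs (hform u x)
    rw [abs_mul, abs_mul, abs_mul, abs_two, abs_of_pos Real.pi_pos, abs_of_nonneg (sq_nonneg ‖P.eval (e x)‖)] at h2
    rw [hX1def]
    simp only
    rw [h2]
    ring
  have hlow := unif_low (X1 := X1) (toLp_smooth hX1 hX1').continuous (fun u hu => by
    have hu0 : ¬ (conj u.ofLp.1 = 0 ∧ conj u.ofLp.2 = 0) := by
      rintro ⟨h1, h2⟩
      rw [map_eq_zero] at h1 h2
      have : u = 0 := by
        rw [← WithLp.toLp_ofLp 2 u]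
        have h3 : u.ofLp = 0 := Prod.ext h1 h2
        rw [h3]
        rfl
      rw [this, norm_zero] at hu
      exact zero_ne_one hu
    have h1 : Qu u ≠ 0 := impoly_ne hPd (hNd _ _) (hN0 _ _) (hnd _ _ hu0) hPz
    obtain ⟨x, hx, hx1⟩ := ne_on_circle h1
    refine ⟨x, hx, fun h0 => ?_⟩
    have h2 := hQuv u x
    rw [h0, abs_zero, zero_mul] at h2
    rcases mul_eq_zero.1 h2 with h3 | h3
    · exact hx1 (norm_eq_zero.1 h3)
    · exact Real.pi_ne_zero h3)
  obtain ⟨μ, hμ, hlow⟩ := hlow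
  -- bounds for `P`
  set B : ℝ := 2 ^ (G.card + G'.card) with hB
  set p0 : ℝ := (1 - r) ^ (G.card + G'.card) with hp0
  have hB0 : 0 < B := by positivity
  have hp00 : 0 < p0 := pow_pos (by linarith) _
  have hPB : ∀ x, p0 ≤ ‖P.eval (e x)‖ ∧ ‖P.eval (e x)‖ ≤ B := by
    intro x
    have hf : ∀ w : ℂ, ‖w - 1‖ ≤ r → 1 - r ≤ ‖w‖ ∧ ‖w‖ ≤ 2 := by
      intro w hw
      have h1 := norm_sub_norm_le (1:ℂ) (1 - w)
      have h2 : (1:ℂ) - (1 - w) = w := by ring
      rw [h2, norm_one, norm_sub_rev] at h1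
      have h3 : ‖w‖ ≤ ‖w - 1‖ + 1 := by
        calc ‖w‖ = ‖(w - 1) + 1‖ := by ring_nf
          _ ≤ ‖w - 1‖ + ‖(1:ℂ)‖ := norm_add_le _ _
          _ = ‖w - 1‖ + 1 := by rw [norm_one]
      constructor <;> linarith
    rw [hP, eval_mul, norm_mul, hP₁, hP₂, eval_prod, eval_prod, norm_prod, norm_prod, hp0, hB, pow_add, pow_add]
    constructor
    · refine mul_le_mul ?_ ?_ (pow_nonneg (by linarith) _) (Finset.prod_nonneg fun _ _ => norm_nonneg _)
      · rw [← Finset.prod_const]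
        exact Finset.prod_le_prod (fun _ _ => by linarith) fun v hv => (hf _ (hb v hv _ (e_norm x))).1
      · rw [← Finset.prod_const]
        exact Finset.prod_le_prod (fun _ _ => by linarith) fun v hv => (hf _ (hb' v hv _ (e_norm x))).1
    · refine mul_le_mul ?_ ?_ (Finset.prod_nonneg fun _ _ => norm_nonneg _) (by positivity)
      · rw [← Finset.prod_const]
        exact Finset.prod_le_prod (fun _ _ => norm_nonneg _) fun v hv => (hf _ (hb v hv _ (e_norm x))).2
      · rw [← Finset.prod_const]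
        exact Finset.prod_le_prod (fun _ _ => norm_nonneg _) fun v hv => (hf _ (hb' v hv _ (e_norm x))).2
  set μ' : ℝ := μ * p0 ^ 2 / Real.pi with hμ'
  have hμ'0 : 0 < μ' := by positivity
  have hm0 : (0:ℝ) < ((2 * D : ℕ) : ℝ) := by
    have : 0 < 2 * D := by omega
    exact_mod_cast this
  have hM0 : (0:ℝ) < M := lt_of_lt_of_le hm0 (by exact_mod_cast hDM)
  refine osc_decay_vec (X := Xp G Q G' Q') (X1 := X1) (X2 := X2)
    (A := 9 * ((2 * D : ℕ) : ℝ) * (2 * B ^ 2 / μ') ^ (1 / ((2 * D : ℕ) : ℝ))) (b := 1 / (M : ℝ))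
    (fun x => toLp_deriv (hd hX x) (hd hX' x)) (fun x => toLp_deriv (hd hX1 x) (hd hX1' x))
    (toLp_smooth hX2 hX2').continuous ?_ ?_ (by positivity) ?_ ?_
  · unfold Xp Xc
    rw [e_one, e_zero]
  · have h1 := Xc_deriv hlt 1
    have h0 := Xc_deriv hlt 0
    rw [← hP₁, e_one] at h1
    rw [← hP₁, e_zero] at h0
    have h2 : P₁.eval 1 ≠ 0 := hz₁ 1 (by simp)
    have h3 := mul_right_cancel₀ h2 (h1.trans h0.symm)
    have h1' := Xc_deriv hlt' 1
    have h0' := Xc_deriv hlt' 0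
    rw [← hP₂, e_one] at h1'
    rw [← hP₂, e_zero] at h0'
    have h2' : P₂.eval 1 ≠ 0 := hz₂ 1 (by simp)
    have h3' := mul_right_cancel₀ h2' (h1'.trans h0'.symm)
    rw [hX1def]
    simp only [h3, h3']
  · rw [div_le_one hM0]
    have : 1 ≤ M := by omega
    exact_mod_cast this
  · intro u hu τ hτ hτ1
    obtain ⟨x₀, hx₀, hx₀'⟩ := hlow u hu
    have hQx : μ' ≤ ‖(Qu u).eval (e x₀)‖ := by
      rw [hμ', div_le_iff₀ Real.pi_pos, hQuv]
      have := (hPB x₀).1
      gcongr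
    have hsub : {x ∈ Set.Icc (0:ℝ) 1 | |(inner ℝ (X1 x) u : ℝ)| ≤ τ} ⊆
        {x ∈ Set.Icc (0:ℝ) 1 | ‖(Qu u).eval (e x)‖ ≤ τ * B ^ 2} := by
      intro x hx
      refine ⟨hx.1, ?_⟩
      have h1 := hQuv u x
      have h2 : |(inner ℝ (X1 x) u : ℝ)| * ‖P.eval (e x)‖ ^ 2 ≤ τ * B ^ 2 :=
        mul_le_mul hx.2 (pow_le_pow_left₀ (norm_nonneg _) (hPB x).2 2) (by positivity) hτ.le
      have h7 : 1 ≤ Real.pi := by linarith [Real.pi_gt_three]
      have h8 := norm_nonneg ((Qu u).eval (e x))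
      nlinarith
    refine (measure_mono hsub).trans ?_
    refine (sublevel2 (Qu u) (m := 2 * D) (by omega) (hQud u) hμ'0 (e_norm x₀) hQx (δ := τ * B ^ 2)
      (by positivity)).trans ?_
    apply ENNReal.ofReal_le_ofReal
    have h1 : 2 * (τ * B ^ 2) / μ' = (2 * B ^ 2 / μ') * τ := by ring
    rw [h1, Real.mul_rpow (by positivity) hτ.le, ← mul_assoc]
    apply mul_le_mul_of_nonneg_left _ (by positivity)
    apply Real.rpow_le_rpow_of_exponent_ge hτ hτ1
    exact one_div_le_one_div_of_le hm0 (by exact_mod_cast hDM)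

end Run7.h401.SD
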