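import Mathlib
import Pool.Agent.Run7.h113.LE.Tw
import Pool.Agent.Run7.h401.SD.Main
import Pool.Agent.Run7.h401.SD.Pair

/-!
Two random Euler products on one torus.
-/

set_option autoImplicit false

open MeasureTheory Filter Topology NumberField IsDedekindDomain Polynomial
open scoped ENNReal ComplexConjugate
open Pool.Agent.H921R2.TatePole (nm two_le_nm below deg nm_eq below_le_nm card_above fiber_finite)
open Pool.Agent.H341R2.EC
open Pool.Agent.R433.MD (lf norm_nm_cpow lf_sub_one nm_pos)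
open Pool.Agent.W350.EdgeV (FV mem_FV tendsto_FV)
open Pool.Agent.W350.EdgeNF (hfin)
open Run7.h113.LE

namespace Run7.h401.SD

lemma e_add (x y : ℝ) : e (x + y) = e x * e y := by
  unfold e
  rw [← Complex.exp_add]
  congr 1
  push_cast
  ring

/-- the shifted polynomials -/
noncomputable def sh {ι : Type} (a : ℂ) (Q : ι → ℂ[X]) (v : ι) : ℂ[X] := (Q v).comp (C a * X)

lemma sh_eval {ι : Type} (a : ℂ) (Q : ι → ℂ[X]) (v : ι) (z : ℂ) : (sh a Q v).eval z = (Q v).eval (a * z) := by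
  unfold sh
  simp

lemma Xc_sh {ι : Type} (G : Finset ι) (Q : ι → ℂ[X]) (s x : ℝ) : Xc G (sh (e s) Q) x = Xc G Q (x + s) := by
  unfold Xc
  refine Finset.sum_congr rfl fun v _ => ?_
  rw [sh_eval, e_add, mul_comm]

lemma prod_sh {ι : Type} (G : Finset ι) (a : ℂ) (Q : ι → ℂ[X]) :
    ∏ v ∈ G, sh a Q v = (∏ v ∈ G, Q v).comp (C a * X) := by
  unfold sh
  rw [prod_comp]

section one
variable {K : Type} [Field K] [NumberField K]

/-- the Euler polynomial of a place, in the variable of the rational prime -/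
noncomputable def Ep (V : HeightOneSpectrum (𝓞 K) → WeierstrassCurve (𝓞 K)) (v : HeightOneSpectrum (𝓞 K)) : ℂ[X] :=
  1 - C (trc V v : ℂ) * X ^ deg v + C (dlt V v * ((nm v : ℕ) : ℂ)) * X ^ (2 * deg v)

/-- the number `p^(-s)` -/
noncomputable def yy (p : ℕ) (σ : ℝ) : ℂ := (p : ℂ) ^ (-((3:ℂ) / 2 + σ))

lemma Qv_comp (V : HeightOneSpectrum (𝓞 K) → WeierstrassCurve (𝓞 K)) (σ : ℝ) {p : ℕ} {v : HeightOneSpectrum (𝓞 K)}
    (hv : (below v : ℕ) = p) : Qv V σ v = (Ep V v).comp (C (yy p σ) * X) := by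
  apply Polynomial.funext
  intro z
  have hp : p.Prime := by rw [← hv]; exact (below v).2
  have hp0 : (p : ℂ) ≠ 0 := by exact_mod_cast hp.ne_zero
  have hnm : ((nm v : ℕ) : ℂ) = (p : ℂ) ^ deg v := by
    have := (nm_eq v).1
    rw [hv] at this
    rw [this]
    push_cast
    rfl
  have h1 : ((nm v : ℕ) : ℂ) ^ (-((3:ℂ) / 2 + σ)) = yy p σ ^ deg v := by
    unfold yy
    rw [hnm, ← Complex.cpow_nat_mul, ← Complex.natCast_cpow_natCast_mul]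
  have hne : ((nm v : ℕ) : ℂ) ≠ 0 := by exact_mod_cast (nm_pos v).ne'
  have h2 : ((nm v : ℕ) : ℂ) ^ (1 - 2 * ((3:ℂ) / 2 + σ)) = (nm v : ℕ) * (yy p σ ^ deg v) ^ 2 := by
    rw [← h1, sub_eq_add_neg, Complex.cpow_add _ _ hne, Complex.cpow_one, ← Complex.cpow_nat_mul]
    congr 2
    push_cast
    ring
  rw [Qv_eval]
  unfold tf Ep
  rw [h1, h2]
  simp only [eval_comp, eval_add, eval_sub, eval_one, eval_mul, eval_C, eval_X, eval_pow]
  ring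

end one

section two
variable {K : Type} [Field K] [NumberField K] {K' : Type} [Field K'] [NumberField K']

/-- the pair of random Euler products -/
noncomputable def RR (V : HeightOneSpectrum (𝓞 K) → WeierstrassCurve (𝓞 K))
    (V' : HeightOneSpectrum (𝓞 K') → WeierstrassCurve (𝓞 K')) (σ σ' τ : ℝ) (Y : ℕ) (θ : Nat.primesBelow Y → ℝ) :
    WithLp 2 (ℂ × ℂ) :=
  WithLp.toLp 2 (RY V σ Y (pt θ), RY V' σ' Y (pt fun p => θ p + τ * om Y p))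

/-- the frequency of `p` -/
noncomputable def fr (p : ℕ) : ℝ := -Real.log p / (2 * Real.pi)

/-- the factor of the prime `p` -/
noncomputable def phi2 (V : HeightOneSpectrum (𝓞 K) → WeierstrassCurve (𝓞 K))
    (V' : HeightOneSpectrum (𝓞 K') → WeierstrassCurve (𝓞 K')) (σ σ' τ : ℝ) (Y : ℕ) (ξ : WithLp 2 (ℂ × ℂ)) (p : ℕ) : ℂ :=
  ∫ x in Set.Icc (0:ℝ) 1, Complex.exp ((inner ℝ (Xp (Gp K Y p) (Qv V σ) (Gp K' Y p)
    (sh (e (τ * fr p)) (Qv V' σ')) x) ξ : ℝ) * Complex.I)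

lemma phi2_le (V : HeightOneSpectrum (𝓞 K) → WeierstrassCurve (𝓞 K))
    (V' : HeightOneSpectrum (𝓞 K') → WeierstrassCurve (𝓞 K')) (σ σ' τ : ℝ) (Y : ℕ) (ξ : WithLp 2 (ℂ × ℂ)) (p : ℕ) :
    ‖phi2 V V' σ σ' τ Y ξ p‖ ≤ 1 := by
  unfold phi2
  refine (norm_integral_le_of_norm_le_const (C := 1) (Eventually.of_forall fun x => ?_)).trans ?_
  · rw [Complex.norm_exp_ofReal_mul_I]
  · rw [measureReal_def, Measure.restrict_apply_univ, Real.volume_Icc]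
    simp

lemma RR_split (V : HeightOneSpectrum (𝓞 K) → WeierstrassCurve (𝓞 K))
    (V' : HeightOneSpectrum (𝓞 K') → WeierstrassCurve (𝓞 K')) (σ σ' τ : ℝ) (Y : ℕ) (θ : Nat.primesBelow Y → ℝ) :
    RR V V' σ σ' τ Y θ = ∑ p : Nat.primesBelow Y, Xp (Gp K Y p) (Qv V σ) (Gp K' Y p)
      (sh (e (τ * fr p)) (Qv V' σ')) (θ p) := by
  unfold RR Xp
  rw [RY_split, RY_split]
  simp only [Xc_sh]
  have h1 := map_sum (WithLp.prodContinuousLinearEquiv 2 ℝ ℂ ℂ).symm (fun p : Nat.primesBelow Y =>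
    ((Xc (Gp K Y p) (Qv V σ) (θ p), Xc (Gp K' Y p) (Qv V' σ') (θ p + τ * fr p)) : ℂ × ℂ)) Finset.univ
  refine Eq.trans ?_ h1
  show WithLp.toLp 2 _ = WithLp.toLp 2 _
  congr 1
  rw [Prod.ext_iff]
  refine ⟨?_, ?_⟩
  · rw [Prod.fst_sum]
  · rw [Prod.snd_sum]
    rfl

/-- **the characteristic function is a product** -/
theorem char_prod2 (V : HeightOneSpectrum (𝓞 K) → WeierstrassCurve (𝓞 K))
    (V' : HeightOneSpectrum (𝓞 K') → WeierstrassCurve (𝓞 K')) (σ σ' τ : ℝ) (Y : ℕ) (ξ : WithLp 2 (ℂ × ℂ)) :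
    ∫ θ, Complex.exp ((inner ℝ (RR V V' σ σ' τ Y θ) ξ : ℝ) * Complex.I) ∂(cube (Nat.primesBelow Y)) =
      ∏ p ∈ Nat.primesBelow Y, phi2 V V' σ σ' τ Y ξ p := by
  have h1 : ∀ θ : Nat.primesBelow Y → ℝ, Complex.exp ((inner ℝ (RR V V' σ σ' τ Y θ) ξ : ℝ) * Complex.I) =
      ∏ p : Nat.primesBelow Y, Complex.exp ((inner ℝ (Xp (Gp K Y p) (Qv V σ) (Gp K' Y p)
        (sh (e (τ * fr p)) (Qv V' σ')) (θ p)) ξ : ℝ) * Complex.I) := by
    intro θ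
    rw [RR_split, sum_inner, ← Complex.exp_sum]
    congr 1
    push_cast
    rw [Finset.sum_mul]
  simp_rw [h1]
  unfold cube
  rw [integral_fintype_prod_eq_prod (fun (p : Nat.primesBelow Y) (x : ℝ) =>
    Complex.exp ((inner ℝ (Xp (Gp K Y p) (Qv V σ) (Gp K' Y p)
        (sh (e (τ * fr p)) (Qv V' σ')) x) ξ : ℝ) * Complex.I))]
  exact Finset.prod_coe_sort (Nat.primesBelow Y) fun p => phi2 V V' σ σ' τ Y ξ p

/-- all the places above `p` -/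
noncomputable def Gf (K : Type) [Field K] [NumberField K] (p : ℕ) : Finset (HeightOneSpectrum (𝓞 K)) :=
  Gp K (p ^ Module.finrank ℚ K + 1) p

lemma mem_Gf {p : ℕ} (hp : p.Prime) {v : HeightOneSpectrum (𝓞 K)} : v ∈ Gf K p ↔ (below v : ℕ) = p := by
  unfold Gf
  rw [mem_Gp]
  constructor
  · exact fun h => h.2
  · intro h
    refine ⟨?_, h⟩
    have h1 := (nm_eq v).1
    rw [h] at h1
    rw [h1]
    exact Nat.lt_succ_of_le (Nat.pow_le_pow_right hp.pos (deg_le' v))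

/-- the two polynomials of the prime `p` -/
noncomputable def PA (V : HeightOneSpectrum (𝓞 K) → WeierstrassCurve (𝓞 K)) (σ : ℝ) (p : ℕ) : ℂ[X] :=
  ∏ v ∈ Gf K p, Qv V σ v

/-- the second polynomial, shifted -/
noncomputable def PB (V' : HeightOneSpectrum (𝓞 K') → WeierstrassCurve (𝓞 K')) (σ' τ : ℝ) (p : ℕ) : ℂ[X] :=
  ∏ v ∈ Gf K' p, sh (e (τ * fr p)) (Qv V' σ') v

/-- the primes used -/
def Good2 (V : HeightOneSpectrum (𝓞 K) → WeierstrassCurve (𝓞 K))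
    (V' : HeightOneSpectrum (𝓞 K') → WeierstrassCurve (𝓞 K')) (σ σ' τ : ℝ) : Set ℕ :=
  {p | p.Prime ∧ PA V σ p ^ (PB V' σ' τ p).natDegree ≠ PB V' σ' τ p ^ (PA V σ p).natDegree}

lemma sh_deg {ι : Type} {a : ℂ} (ha : a ≠ 0) (Q : ι → ℂ[X]) (v : ι) : (sh a Q v).natDegree = (Q v).natDegree := by
  unfold sh
  rw [natDegree_comp, natDegree_C_mul_X a ha, mul_one]

/-- decay for one prime -/
lemma one_prime2 (V : HeightOneSpectrum (𝓞 K) → WeierstrassCurve (𝓞 K))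
    (V' : HeightOneSpectrum (𝓞 K') → WeierstrassCurve (𝓞 K')) {σ σ' : ℝ} (hσ : 0 ≤ σ) (hσ' : 0 ≤ σ') (τ : ℝ) {p : ℕ}
    (hp : p ∈ Good2 V V' σ σ' τ) :
    ∃ C : ℝ, 0 < C ∧ ∀ Y : ℕ, p ^ Module.finrank ℚ K + 1 ≤ Y → p ^ Module.finrank ℚ K' + 1 ≤ Y →
      ∀ ξ : WithLp 2 (ℂ × ℂ), 1 ≤ ‖ξ‖ → ‖phi2 V V' σ σ' τ Y ξ p‖ ≤
        C * ‖ξ‖ ^ (-(1 / ((4 * (Module.finrank ℚ K + Module.finrank ℚ K') : ℕ) : ℝ) / 8)) := by
  obtain ⟨hpp, hne⟩ := hp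
  unfold PA PB at hne
  have ha : e (τ * fr p) ≠ 0 := e_ne _
  have hQne : ∀ v, sh (e (τ * fr p)) (Qv V' σ') v ≠ 0 := by
    intro v h0
    have h1 := sh_eval (e (τ * fr p)) (Qv V' σ') v 0
    rw [h0, mul_zero, ← coeff_zero_eq_eval_zero (Qv V' σ' v), Qv_coeff] at h1
    simp at h1
  have hd1 : (∏ v ∈ Gf K p, Qv V σ v).natDegree ≤ 2 * Module.finrank ℚ K := by
    rw [Polynomial.natDegree_prod _ _ fun w _ => Qv_ne V σ w]
    have h3 : ∑ w ∈ Gf K p, (Qv V σ w).natDegree ≤ ∑ w ∈ Gf K p, 2 * deg w := Finset.sum_le_sum fun w _ => Qv_deg V σ w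
    rw [← Finset.mul_sum] at h3
    have h4 := sum_deg_le (Gf K p) (p := p) fun w hw => (mem_Gf hpp).1 hw
    omega
  have hd2 : (∏ v ∈ Gf K' p, sh (e (τ * fr p)) (Qv V' σ') v).natDegree ≤ 2 * Module.finrank ℚ K' := by
    rw [Polynomial.natDegree_prod _ _ fun w _ => hQne w]
    have h3 : ∑ w ∈ Gf K' p, (sh (e (τ * fr p)) (Qv V' σ') w).natDegree ≤ ∑ w ∈ Gf K' p, 2 * deg w :=
      Finset.sum_le_sum fun w _ => by rw [sh_deg ha]; exact Qv_deg V' σ' w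
    rw [← Finset.mul_sum] at h3
    have h4 := sum_deg_le (Gf K' p) (p := p) fun w hw => (mem_Gf hpp).1 hw
    omega
  have hone : ∀ (R : ℂ[X]), R.natDegree = 0 → R.eval 0 = 1 → R = 1 := by
    intro R h1 h2
    obtain ⟨c, rfl⟩ := natDegree_eq_zero.1 h1
    rw [eval_C] at h2
    rw [h2, C_1]
  have hev1 : (∏ v ∈ Gf K p, Qv V σ v).eval 0 = 1 := by
    rw [eval_prod]
    refine Finset.prod_eq_one fun v _ => ?_
    rw [← coeff_zero_eq_eval_zero, Qv_coeff]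
  have hev2 : (∏ v ∈ Gf K' p, sh (e (τ * fr p)) (Qv V' σ') v).eval 0 = 1 := by
    rw [eval_prod]
    refine Finset.prod_eq_one fun v _ => ?_
    rw [sh_eval, mul_zero, ← coeff_zero_eq_eval_zero, Qv_coeff]
  have hD1 : 1 ≤ (∏ v ∈ Gf K p, Qv V σ v).natDegree := by
    by_contra h
    have h0 : (∏ v ∈ Gf K p, Qv V σ v).natDegree = 0 := by omega
    apply hne
    rw [hone _ h0 hev1, natDegree_one, one_pow, pow_zero]
  have hD2 : 1 ≤ (∏ v ∈ Gf K' p, sh (e (τ * fr p)) (Qv V' σ') v).natDegree := by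
    by_contra h
    have h0 : (∏ v ∈ Gf K' p, sh (e (τ * fr p)) (Qv V' σ') v).natDegree = 0 := by omega
    apply hne
    rw [hone _ h0 hev2, natDegree_one, one_pow, pow_zero]
  obtain ⟨C, hC, hmain⟩ := curve_decay2 (G := Gf K p) (Q := Qv V σ) (G' := Gf K' p)
    (Q' := sh (e (τ * fr p)) (Qv V' σ')) (r := 96 / 100) (by norm_num) (fun w _ => Qv_coeff V σ w)
    (fun w _ => by rw [coeff_zero_eq_eval_zero, sh_eval, mul_zero, ← coeff_zero_eq_eval_zero, Qv_coeff])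
    (fun w _ z hz => by rw [Qv_eval]; exact tf_ball V hσ w (by rw [norm_pow, hz, one_pow]))
    (fun w _ z hz => by
      rw [sh_eval, Qv_eval]
      exact tf_ball V' hσ' w (by rw [norm_pow, norm_mul, e_norm, hz, one_mul, one_pow])) hD1 hD2 hne
    (M := 4 * (Module.finrank ℚ K + Module.finrank ℚ K')) (by omega)
  refine ⟨C, hC, fun Y hY hY' ξ hξ => ?_⟩
  unfold phi2
  rw [Gp_stable hpp hY, Gp_stable hpp hY']
  exact hmain ξ hξ

/-- **rapid decay** -/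
theorem decay_main2 (V : HeightOneSpectrum (𝓞 K) → WeierstrassCurve (𝓞 K))
    (V' : HeightOneSpectrum (𝓞 K') → WeierstrassCurve (𝓞 K')) {σ σ' : ℝ} (hσ : 0 ≤ σ) (hσ' : 0 ≤ σ') (τ : ℝ)
    (hinf : (Good2 V V' σ σ' τ).Infinite) (N : ℕ) : ∃ (C : ℝ) (Y₀ : ℕ), 0 < C ∧ ∀ Y : ℕ, Y₀ ≤ Y →
      ∀ ξ : WithLp 2 (ℂ × ℂ), 1 ≤ ‖ξ‖ →
      ‖∏ p ∈ Nat.primesBelow Y, phi2 V V' σ σ' τ Y ξ p‖ ≤ C * ‖ξ‖ ^ (-(N : ℝ)) := by
  classical
  set M : ℕ := 4 * (Module.finrank ℚ K + Module.finrank ℚ K') with hM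
  have hn : 0 < Module.finrank ℚ K := Module.finrank_pos
  have hM0 : (0:ℝ) < (M : ℝ) := by
    have : 0 < M := by omega
    exact_mod_cast this
  obtain ⟨S, hS, hcard⟩ := hinf.exists_subset_card_eq (8 * M * N)
  have hch : ∀ p : ℕ, ∃ C : ℝ, 0 < C ∧ (p ∈ S → ∀ Y : ℕ, p ^ Module.finrank ℚ K + 1 ≤ Y →
      p ^ Module.finrank ℚ K' + 1 ≤ Y → ∀ ξ : WithLp 2 (ℂ × ℂ), 1 ≤ ‖ξ‖ →
      ‖phi2 V V' σ σ' τ Y ξ p‖ ≤ C * ‖ξ‖ ^ (-(1 / (M : ℝ) / 8))) := by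
    intro p
    by_cases hp : p ∈ S
    · obtain ⟨C, hC, h⟩ := one_prime2 V V' hσ hσ' τ (hS hp)
      exact ⟨C, hC, fun _ => h⟩
    · exact ⟨1, one_pos, fun h => absurd h hp⟩
  choose C hC hmain using hch
  refine ⟨∏ p ∈ S, C p, S.sup (fun p => (p ^ Module.finrank ℚ K + 1) + (p ^ Module.finrank ℚ K' + 1)),
    Finset.prod_pos fun p _ => hC p, fun Y hY ξ hξ => ?_⟩
  have hYp : ∀ p ∈ S, (p ^ Module.finrank ℚ K + 1) + (p ^ Module.finrank ℚ K' + 1) ≤ Y := fun p hp =>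
    (Finset.le_sup (f := fun p => (p ^ Module.finrank ℚ K + 1) + (p ^ Module.finrank ℚ K' + 1)) hp).trans hY
  have hsub : S ⊆ Nat.primesBelow Y := by
    intro p hp
    have hpp : p.Prime := (hS hp).1
    rw [Nat.mem_primesBelow]
    refine ⟨?_, hpp⟩
    have h1 := hYp p hp
    have h2 : p ≤ p ^ Module.finrank ℚ K := Nat.le_self_pow hn.ne' p
    omega
  have hξ0 : 0 < ‖ξ‖ := by linarith
  rw [norm_prod, ← Finset.prod_sdiff hsub]
  have h1 : ∏ p ∈ Nat.primesBelow Y \ S, ‖phi2 V V' σ σ' τ Y ξ p‖ ≤ 1 :=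
    Finset.prod_le_one (fun p _ => norm_nonneg _) fun p _ => phi2_le V V' σ σ' τ Y ξ p
  have h2 : ∏ p ∈ S, ‖phi2 V V' σ σ' τ Y ξ p‖ ≤ ∏ p ∈ S, (C p * ‖ξ‖ ^ (-(1 / (M : ℝ) / 8))) :=
    Finset.prod_le_prod (fun p _ => norm_nonneg _) fun p hp => by
      have := hYp p hp
      exact hmain p hp Y (by omega) (by omega) ξ hξ
  have h3 : ∏ p ∈ S, (C p * ‖ξ‖ ^ (-(1 / (M : ℝ) / 8))) = (∏ p ∈ S, C p) * ‖ξ‖ ^ (-(N : ℝ)) := by
    rw [Finset.prod_mul_distrib, Finset.prod_const, hcard, ← Real.rpow_natCast, ← Real.rpow_mul hξ0.le]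
    congr 2
    push_cast
    field_simp
  have h4 : 0 ≤ ∏ p ∈ S, ‖phi2 V V' σ σ' τ Y ξ p‖ := Finset.prod_nonneg fun p _ => norm_nonneg _
  calc _ ≤ 1 * ∏ p ∈ S, ‖phi2 V V' σ σ' τ Y ξ p‖ := mul_le_mul_of_nonneg_right h1 h4
    _ = ∏ p ∈ S, ‖phi2 V V' σ σ' τ Y ξ p‖ := one_mul _
    _ ≤ _ := by rw [← h3]; exact h2

end two

end Run7.h401.SD
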