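import Mathlib
import Pool.Agent.Run7.h113.LE.LawMain
import Pool.Agent.Run7.h401.SD.Pr2
import Pool.Agent.Run7.h401.SD.Lim
import Pool.Agent.Run7.h401.SD.KWu

/-!
The joint law of two L-series on the edge.
-/

set_option autoImplicit false

open MeasureTheory Filter Topology NumberField IsDedekindDomain
open scoped ENNReal ContDiff
open Run7.h113.LE

namespace Run7.h401.SD

section gen

lemma law_eq {V : Type} [PseudoMetricSpace V] [MeasurableSpace V] [BorelSpace V] {g : ℝ → V} {ν ν' : Measure V}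
    (h1 : Law g ν) (h2 : Law g ν') {f : V → ℝ} (hf : Continuous f) (hf1 : ∀ z, 0 ≤ f z ∧ f z ≤ 1) :
    ∫ z, f z ∂ν = ∫ z, f z ∂ν' := by
  by_contra hne
  have hpos : 0 < |(∫ z, f z ∂ν) - ∫ z, f z ∂ν'| := abs_pos.2 (sub_ne_zero.2 hne)
  set δ := |(∫ z, f z ∂ν) - ∫ z, f z ∂ν'| with hδ
  obtain ⟨H₁, hH₁, a1⟩ := h1 f hf hf1 (δ / 3) (by positivity)
  obtain ⟨H₂, hH₂, a2⟩ := h2 f hf hf1 (δ / 3) (by positivity)
  have b1 := a1 (max H₁ H₂) (le_max_left _ _) 0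
  have b2 := a2 (max H₁ H₂) (le_max_right _ _) 0
  have h3 : δ ≤ δ / 3 + δ / 3 := by
    rw [hδ]
    have e : (∫ z, f z ∂ν) - ∫ z, f z ∂ν' = -((1 / (max H₁ H₂)) * (∫ t in (0:ℝ)..(0 + max H₁ H₂), f (g t)) - ∫ z, f z ∂ν) +
      ((1 / (max H₁ H₂)) * (∫ t in (0:ℝ)..(0 + max H₁ H₂), f (g t)) - ∫ z, f z ∂ν') := by ring
    conv_lhs => rw [e]
    refine (abs_add_le _ _).trans ?_
    rw [abs_neg]
    exact add_le_add b1 b2
  linarith

lemma measure_eq {V : Type} [PseudoMetricSpace V] [MeasurableSpace V] [BorelSpace V] {ν ν' : Measure V}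
    [IsProbabilityMeasure ν] [IsProbabilityMeasure ν']
    (h : ∀ f : V → ℝ, Continuous f → (∀ z, 0 ≤ f z ∧ f z ≤ 1) → ∫ z, f z ∂ν = ∫ z, f z ∂ν') : ν = ν' := by
  apply ext_of_forall_integral_eq_of_IsFiniteMeasure
  intro f
  set M : ℝ := ‖f‖ + 1 with hM
  have hM0 : 0 < M := by positivity
  have hb : ∀ z, |f z| ≤ M := fun z => (f.norm_coe_le_norm z).trans (by linarith)
  have h1 := h (fun z => (f z + M) / (2 * M)) (by fun_prop) (fun z => by
    have := abs_le.1 (hb z)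
    constructor
    · apply div_nonneg <;> linarith [this.1]
    · rw [div_le_one (by positivity)]
      linarith [this.2])
  have h2 : ∀ (m : Measure V) [IsProbabilityMeasure m], ∫ z, (f z + M) / (2 * M) ∂m = ((∫ z, f z ∂m) + M) / (2 * M) := by
    intro m _
    rw [integral_div, integral_add (f.integrable m) (integrable_const _), integral_const, probReal_univ, one_smul]
  rw [h2, h2] at h1
  have h3 : (∫ z, f z ∂ν) + M = (∫ z, f z ∂ν') + M := by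
    have h4 : (2 * M) ≠ 0 := by positivity
    exact (div_left_inj' h4).1 h1
  linarith

end gen

section one
variable {K : Type} [Field K] [NumberField K]

/-- the law of one curve -/
theorem law_one (V : HeightOneSpectrum (𝓞 K) → WeierstrassCurve (𝓞 K)) {σ : ℝ} (hσ : 0 ≤ σ) {g : ℝ → ℂ}
    (hg : IsLim V σ g) : ∃ ν : Measure ℂ, IsProbabilityMeasure ν ∧ (∀ n : ℕ, Integrable (fun z : ℂ => ‖z‖ ^ n) ν) ∧
      Law g ν := by
  set d := Module.finrank ℚ K with hd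
  have hκ := kap_pos d
  obtain ⟨ν, hν, hlaw⟩ := law_exists (le_of_eq hd.symm) V hσ hg
  refine ⟨ν, hν, fun n => (hlaw _ (cls_pow hκ n)).1, ?_⟩
  intro f hfc hf ε hε
  have hcls : Cls (kap d) f := cls_of_bdd hκ hfc (B := 1) fun z => by rw [abs_of_nonneg (hf z).1]; exact (hf z).2
  obtain ⟨H₀, Y₀, hH₀, hmain⟩ := main_law d hcls (ε := ε / 2) (by positivity)
  have h4 := hmain K (le_of_eq hd.symm) V σ hσ g hg
  have h5 : |(∫ z, f z ∂ν) - ∫ θ, f (RY V σ Y₀ (pt θ)) ∂(cube (Nat.primesBelow Y₀))| ≤ ε / 2 := by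
    have h5 := ((hlaw f hcls).2.sub_const (∫ θ, f (RY V σ Y₀ (pt θ)) ∂(cube (Nat.primesBelow Y₀)))).abs
    refine le_of_tendsto h5 ?_
    obtain ⟨N, hN⟩ := exists_nat_ge H₀
    filter_upwards [eventually_ge_atTop N] with n hn
    have h6 := h4 n (hN.trans (by exact_mod_cast hn)) 0 Y₀ le_rfl
    rw [zero_add] at h6
    exact h6
  refine ⟨H₀, hH₀, fun H hH T => ?_⟩
  have h7 := h4 H hH T Y₀ le_rfl
  rw [abs_le] at h5 h7 ⊢
  constructor <;> linarith [h5.1, h5.2, h7.1, h7.2]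

lemma loc_one {V : HeightOneSpectrum (𝓞 K) → WeierstrassCurve (𝓞 K)} {σ : ℝ} (hσ : 0 ≤ σ) {g : ℝ → ℂ}
    (hg : IsLim V σ g) (Y : ℕ) (a b : ℝ) :
    IntervalIntegrable (fun t => ‖g t - Sx V Y ((σ:ℂ) + t * Complex.I)‖) volume a b := by
  refine loc_of_mu (fun T => ?_) a b
  have hgood : Good (kap (Module.finrank ℚ K)) (Bd (Module.finrank ℚ K)) g :=
    ⟨hg.aesm hσ, fun T => exp_lim le_rfl hσ hg T⟩
  have hs : Continuous fun t : ℝ => Sx V Y ((σ:ℂ) + t * Complex.I) := Sx_cont V Y hσ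
  have h2 : Integrable (fun t : ℝ => Sx V Y ((σ:ℂ) + t * Complex.I)) (mu T) := by
    unfold mu
    exact (hs.continuousOn.integrableOn_Icc)
  have h1 : Integrable g (mu T) := by
    rw [← integrable_norm_iff (hgood.aem T)]
    exact hgood.norm_int (kap_pos _) T
  exact (h1.sub h2).norm

lemma tail_int {ε : ℝ} (hε : 0 < ε) (V : HeightOneSpectrum (𝓞 K) → WeierstrassCurve (𝓞 K)) {σ : ℝ} (hσ : 0 ≤ σ)
    {g : ℝ → ℂ} (hg : IsLim V σ g) : ∃ Y₀ : ℕ, ∀ Y : ℕ, Y₀ ≤ Y → ∀ T : ℝ,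
      ∫ t in T..(T + 1), ‖g t - Sx V Y ((σ:ℂ) + t * Complex.I)‖ ≤ ε := by
  obtain ⟨Y₀, h⟩ := tail_one (Module.finrank ℚ K) hε
  refine ⟨Y₀, fun Y hY T => ?_⟩
  rw [int_mu]
  have hgood : Good (kap (Module.finrank ℚ K)) (Bd (Module.finrank ℚ K)) g :=
    ⟨hg.aesm hσ, fun T => exp_lim le_rfl hσ hg T⟩
  exact int_of_eLp ((hgood.aem T).sub (Sx_cont V Y hσ).aestronglyMeasurable) hε.le (h K le_rfl V σ hσ g hg T Y hY)

end one

section two
variable {K : Type} [Field K] [NumberField K] {K' : Type} [Field K'] [NumberField K']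

lemma toLp_norm_le (a b : ℂ) : ‖(WithLp.toLp 2 (a, b) : WithLp 2 (ℂ × ℂ))‖ ≤ ‖a‖ + ‖b‖ := by
  rw [WithLp.prod_norm_eq_of_L2]
  apply Real.sqrt_le_iff.2
  constructor
  · positivity
  · show ‖a‖ ^ 2 + ‖b‖ ^ 2 ≤ (‖a‖ + ‖b‖) ^ 2
    nlinarith [norm_nonneg a, norm_nonneg b]

/-- **the joint law** -/
theorem joint_law (V : HeightOneSpectrum (𝓞 K) → WeierstrassCurve (𝓞 K))
    (V' : HeightOneSpectrum (𝓞 K') → WeierstrassCurve (𝓞 K')) {σ σ' : ℝ} (hσ : 0 ≤ σ) (hσ' : 0 ≤ σ') (τ : ℝ)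
    {g g' : ℝ → ℂ} (hg : IsLim V σ g) (hg' : IsLim V' σ' g') :
    ∃ ν : Measure (WithLp 2 (ℂ × ℂ)), IsProbabilityMeasure ν ∧
      (∀ ξ, Tendsto (fun Y => ∏ p ∈ Nat.primesBelow Y, phi2 V V' σ σ' τ Y ξ p) atTop (𝓝 (charFun ν ξ))) ∧
      Law (fun t => (WithLp.toLp 2 (g t, g' (t + τ)) : WithLp 2 (ℂ × ℂ))) ν := by
  set s : ℕ → ℝ → WithLp 2 (ℂ × ℂ) := fun Y t =>
    WithLp.toLp 2 (Sx V Y ((σ:ℂ) + t * Complex.I), Sx V' Y ((σ':ℂ) + ((t + τ : ℝ) : ℂ) * Complex.I)) with hs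
  have hcontL : Continuous fun z : ℂ × ℂ => (WithLp.toLp 2 z : WithLp 2 (ℂ × ℂ)) :=
    (WithLp.prodContinuousLinearEquiv 2 ℝ ℂ ℂ).symm.continuous
  have hsh : ∀ {f : ℝ → ℂ}, AEStronglyMeasurable f volume → AEStronglyMeasurable (fun t => f (t + τ)) volume :=
    fun hf => hf.comp_measurePreserving (measurePreserving_add_right volume τ)
  have hgm : AEStronglyMeasurable (fun t => (WithLp.toLp 2 (g t, g' (t + τ)) : WithLp 2 (ℂ × ℂ))) volume :=
    hcontL.comp_aestronglyMeasurable ((hg.aesm hσ).prodMk (hsh (hg'.aesm hσ')))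
  have hsc : ∀ Y, Continuous (s Y) := by
    intro Y
    refine hcontL.comp ((Sx_cont V Y hσ).prodMk ?_)
    exact (Sx_cont V' Y hσ').comp (continuous_add_const τ)
  have hnorm : ∀ Y t, ‖(WithLp.toLp 2 (g t, g' (t + τ)) : WithLp 2 (ℂ × ℂ)) - s Y t‖ ≤
      ‖g t - Sx V Y ((σ:ℂ) + t * Complex.I)‖ + ‖g' (t + τ) - Sx V' Y ((σ':ℂ) + ((t + τ : ℝ) : ℂ) * Complex.I)‖ := by
    intro Y t
    rw [hs]
    simp only
    rw [← WithLp.toLp_sub]
    exact toLp_norm_le _ _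
  have hl1 := fun Y => loc_one hσ hg Y
  have hl2 : ∀ Y a b, IntervalIntegrable
      (fun t => ‖g' (t + τ) - Sx V' Y ((σ':ℂ) + ((t + τ : ℝ) : ℂ) * Complex.I)‖) volume a b := by
    intro Y a b
    have h1 := loc_one hσ' hg' Y (a + τ) (b + τ)
    have h2 := h1.comp_add_right τ
    simpa using h2
  have hloc : ∀ Y a b, IntervalIntegrable
      (fun t => ‖(WithLp.toLp 2 (g t, g' (t + τ)) : WithLp 2 (ℂ × ℂ)) - s Y t‖) volume a b := by
    intro Y a b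
    refine ((hl1 Y a b).add (hl2 Y a b)).mono_fun ?_ (Eventually.of_forall fun t => ?_)
    · exact (hgm.sub (hsc Y).aestronglyMeasurable).norm.restrict
    · beta_reduce
      rw [norm_norm]
      refine (hnorm Y t).trans ?_
      exact Real.le_norm_self _
  have htail : ∀ ε : ℝ, 0 < ε → ∃ Y₀ : ℕ, ∀ Y : ℕ, Y₀ ≤ Y → ∀ T : ℝ,
      ∫ t in T..(T + 1), ‖(WithLp.toLp 2 (g t, g' (t + τ)) : WithLp 2 (ℂ × ℂ)) - s Y t‖ ≤ ε := by
    intro ε hε
    obtain ⟨Y₁, h1⟩ := tail_int (ε := ε / 2) (by positivity) V hσ hg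
    obtain ⟨Y₂, h2⟩ := tail_int (ε := ε / 2) (by positivity) V' hσ' hg'
    refine ⟨max Y₁ Y₂, fun Y hY T => ?_⟩
    have a1 := h1 Y ((le_max_left _ _).trans hY) T
    have a2 := h2 Y ((le_max_right _ _).trans hY) (T + τ)
    have a3 : ∫ t in T..(T + 1), ‖g' (t + τ) - Sx V' Y ((σ':ℂ) + ((t + τ : ℝ) : ℂ) * Complex.I)‖ ≤ ε / 2 := by
      rw [intervalIntegral.integral_comp_add_right
        (fun t : ℝ => ‖g' t - Sx V' Y ((σ':ℂ) + ((t : ℝ) : ℂ) * Complex.I)‖) τ]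
      have e : T + 1 + τ = T + τ + 1 := by ring
      rw [e]
      exact a2
    calc ∫ t in T..(T + 1), ‖(WithLp.toLp 2 (g t, g' (t + τ)) : WithLp 2 (ℂ × ℂ)) - s Y t‖
        ≤ ∫ t in T..(T + 1), (‖g t - Sx V Y ((σ:ℂ) + t * Complex.I)‖ +
            ‖g' (t + τ) - Sx V' Y ((σ':ℂ) + ((t + τ : ℝ) : ℂ) * Complex.I)‖) := by
          apply intervalIntegral.integral_mono_on (by linarith) (hloc Y _ _) ((hl1 Y _ _).add (hl2 Y _ _))
          exact fun t _ => hnorm Y t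
      _ ≤ ε := by
          rw [intervalIntegral.integral_add (hl1 Y _ _) (hl2 Y _ _)]
          linarith
  -- the random vectors
  have hptc : ∀ Y, Continuous fun θ : Nat.primesBelow Y → ℝ => (pt fun p => θ p + τ * om Y p : UnitAddTorus (Nat.primesBelow Y)) := by
    intro Y
    exact pt_cont.comp (by fun_prop)
  have hRc : ∀ Y, Continuous (RR V V' σ σ' τ Y) := by
    intro Y
    exact hcontL.comp (((RY_cont V hσ Y).comp pt_cont).prodMk ((RY_cont V' hσ' Y).comp (hptc Y)))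
  set μ : ℕ → Measure (WithLp 2 (ℂ × ℂ)) := fun Y => (cube (Nat.primesBelow Y)).map (RR V V' σ σ' τ Y) with hμ
  have hμp : ∀ Y, IsProbabilityMeasure (μ Y) := fun Y => Measure.isProbabilityMeasure_map (hRc Y).aemeasurable
  have hμc : ∀ Y ξ, charFun (μ Y) ξ =
      ∫ θ, Complex.exp ((inner ℝ (RR V V' σ σ' τ Y θ) ξ : ℝ) * Complex.I) ∂(cube (Nat.primesBelow Y)) := by
    intro Y ξ
    rw [charFun_apply, hμ]
    simp only
    rw [integral_map (hRc Y).aemeasurable (Continuous.aestronglyMeasurable (by fun_prop))]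
  have hmean : ∀ (Y : ℕ) (ξ : WithLp 2 (ℂ × ℂ)) (ε : ℝ), 0 < ε → ∃ H₀ : ℝ, 0 < H₀ ∧ ∀ H : ℝ, H₀ ≤ H → ∀ T : ℝ,
      ‖mch (s Y) ξ T H - charFun (μ Y) ξ‖ ≤ ε := by
    intro Y ξ ε hε
    set x₀ : UnitAddTorus (Nat.primesBelow Y) := pt fun p => τ * om Y p with hx₀
    have hadd : ∀ θ : Nat.primesBelow Y → ℝ, (pt fun p => θ p + τ * om Y p : UnitAddTorus (Nat.primesBelow Y)) =
        pt θ + x₀ := by
      intro θ
      rw [hx₀]
      funext p
      rfl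
    set G : C(UnitAddTorus (Nat.primesBelow Y), ℂ) := ⟨fun x =>
      Complex.exp ((inner ℝ (WithLp.toLp 2 (RY V σ Y x, RY V' σ' Y (x + x₀)) : WithLp 2 (ℂ × ℂ)) ξ : ℝ) * Complex.I), by
        have h1 : Continuous fun x : UnitAddTorus (Nat.primesBelow Y) =>
            (WithLp.toLp 2 (RY V σ Y x, RY V' σ' Y (x + x₀)) : WithLp 2 (ℂ × ℂ)) :=
          hcontL.comp ((RY_cont V hσ Y).prodMk ((RY_cont V' hσ' Y).comp (continuous_add_const x₀)))
        have h2 : Continuous fun z : WithLp 2 (ℂ × ℂ) => Complex.exp ((inner ℝ z ξ : ℝ) * Complex.I) := by fun_prop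
        exact h2.comp h1⟩ with hG
    obtain ⟨H₀, hH₀, h1⟩ := um (om_indep Y) G ε hε
    refine ⟨H₀, hH₀, fun H hH T => ?_⟩
    have h2 := h1 H hH T
    have e1 : avT (om Y) G T H = mch (s Y) ξ T H := by
      unfold avT mch
      congr 1
      apply intervalIntegral.integral_congr
      intro t _
      simp only [hG, ContinuousMap.coe_mk, hs]
      have e3 : (pt (fun i => t * om Y i) : UnitAddTorus (Nat.primesBelow Y)) + x₀ = pt fun p => (t + τ) * om Y p := by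
        rw [hx₀]
        funext p
        show ((t * om Y p : ℝ) : UnitAddCircle) + ((τ * om Y p : ℝ) : UnitAddCircle) =
          (((t + τ) * om Y p : ℝ) : UnitAddCircle)
        rw [← AddCircle.coe_add]
        congr 1
        ring
      rw [← RY_flow V σ Y t, ← RY_flow V' σ' Y (t + τ), e3]
    have e2 : ∫ θ, G (pt θ) ∂(cube (Nat.primesBelow Y)) = charFun (μ Y) ξ := by
      rw [hμc]
      refine integral_congr_ae (Eventually.of_forall fun θ => ?_)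
      simp only [hG, ContinuousMap.coe_mk]
      unfold RR
      rw [hadd θ]
    rwa [e1, e2] at h2
  obtain ⟨ν, hν, h1, h2⟩ := law_of_approx hgm (fun Y => (hsc Y).aestronglyMeasurable) hloc htail (μ := μ) hmean
  refine ⟨ν, hν, fun ξ => ?_, h2⟩
  refine (h1 ξ).congr fun Y => ?_
  rw [hμc, char_prod2]

lemma fst_le (z : WithLp 2 (ℂ × ℂ)) : ‖z.ofLp.1‖ ≤ ‖z‖ ∧ ‖z.ofLp.2‖ ≤ ‖z‖ := by
  rw [WithLp.prod_norm_eq_of_L2]
  constructor
  · apply Real.le_sqrt_of_sq_le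
    have := sq_nonneg ‖z.ofLp.2‖
    show ‖z.ofLp.1‖ ^ 2 ≤ ‖z.ofLp.1‖ ^ 2 + ‖z.ofLp.2‖ ^ 2
    linarith
  · apply Real.le_sqrt_of_sq_le
    have := sq_nonneg ‖z.ofLp.1‖
    show ‖z.ofLp.2‖ ^ 2 ≤ ‖z.ofLp.1‖ ^ 2 + ‖z.ofLp.2‖ ^ 2
    linarith

/-- the moments of the joint law -/
lemma joint_mom {V : HeightOneSpectrum (𝓞 K) → WeierstrassCurve (𝓞 K)}
    {V' : HeightOneSpectrum (𝓞 K') → WeierstrassCurve (𝓞 K')} {σ σ' : ℝ} (hσ : 0 ≤ σ) (hσ' : 0 ≤ σ') {τ : ℝ}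
    {g g' : ℝ → ℂ} (hg : IsLim V σ g) (hg' : IsLim V' σ' g') {ν : Measure (WithLp 2 (ℂ × ℂ))} [IsProbabilityMeasure ν]
    (hL : Law (fun t => (WithLp.toLp 2 (g t, g' (t + τ)) : WithLp 2 (ℂ × ℂ))) ν) (n : ℕ) :
    Integrable (fun z => ‖z‖ ^ n) ν := by
  have hc1 : Continuous fun z : WithLp 2 (ℂ × ℂ) => z.ofLp.1 :=
    continuous_fst.comp (WithLp.prodContinuousLinearEquiv 2 ℝ ℂ ℂ).continuous
  have hc2 : Continuous fun z : WithLp 2 (ℂ × ℂ) => z.ofLp.2 :=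
    continuous_snd.comp (WithLp.prodContinuousLinearEquiv 2 ℝ ℂ ℂ).continuous
  obtain ⟨ν₁, hν₁, hm₁, hL₁⟩ := law_one V hσ hg
  obtain ⟨ν₂, hν₂, hm₂, hL₂⟩ := law_one V' hσ' hg'
  have hp1 : IsProbabilityMeasure (ν.map fun z => z.ofLp.1) := Measure.isProbabilityMeasure_map hc1.aemeasurable
  have hp2 : IsProbabilityMeasure (ν.map fun z => z.ofLp.2) := Measure.isProbabilityMeasure_map hc2.aemeasurable
  have e1 : ν.map (fun z => z.ofLp.1) = ν₁ := by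
    apply measure_eq
    intro f hf hf1
    refine law_eq (g := g) ?_ hL₁ hf hf1
    intro f hf hf1 ε hε
    obtain ⟨H₀, hH₀, h⟩ := hL (fun z => f z.ofLp.1) (hf.comp hc1) (fun z => hf1 _) ε hε
    refine ⟨H₀, hH₀, fun H hH T => ?_⟩
    rw [integral_map hc1.aemeasurable hf.aestronglyMeasurable]
    exact h H hH T
  have e2 : ν.map (fun z => z.ofLp.2) = ν₂ := by
    apply measure_eq
    intro f hf hf1
    refine law_eq (g := g') ?_ hL₂ hf hf1
    intro f hf hf1 ε hε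
    obtain ⟨H₀, hH₀, h⟩ := hL (fun z => f z.ofLp.2) (hf.comp hc2) (fun z => hf1 _) ε hε
    refine ⟨H₀, hH₀, fun H hH T => ?_⟩
    rw [integral_map hc2.aemeasurable hf.aestronglyMeasurable]
    have h3 := h H hH (T - τ)
    simp only at h3
    rw [intervalIntegral.integral_comp_add_right (fun t : ℝ => f (g' t)) τ] at h3
    have e3 : T - τ + τ = T := by ring
    have e4 : T - τ + H + τ = T + H := by ring
    rw [e3, e4] at h3
    exact h3
  have i1 : Integrable (fun z : WithLp 2 (ℂ × ℂ) => ‖z.ofLp.1‖ ^ n) ν := by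
    have h1 := hm₁ n
    rw [← e1] at h1
    exact (integrable_map_measure (by fun_prop) hc1.aemeasurable).1 h1
  have i2 : Integrable (fun z : WithLp 2 (ℂ × ℂ) => ‖z.ofLp.2‖ ^ n) ν := by
    have h1 := hm₂ n
    rw [← e2] at h1
    exact (integrable_map_measure (by fun_prop) hc2.aemeasurable).1 h1
  refine ((i1.add i2).const_mul (2 ^ n)).mono' (by fun_prop) (Eventually.of_forall fun z => ?_)
  rw [Real.norm_of_nonneg (by positivity)]
  have h1 : ‖z‖ ≤ ‖z.ofLp.1‖ + ‖z.ofLp.2‖ := toLp_norm_le z.ofLp.1 z.ofLp.2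
  set a := ‖z.ofLp.1‖ with ha
  set b := ‖z.ofLp.2‖ with hb
  have ha0 : 0 ≤ a := norm_nonneg _
  have hb0 : 0 ≤ b := norm_nonneg _
  show ‖z‖ ^ n ≤ 2 ^ n * (a ^ n + b ^ n)
  rcases le_total a b with h | h
  · calc ‖z‖ ^ n ≤ (2 * b) ^ n := pow_le_pow_left₀ (norm_nonneg _) (by linarith) n
      _ = 2 ^ n * b ^ n := mul_pow _ _ _
      _ ≤ 2 ^ n * (a ^ n + b ^ n) := by
        have : 0 ≤ a ^ n := by positivity
        gcongr
        linarith
  · calc ‖z‖ ^ n ≤ (2 * a) ^ n := pow_le_pow_left₀ (norm_nonneg _) (by linarith) n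
      _ = 2 ^ n * a ^ n := mul_pow _ _ _
      _ ≤ 2 ^ n * (a ^ n + b ^ n) := by
        have : 0 ≤ b ^ n := by positivity
        gcongr
        linarith

/-- **the smooth joint density** -/
theorem smooth_joint (V : HeightOneSpectrum (𝓞 K) → WeierstrassCurve (𝓞 K))
    (V' : HeightOneSpectrum (𝓞 K') → WeierstrassCurve (𝓞 K')) {σ σ' : ℝ} (hσ : 0 ≤ σ) (hσ' : 0 ≤ σ') (τ : ℝ)
    (hinf : (Good2 V V' σ σ' τ).Infinite) {g g' : ℝ → ℂ} (hg : IsLim V σ g) (hg' : IsLim V' σ' g') :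
    ∃ f : ℂ × ℂ → ℝ, ContDiff ℝ ∞ f ∧ (∀ k n : ℕ, ∃ C : ℝ, ∀ z, ‖z‖ ^ k * ‖iteratedFDeriv ℝ n f z‖ ≤ C) ∧
      (∀ z, 0 ≤ f z) ∧ Integrable f ∧ ∫ z, f z = 1 ∧
      ∀ B : Set (ℂ × ℂ), volume (frontier B) = 0 → ∀ ε : ℝ, 0 < ε → ∃ H₀ : ℝ, 0 < H₀ ∧
        ∀ H : ℝ, H₀ ≤ H → ∀ T : ℝ,
          |(volume {t ∈ Set.Icc T (T + H) | (g t, g' (t + τ)) ∈ B}).toReal / H - ∫ z in B, f z| ≤ ε := by
  obtain ⟨ν, hν, hchar, hL⟩ := joint_law V V' hσ hσ' τ hg hg'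
  have hdec : ∀ N : ℕ, ∃ C : ℝ, ∀ ξ : WithLp 2 (ℂ × ℂ), ‖ξ‖ ^ N * ‖charFun ν ξ‖ ≤ C := by
    intro N
    obtain ⟨C, Y₀, hC, h⟩ := decay_main2 V V' hσ hσ' τ hinf N
    refine ⟨max 1 C, fun ξ => ?_⟩
    rcases le_total ‖ξ‖ 1 with hξ | hξ
    · refine le_trans ?_ (le_max_left _ _)
      have h1 : ‖ξ‖ ^ N ≤ 1 := pow_le_one₀ (norm_nonneg _) hξ
      have h2 : ‖charFun ν ξ‖ ≤ 1 := norm_charFun_le_one _
      exact mul_le_one₀ h1 (norm_nonneg _) h2
    · refine le_trans ?_ (le_max_right _ _)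
      have hξ0 : 0 < ‖ξ‖ := by linarith
      have h1 : ‖charFun ν ξ‖ ≤ C * ‖ξ‖ ^ (-(N : ℝ)) := by
        refine le_of_tendsto (hchar ξ).norm ?_
        filter_upwards [eventually_ge_atTop Y₀] with Y hY
        exact h Y hY ξ hξ
      calc ‖ξ‖ ^ N * ‖charFun ν ξ‖ ≤ ‖ξ‖ ^ N * (C * ‖ξ‖ ^ (-(N : ℝ))) := by gcongr
        _ = C := by
          rw [Real.rpow_neg hξ0.le, Real.rpow_natCast]
          field_simp
  obtain ⟨f, hf1, hf2, hf3, hf4, hf5, hf6⟩ := density ν (joint_mom hσ hσ' hg hg' hL) hdec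
  set L : (ℂ × ℂ) ≃L[ℝ] WithLp 2 (ℂ × ℂ) := (WithLp.prodContinuousLinearEquiv 2 ℝ ℂ ℂ).symm with hLL
  have hLv : ∀ z, L z = WithLp.toLp 2 z := fun z => rfl
  have hmpt : MeasurePreserving (fun z : ℂ × ℂ => (WithLp.toLp 2 z : WithLp 2 (ℂ × ℂ))) volume volume :=
    WithLp.volume_preserving_toLp ℂ ℂ
  have hemb : MeasurableEmbedding (fun z : ℂ × ℂ => (WithLp.toLp 2 z : WithLp 2 (ℂ × ℂ))) :=
    L.toHomeomorph.measurableEmbedding
  refine ⟨fun z => f (L z), hf1.comp L.contDiff, fun k n => ?_, fun z => hf3 _, ?_, ?_, fun B hB ε hε => ?_⟩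
  · obtain ⟨C, hC⟩ := hf2 k n
    refine ⟨C * ‖(L : (ℂ × ℂ) →L[ℝ] WithLp 2 (ℂ × ℂ))‖ ^ n, fun z => ?_⟩
    have h1 : iteratedFDeriv ℝ n (fun z => f (L z)) z =
        (iteratedFDeriv ℝ n f (L z)).compContinuousLinearMap fun _ => (L : (ℂ × ℂ) →L[ℝ] WithLp 2 (ℂ × ℂ)) :=
      (L : (ℂ × ℂ) →L[ℝ] WithLp 2 (ℂ × ℂ)).iteratedFDeriv_comp_right hf1 z (by exact_mod_cast le_top)
    rw [h1]
    have h2 := (iteratedFDeriv ℝ n f (L z)).norm_compContinuousLinearMap_le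
      (fun _ => (L : (ℂ × ℂ) →L[ℝ] WithLp 2 (ℂ × ℂ)))
    rw [Finset.prod_const, Finset.card_univ, Fintype.card_fin] at h2
    have h3 : ‖z‖ ≤ ‖L z‖ := by
      have := fst_le (L z)
      exact max_le this.1 this.2
    calc ‖z‖ ^ k * ‖(iteratedFDeriv ℝ n f (L z)).compContinuousLinearMap fun _ => (L : (ℂ × ℂ) →L[ℝ] WithLp 2 (ℂ × ℂ))‖
        ≤ ‖L z‖ ^ k * (‖iteratedFDeriv ℝ n f (L z)‖ * ‖(L : (ℂ × ℂ) →L[ℝ] WithLp 2 (ℂ × ℂ))‖ ^ n) := by gcongr
      _ = (‖L z‖ ^ k * ‖iteratedFDeriv ℝ n f (L z)‖) * ‖(L : (ℂ × ℂ) →L[ℝ] WithLp 2 (ℂ × ℂ))‖ ^ n := by ring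
      _ ≤ C * ‖(L : (ℂ × ℂ) →L[ℝ] WithLp 2 (ℂ × ℂ))‖ ^ n := by
        apply mul_le_mul_of_nonneg_right (hC _) (by positivity)
  · exact (hmpt.integrable_comp_emb hemb).2 hf4
  · have := hmpt.integral_comp hemb f
    rw [← hf5]
    exact this
  · -- the set in the other space
    set B' : Set (WithLp 2 (ℂ × ℂ)) := L.toHomeomorph '' B with hB'
    have hpre : (fun z : ℂ × ℂ => (WithLp.toLp 2 z : WithLp 2 (ℂ × ℂ))) ⁻¹' B' = B := by
      rw [hB']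
      exact L.toHomeomorph.injective.preimage_image B
    have hfr : frontier B' = L.toHomeomorph '' frontier B := by
      rw [hB', ← L.toHomeomorph.image_frontier]
    have hfr0 : volume (frontier B') = 0 := by
      rw [hfr, ← hmpt.measure_preimage_emb hemb]
      have : (fun z : ℂ × ℂ => (WithLp.toLp 2 z : WithLp 2 (ℂ × ℂ))) ⁻¹' (L.toHomeomorph '' frontier B) = frontier B :=
        L.toHomeomorph.injective.preimage_image _
      rw [this]
      exact hB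
    have hac : ν ≪ volume := by rw [hf6]; exact withDensity_absolutelyContinuous _ _
    have hBν : ν.real B' = ∫ z in B, f (L z) := by
      have hnm : NullMeasurableSet B' volume := by
        have h1 : B' =ᵐ[volume] closure B' := by
          refine (eventuallyLE_antisymm_iff.2 ⟨?_, ?_⟩)
          · exact Eventually.of_forall fun z hz => subset_closure hz
          · have hsub : closure B' \ B' ⊆ frontier B' := fun z hz => ⟨hz.1, fun h => hz.2 (interior_subset h)⟩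
            exact ae_le_set.2 (measure_mono_null hsub hfr0)
        exact (isClosed_closure.measurableSet.nullMeasurableSet).congr h1.symm
      rw [measureReal_def, hf6, withDensity_apply₀ _ hnm,
        ← ofReal_integral_eq_lintegral_ofReal hf4.integrableOn (Eventually.of_forall hf3),
        ENNReal.toReal_ofReal (integral_nonneg hf3)]
      have h1 := hmpt.setIntegral_preimage_emb hemb f B'
      rw [hpre] at h1
      exact h1.symm
    rw [← hBν]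
    have hcontL : Continuous fun z : ℂ × ℂ => (WithLp.toLp 2 z : WithLp 2 (ℂ × ℂ)) := L.continuous
    have hsh : AEStronglyMeasurable (fun t => g' (t + τ)) volume :=
      (hg'.aesm hσ').comp_measurePreserving (measurePreserving_add_right volume τ)
    have hgm : AEStronglyMeasurable (fun t => (WithLp.toLp 2 (g t, g' (t + τ)) : WithLp 2 (ℂ × ℂ))) volume :=
      hcontL.comp_aestronglyMeasurable ((hg.aesm hσ).prodMk hsh)
    obtain ⟨H₀, hH₀, h⟩ := freq hgm hL (hac hfr0) hε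
    refine ⟨H₀, hH₀, fun H hH T => ?_⟩
    have h1 := h H hH T
    have h2 : {t ∈ Set.Icc T (T + H) | (WithLp.toLp 2 (g t, g' (t + τ)) : WithLp 2 (ℂ × ℂ)) ∈ B'} =
        {t ∈ Set.Icc T (T + H) | (g t, g' (t + τ)) ∈ B} := by
      ext t
      have : (g t, g' (t + τ)) ∈ (fun z : ℂ × ℂ => (WithLp.toLp 2 z : WithLp 2 (ℂ × ℂ))) ⁻¹' B' ↔
        (g t, g' (t + τ)) ∈ B := by rw [hpre]
      exact and_congr_right fun _ => this
    rw [h2] at h1
    exact h1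

end two

end Run7.h401.SD
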