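import Mathlib
import Pool.Agent.Run7.h401.SD.Pr2

/-!
Independence of the polynomials of two curves.
-/

set_option autoImplicit false

open MeasureTheory Filter Topology NumberField IsDedekindDomain Polynomial
open scoped ENNReal ComplexConjugate
open Pool.Agent.H921R2.TatePole (nm two_le_nm below deg nm_eq below_le_nm card_above fiber_finite)
open Pool.Agent.H341R2.EC
open Pool.Agent.R433.MD (lf norm_nm_cpow lf_sub_one nm_pos)
open Run7.h113.LE

namespace Run7.h401.SD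

section one
variable {K : Type} [Field K] [NumberField K]

/-- the Euler polynomial of a rational prime -/
noncomputable def EP (V : HeightOneSpectrum (𝓞 K) → WeierstrassCurve (𝓞 K)) (p : ℕ) : ℂ[X] := ∏ v ∈ Gf K p, Ep V v

lemma yy_ne {p : ℕ} (hp : p.Prime) (σ : ℝ) : yy p σ ≠ 0 := by
  unfold yy
  have : (p : ℂ) ≠ 0 := by exact_mod_cast hp.ne_zero
  rw [Ne, Complex.cpow_eq_zero_iff]
  tauto

lemma yy_norm {p : ℕ} (hp : p.Prime) (σ : ℝ) : ‖yy p σ‖ = (p : ℝ) ^ (-(3 / 2 + σ)) := by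
  unfold yy
  rw [Complex.norm_natCast_cpow_of_pos hp.pos]
  congr 1
  simp

lemma PA_eq (V : HeightOneSpectrum (𝓞 K) → WeierstrassCurve (𝓞 K)) (σ : ℝ) {p : ℕ} (hp : p.Prime) :
    PA V σ p = (EP V p).comp (C (yy p σ) * X) := by
  unfold PA EP
  rw [prod_comp]
  exact Finset.prod_congr rfl fun v hv => Qv_comp V σ ((mem_Gf hp).1 hv)

lemma PB_eq (V : HeightOneSpectrum (𝓞 K) → WeierstrassCurve (𝓞 K)) (σ τ : ℝ) {p : ℕ} (hp : p.Prime) :
    PB V σ τ p = (EP V p).comp (C (yy p σ * e (τ * fr p)) * X) := by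
  unfold PB
  rw [prod_sh]
  have h1 : ∏ v ∈ Gf K p, Qv V σ v = (EP V p).comp (C (yy p σ) * X) := PA_eq V σ hp
  rw [h1, comp_assoc]
  congr 1
  simp only [mul_comp, C_comp, X_comp, C_mul]
  ring

/-- all the places above `p` are good -/
def AG (V : HeightOneSpectrum (𝓞 K) → WeierstrassCurve (𝓞 K)) (p : ℕ) : Prop := ∀ v ∈ Gf K p, dlt V v = 1

/-- the sum of the degrees -/
noncomputable def sd (K : Type) [Field K] [NumberField K] (p : ℕ) : ℕ := ∑ v ∈ Gf K p, deg v

lemma sd_le {p : ℕ} (hp : p.Prime) : sd K p ≤ Module.finrank ℚ K :=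
  sum_deg_le (Gf K p) (p := p) fun _ hw => (mem_Gf hp).1 hw

lemma sd_pos {p : ℕ} (hp : p.Prime) : 1 ≤ sd K p := by
  obtain ⟨v, hv⟩ := exists_above (K := K) hp
  have h1 : v ∈ Gf K p := (mem_Gf hp).2 hv
  have h2 : deg v ≤ sd K p := Finset.single_le_sum (f := fun v => deg v) (fun _ _ => Nat.zero_le _) h1
  have h3 := (nm_eq v).2.1
  omega

lemma Ep_good {V : HeightOneSpectrum (𝓞 K) → WeierstrassCurve (𝓞 K)} {v : HeightOneSpectrum (𝓞 K)} (hv : dlt V v = 1) :
    (Ep V v).natDegree = 2 * deg v ∧ (Ep V v).leadingCoeff = ((nm v : ℕ) : ℂ) := by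
  have hd := (nm_eq v).2.1
  have hne : ((nm v : ℕ) : ℂ) ≠ 0 := by exact_mod_cast (nm_pos v).ne'
  have hle : (Ep V v).natDegree ≤ 2 * deg v := by
    unfold Ep
    refine (natDegree_add_le _ _).trans (max_le ?_ ?_)
    · refine (natDegree_sub_le _ _).trans (max_le (by simp) ?_)
      exact (natDegree_C_mul_X_pow_le _ _).trans (by omega)
    · exact natDegree_C_mul_X_pow_le _ _
  have hc : (Ep V v).coeff (2 * deg v) = ((nm v : ℕ) : ℂ) := by
    unfold Ep
    simp only [coeff_add, coeff_sub, coeff_C_mul, coeff_X_pow, coeff_one, hv]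
    rw [if_neg (by omega), if_neg (by omega)]
    simp
  have hdeg : (Ep V v).natDegree = 2 * deg v :=
    le_antisymm hle (le_natDegree_of_ne_zero (by rw [hc]; exact hne))
  exact ⟨hdeg, by rw [leadingCoeff, hdeg, hc]⟩

lemma EP_good {V : HeightOneSpectrum (𝓞 K) → WeierstrassCurve (𝓞 K)} {p : ℕ} (hp : p.Prime) (h : AG V p) :
    (EP V p).natDegree = 2 * sd K p ∧ (EP V p).leadingCoeff = (p : ℂ) ^ sd K p := by
  unfold EP sd
  constructor
  · rw [natDegree_prod, Finset.mul_sum]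
    · exact Finset.sum_congr rfl fun v hv => (Ep_good (h v hv)).1
    · intro v hv h0
      have := (Ep_good (h v hv)).2
      rw [h0, leadingCoeff_zero] at this
      have h1 := nm_pos v
      have h2 : (nm v : ℕ) = 0 := by exact_mod_cast this.symm
      omega
  · rw [leadingCoeff_prod, ← Finset.prod_pow_eq_pow_sum]
    refine Finset.prod_congr rfl fun v hv => ?_
    rw [(Ep_good (h v hv)).2]
    have h1 := (nm_eq v).1
    rw [(mem_Gf hp).1 hv] at h1
    rw [h1]
    push_cast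
    rfl

lemma comp_lin {P : ℂ[X]} {y : ℂ} (hy : y ≠ 0) :
    (P.comp (C y * X)).natDegree = P.natDegree ∧ (P.comp (C y * X)).leadingCoeff = P.leadingCoeff * y ^ P.natDegree := by
  have h1 : (C y * X : ℂ[X]).natDegree = 1 := natDegree_C_mul_X y hy
  constructor
  · rw [natDegree_comp, h1, mul_one]
  · rw [leadingCoeff_comp (by rw [h1]; exact one_ne_zero)]
    congr 2
    rw [leadingCoeff_C_mul_X]

end one

section two
variable {K : Type} [Field K] [NumberField K] {K' : Type} [Field K'] [NumberField K']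

/-- comparison of the leading coefficients -/
lemma lead {V : HeightOneSpectrum (𝓞 K) → WeierstrassCurve (𝓞 K)}
    {V' : HeightOneSpectrum (𝓞 K') → WeierstrassCurve (𝓞 K')} {σ σ' τ : ℝ} {p : ℕ} (hp : p.Prime) (h : AG V p) (h' : AG V' p)
    (heq : PA V σ p ^ (PB V' σ' τ p).natDegree = PB V' σ' τ p ^ (PA V σ p).natDegree) :
    σ = σ' ∧ e (τ * fr p) ^ (4 * (sd K p * sd K' p)) = 1 := by
  have hy := yy_ne hp σ
  have hy' := yy_ne hp σ'
  have ha := e_ne (τ * fr p)
  obtain ⟨a1, a2⟩ := EP_good hp h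
  obtain ⟨b1, b2⟩ := EP_good hp h'
  have c1 := comp_lin (P := EP V p) hy
  have c2 := comp_lin (P := EP V' p) (mul_ne_zero hy' ha)
  rw [← PA_eq V σ hp, a1, a2] at c1
  rw [← PB_eq V' σ' τ hp, b1, b2] at c2
  have h1 := congrArg Polynomial.leadingCoeff heq
  rw [leadingCoeff_pow, leadingCoeff_pow, c1.1, c2.1, c1.2, c2.2] at h1
  set F := sd K p with hF
  set F' := sd K' p with hF'
  have hF1 : 1 ≤ F := sd_pos hp
  have hF1' : 1 ≤ F' := sd_pos hp
  have hp0 : (p : ℂ) ≠ 0 := by exact_mod_cast hp.ne_zero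
  have hp1 : (1:ℝ) < p := by exact_mod_cast hp.one_lt
  -- the norms
  have h2 : (p * yy p σ ^ 2) ^ (2 * (F * F')) =
      (p * yy p σ' ^ 2) ^ (2 * (F * F')) * e (τ * fr p) ^ (4 * (F * F')) := by
    have e1 : (p * yy p σ ^ 2) ^ (2 * (F * F')) = ((p : ℂ) ^ F * yy p σ ^ (2 * F)) ^ (2 * F') := by
      rw [pow_mul (yy p σ) 2 F, ← mul_pow, ← pow_mul]
      congr 1
      ring
    have e2 : (p * yy p σ' ^ 2) ^ (2 * (F * F')) * e (τ * fr p) ^ (4 * (F * F')) =
        ((p : ℂ) ^ F' * (yy p σ' * e (τ * fr p)) ^ (2 * F')) ^ (2 * F) := by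
      have e3 : e (τ * fr p) ^ (4 * (F * F')) = (e (τ * fr p) ^ 2) ^ (2 * (F * F')) := by
        rw [← pow_mul]
        congr 1
        ring
      rw [e3, ← mul_pow, pow_mul (yy p σ' * e (τ * fr p)) 2 F', ← mul_pow, ← pow_mul, mul_pow (yy p σ')]
      have e4 : F' * (2 * F) = 2 * (F * F') := by ring
      rw [e4, mul_assoc]
    rw [e1, e2]
    exact h1
  have h3 := congrArg norm h2
  rw [norm_mul, norm_pow, norm_pow, norm_pow, e_norm, one_pow, mul_one] at h3
  have hne : 2 * (F * F') ≠ 0 := by positivity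
  have h4 := (pow_left_inj₀ (norm_nonneg _) (norm_nonneg _) hne).1 h3
  rw [norm_mul, norm_mul, norm_pow, norm_pow, yy_norm hp, yy_norm hp, Complex.norm_natCast] at h4
  have hpr : (0:ℝ) < p := by linarith
  have h5 : ((p:ℝ) ^ (-(3 / 2 + σ))) ^ 2 = ((p:ℝ) ^ (-(3 / 2 + σ'))) ^ 2 := mul_left_cancel₀ hpr.ne' h4
  have h6 := (pow_left_inj₀ (by positivity) (by positivity) two_ne_zero).1 h5
  have h7 : -(3 / 2 + σ) = -(3 / 2 + σ') := (Real.rpow_right_inj hpr hp1.ne').1 h6
  have hσ : σ = σ' := by linarith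
  refine ⟨hσ, ?_⟩
  rw [hσ] at h2
  have h8 : ((p:ℂ) * yy p σ' ^ 2) ^ (2 * (F * F')) ≠ 0 := pow_ne_zero _ (mul_ne_zero hp0 (pow_ne_zero _ hy'))
  exact (mul_right_eq_self₀.1 h2.symm).resolve_right h8

/-- at most one prime is exceptional -/
lemma exc_finite {τ : ℝ} (hτ : τ ≠ 0) (R : ℕ) :
    {p : ℕ | p.Prime ∧ ∃ m : ℕ, 1 ≤ m ∧ m ≤ R ∧ e (τ * fr p) ^ m = 1}.Finite := by
  refine Set.Subsingleton.finite ?_
  rintro p ⟨hp, m, hm1, hmR, hm⟩ q ⟨hq, n, hn1, hnR, hn⟩
  have key : ∀ {p m : ℕ}, p.Prime → 1 ≤ m → e (τ * fr p) ^ m = 1 → ∃ k : ℤ, τ * (m:ℝ) * Real.log p = 2 * Real.pi * k := by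
    intro p m hp hm h
    unfold e fr at h
    rw [← Complex.exp_nat_mul, Complex.exp_eq_one_iff] at h
    obtain ⟨k, hk⟩ := h
    refine ⟨-k, ?_⟩
    have h1 : ((m:ℝ) * (2 * Real.pi * (τ * (-Real.log p / (2 * Real.pi))))) = k * (2 * Real.pi) := by
      have h2 : (((m:ℝ) * (2 * Real.pi * (τ * (-Real.log p / (2 * Real.pi)))) : ℝ) : ℂ) * Complex.I =
          ((k * (2 * Real.pi) : ℝ) : ℂ) * Complex.I := by
        push_cast at hk ⊢
        linear_combination hk
      have h3 := mul_right_cancel₀ Complex.I_ne_zero h2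
      exact_mod_cast h3
    have h4 : (m:ℝ) * (2 * Real.pi * (τ * (-Real.log p / (2 * Real.pi)))) = -(τ * m * Real.log p) := by
      have := Real.pi_ne_zero
      field_simp
    push_cast
    linarith
  obtain ⟨k, hk⟩ := key hp hm1 hm
  obtain ⟨l, hl⟩ := key hq hn1 hn
  have hlp : 0 < Real.log p := Real.log_pos (by exact_mod_cast hp.one_lt)
  have hlq : 0 < Real.log q := Real.log_pos (by exact_mod_cast hq.one_lt)
  have hm0 : (0:ℝ) < m := by exact_mod_cast hm1
  have hn0 : (0:ℝ) < n := by exact_mod_cast hn1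
  have hpi := Real.pi_pos
  have hk0 : k ≠ 0 := by
    rintro rfl
    rw [Int.cast_zero, mul_zero] at hk
    have := mul_ne_zero (mul_ne_zero hτ hm0.ne') hlp.ne'
    exact this hk
  have hl0 : l ≠ 0 := by
    rintro rfl
    rw [Int.cast_zero, mul_zero] at hl
    have := mul_ne_zero (mul_ne_zero hτ hn0.ne') hlq.ne'
    exact this hl
  -- `l m log p = k n log q`
  have h1 : (l:ℝ) * m * Real.log p = k * n * Real.log q := by
    have h2 : τ * ((l:ℝ) * m * Real.log p) = τ * (k * n * Real.log q) := by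
      calc τ * ((l:ℝ) * m * Real.log p) = l * (τ * m * Real.log p) := by ring
        _ = k * (2 * Real.pi * l) := by rw [hk]; ring
        _ = k * (τ * n * Real.log q) := by rw [hl]
        _ = τ * (k * n * Real.log q) := by ring
    exact mul_left_cancel₀ hτ h2
  have h2 : ((l.natAbs * m : ℕ) : ℝ) * Real.log p = ((k.natAbs * n : ℕ) : ℝ) * Real.log q := by
    have h3 := congrArg abs h1
    rw [abs_mul, abs_mul, abs_mul, abs_mul, abs_of_pos hlp, abs_of_pos hlq, abs_of_pos hm0, abs_of_pos hn0] at h3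
    push_cast
    rw [Nat.cast_natAbs, Nat.cast_natAbs]
    push_cast
    exact h3
  have h3 : Real.log ((p ^ (l.natAbs * m) : ℕ) : ℝ) = Real.log ((q ^ (k.natAbs * n) : ℕ) : ℝ) := by
    push_cast
    rw [Real.log_pow, Real.log_pow]
    exact h2
  have h4 : p ^ (l.natAbs * m) = q ^ (k.natAbs * n) := by
    have h5 := Real.log_injOn_pos (Set.mem_Ioi.2 (by have := hp.pos; positivity))
      (Set.mem_Ioi.2 (by have := hq.pos; positivity)) h3
    exact_mod_cast h5
  have h5 : p ∣ q ^ (k.natAbs * n) := by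
    rw [← h4]
    exact dvd_pow_self p (Nat.mul_ne_zero (Int.natAbs_ne_zero.2 hl0) (by omega))
  exact (Nat.prime_dvd_prime_iff_eq hp hq).1 (hp.dvd_of_dvd_pow h5)

/-- **different points** -/
theorem good2_points {V : HeightOneSpectrum (𝓞 K) → WeierstrassCurve (𝓞 K)}
    {V' : HeightOneSpectrum (𝓞 K') → WeierstrassCurve (𝓞 K')} {σ σ' τ : ℝ} (h : {p : ℕ | p.Prime ∧ ¬ AG V p}.Finite)
    (h' : {p : ℕ | p.Prime ∧ ¬ AG V' p}.Finite) (hne : σ ≠ σ' ∨ τ ≠ 0) : (Good2 V V' σ σ' τ).Infinite := by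
  have hfin : ∃ S : Set ℕ, S.Finite ∧ ∀ p : ℕ, p.Prime → p ∉ S → p ∈ Good2 V V' σ σ' τ := by
    rcases hne with hne | hne
    · refine ⟨_, h.union h', fun p hp hpS => ⟨hp, fun heq => ?_⟩⟩
      rw [Set.mem_union, not_or] at hpS
      have a1 : AG V p := by
        by_contra hcon
        exact hpS.1 ⟨hp, hcon⟩
      have a2 : AG V' p := by
        by_contra hcon
        exact hpS.2 ⟨hp, hcon⟩
      exact hne (lead hp a1 a2 heq).1
    · refine ⟨_, (h.union h').union (exc_finite hne (4 * (Module.finrank ℚ K * Module.finrank ℚ K'))),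
        fun p hp hpS => ⟨hp, fun heq => ?_⟩⟩
      rw [Set.mem_union, not_or, Set.mem_union, not_or] at hpS
      have a1 : AG V p := by
        by_contra hcon
        exact hpS.1.1 ⟨hp, hcon⟩
      have a2 : AG V' p := by
        by_contra hcon
        exact hpS.1.2 ⟨hp, hcon⟩
      apply hpS.2
      refine ⟨hp, 4 * (sd K p * sd K' p), ?_, ?_, (lead hp a1 a2 heq).2⟩
      · have := sd_pos (K := K) hp
        have := sd_pos (K := K') hp
        nlinarith
      · exact Nat.mul_le_mul_left 4 (Nat.mul_le_mul (sd_le hp) (sd_le hp))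
  obtain ⟨S, hS, hmain⟩ := hfin
  refine (Nat.infinite_setOfPred_prime.sdiff hS).mono fun p hp => hmain p hp.1 hp.2

/-- **different curves** -/
theorem good2_curves {V : HeightOneSpectrum (𝓞 K) → WeierstrassCurve (𝓞 K)}
    {V' : HeightOneSpectrum (𝓞 K') → WeierstrassCurve (𝓞 K')} (σ : ℝ)
    (h : {p : ℕ | p.Prime ∧ EP V p ^ (EP V' p).natDegree ≠ EP V' p ^ (EP V p).natDegree}.Infinite) :
    (Good2 V V' σ σ 0).Infinite := by
  refine h.mono fun p hp => ⟨hp.1, fun heq => hp.2 ?_⟩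
  have hy := yy_ne hp.1 σ
  have e0 : e (0 * fr p) = 1 := by rw [zero_mul, e_zero]
  have h1 := PA_eq V σ hp.1
  have h2 := PB_eq V' σ 0 hp.1
  rw [e0, mul_one] at h2
  have c1 := (comp_lin (P := EP V p) hy).1
  have c2 := (comp_lin (P := EP V' p) hy).1
  rw [← h1] at c1
  rw [← h2] at c2
  rw [c1, c2, h1, h2] at heq
  have h3 := congrArg (fun R : ℂ[X] => R.comp (C (yy p σ)⁻¹ * X)) heq
  simp only [pow_comp, comp_assoc] at h3
  have h4 : (C (yy p σ) * X : ℂ[X]).comp (C (yy p σ)⁻¹ * X) = X := by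
    simp only [mul_comp, C_comp, X_comp]
    rw [← mul_assoc, ← C_mul, mul_inv_cancel₀ hy, C_1, one_mul]
  rw [h4, comp_X, comp_X] at h3
  exact h3

end two

end Run7.h401.SD
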